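import Pool.Agent.H780R2.CX.Defs

/-! Task A: basic facts on `mu`, the shift estimate and the packing lemma. -/

set_option autoImplicit false

open scoped ENNReal
open MeasureTheory Set

namespace Pool.Agent.H780R2.CX.TA

/-! ### product formula for lower integrals -/

theorem lint_prod : ∀ (m : ℕ) (f : Fin m → ℝ → ℝ≥0∞), (∀ j, Measurable (f j)) →
    ∫⁻ u : Fin m → ℝ, ∏ j, f j (u j) = ∏ j, ∫⁻ x, f j x := by
  intro m
  induction m with
  | zero =>
    intro f _
    simp only [Finset.univ_eq_empty, Finset.prod_empty, lintegral_const, one_mul]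
    rw [volume_pi, Measure.pi_of_empty]
    simp
  | succ m ih =>
    intro f hf
    have e := volume_preserving_piFinSuccAbove (fun _ : Fin (m + 1) => ℝ) 0
    have h1 : ∫⁻ u : Fin (m + 1) → ℝ, ∏ j, f j (u j) =
        ∫⁻ u : Fin (m + 1) → ℝ, (fun p : ℝ × (Fin m → ℝ) => f 0 p.1 * ∏ j, f j.succ (p.2 j))
          (MeasurableEquiv.piFinSuccAbove (fun _ : Fin (m + 1) => ℝ) 0 u) := by
      apply lintegral_congr
      intro u
      rw [Fin.prod_univ_succ]
      simp [MeasurableEquiv.piFinSuccAbove, Fin.insertNthEquiv, Fin.tail]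
    have hmeas : Measurable (fun u : Fin m → ℝ => ∏ j, f j.succ (u j)) :=
      Finset.measurable_prod _ (fun j _ => (hf j.succ).comp (measurable_pi_apply j))
    have hmeas2 : Measurable (fun p : ℝ × (Fin m → ℝ) => f 0 p.1 * ∏ j, f j.succ (p.2 j)) :=
      ((hf 0).comp measurable_fst).mul (hmeas.comp measurable_snd)
    rw [h1, e.lintegral_comp hmeas2, Measure.volume_eq_prod,
      lintegral_prod_mul (hf 0).aemeasurable hmeas.aemeasurable, ih _ (fun j => hf j.succ),
      Fin.prod_univ_succ]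

/-! ### one-dimensional integrals -/

theorem int_poly4 (a b c d e : ℝ) :
    ∫ x in (-1 : ℝ)..1, (a + b * x + c * x ^ 2 + d * x ^ 3 + e * x ^ 4) =
      2 * a + 2 / 3 * c + 2 / 5 * e := by
  have hder : ∀ x ∈ Set.uIcc (-1 : ℝ) 1, HasDerivAt
      (fun x : ℝ => a * x + b * (x ^ 2 / 2) + c * (x ^ 3 / 3) + d * (x ^ 4 / 4) + e * (x ^ 5 / 5))
      (a + b * x + c * x ^ 2 + d * x ^ 3 + e * x ^ 4) x := by
    intro x _
    have h1 := (hasDerivAt_id' x).const_mul a
    have h2 := ((hasDerivAt_pow 2 x).div_const 2).const_mul b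
    have h3 := ((hasDerivAt_pow 3 x).div_const 3).const_mul c
    have h4 := ((hasDerivAt_pow 4 x).div_const 4).const_mul d
    have h5 := ((hasDerivAt_pow 5 x).div_const 5).const_mul e
    refine ((((h1.add h2).add h3).add h4).add h5).congr_deriv ?_
    norm_num
  rw [intervalIntegral.integral_eq_sub_of_hasDerivAt hder]
  · ring
  · apply Continuous.intervalIntegrable
    fun_prop

theorem lint_box (P : ℝ → ℝ) (hc : Continuous P) (hP : ∀ x, |x| ≤ 1 → 0 ≤ P x) :
    ∫⁻ x : ℝ, ENNReal.ofReal (if |x| ≤ 1 then P x else 0) =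
      ENNReal.ofReal (∫ x in (-1 : ℝ)..1, P x) := by
  have h1 : ∀ x : ℝ, ENNReal.ofReal (if |x| ≤ 1 then P x else 0) =
      (Icc (-1 : ℝ) 1).indicator (fun x => ENNReal.ofReal (P x)) x := by
    intro x
    by_cases h : |x| ≤ 1
    · rw [if_pos h, Set.indicator_of_mem]
      exact abs_le.1 h
    · rw [if_neg h, Set.indicator_of_notMem, ENNReal.ofReal_zero]
      exact fun h' => h (abs_le.2 h')
  simp only [h1]
  rw [lintegral_indicator measurableSet_Icc, intervalIntegral.integral_of_le (by norm_num),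
    ← integral_Icc_eq_integral_Ioc, ofReal_integral_eq_lintegral_ofReal]
  · exact (hc.integrableOn_Icc)
  · rw [Filter.EventuallyLE, ae_restrict_iff' measurableSet_Icc]
    filter_upwards with x hx
    exact hP x (abs_le.2 hx)

theorem measurable_psi : Measurable psi := by
  unfold psi
  apply Measurable.ite
  · exact (isClosed_le continuous_abs continuous_const).measurableSet
  · fun_prop
  · exact measurable_const

theorem psi_nonneg (x : ℝ) : 0 ≤ psi x := by
  unfold psi
  split_ifs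
  · positivity
  · exact le_rfl

theorem lint_psi : ∫⁻ x : ℝ, ENNReal.ofReal (psi x) = 1 := by
  unfold psi
  rw [lint_box (fun x => 15 / 16 * (1 - x ^ 2) ^ 2) (by fun_prop) (fun x _ => by positivity)]
  have : ∫ x in (-1 : ℝ)..1, 15 / 16 * (1 - x ^ 2) ^ 2 =
      ∫ x in (-1 : ℝ)..1, (15 / 16 + 0 * x + (-(15 / 8)) * x ^ 2 + 0 * x ^ 3 + 15 / 16 * x ^ 4) := by
    congr 1
    funext x
    ring
  rw [this, int_poly4]
  norm_num

/-- the density of `mu` -/
noncomputable def dens (m : ℕ) (u : Fin m → ℝ) : ℝ≥0∞ := ∏ j, ENNReal.ofReal (psi (u j))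

theorem measurable_dens (m : ℕ) : Measurable (dens m) :=
  Finset.measurable_prod _ (fun j _ =>
    (ENNReal.measurable_ofReal.comp measurable_psi).comp (measurable_pi_apply j))

theorem mu_apply {m : ℕ} {G : Set (Fin m → ℝ)} (hG : MeasurableSet G) :
    mu m G = ∫⁻ u in G, dens m u := by
  unfold mu
  rw [withDensity_apply _ hG]
  rfl

/-- A1 -/
theorem mu_univ (m : ℕ) : mu m Set.univ = 1 := by
  rw [mu_apply MeasurableSet.univ, Measure.restrict_univ]
  unfold dens
  rw [lint_prod m (fun _ x => ENNReal.ofReal (psi x))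
    (fun _ => ENNReal.measurable_ofReal.comp measurable_psi)]
  simp [lint_psi]

theorem measurableSet_box (m : ℕ) : MeasurableSet (box m) := by
  unfold box
  have : {u : Fin m → ℝ | ∀ j, |u j| ≤ 1} = ⋂ j, {u : Fin m → ℝ | |u j| ≤ 1} := by
    ext u; simp
  rw [this]
  exact MeasurableSet.iInter (fun j =>
    (isClosed_le (continuous_abs.comp (continuous_apply j)) continuous_const).measurableSet)

/-- A2 -/
theorem mu_compl_box (m : ℕ) : mu m (box m)ᶜ = 0 := by
  rw [mu_apply (measurableSet_box m).compl]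
  rw [setLIntegral_congr_fun (g := fun _ => 0) (measurableSet_box m).compl]
  · simp
  · intro u hu
    simp only [box, Set.mem_compl_iff, Set.mem_setOf_eq, not_forall] at hu
    obtain ⟨j, hj⟩ := hu
    unfold dens
    apply Finset.prod_eq_zero (Finset.mem_univ j)
    unfold psi
    rw [if_neg hj, ENNReal.ofReal_zero]

/-! ### the shift estimate -/

/-- typical points for a shift by `b` -/
def Typ (b u : ℝ) : Prop := |u| ≤ 1 ∧ 2 * |b| ≤ 1 - |u|

theorem measurableSet_Typ (b : ℝ) : MeasurableSet {u : ℝ | Typ b u} := by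
  have h1 : MeasurableSet {u : ℝ | |u| ≤ 1} :=
    (isClosed_le continuous_abs continuous_const).measurableSet
  have h2 : MeasurableSet {u : ℝ | 2 * |b| ≤ 1 - |u|} :=
    (isClosed_le continuous_const (by fun_prop : Continuous fun u : ℝ => 1 - |u|)).measurableSet
  exact h1.inter h2

/-- the comparison polynomial -/
noncomputable def gb (b u : ℝ) : ℝ :=
  15 / 16 * ((1 - u ^ 2) ^ 2 + (1 - u ^ 2) * (2 * b * u + b ^ 2) + 2 * (2 * b * u + b ^ 2) ^ 2)

theorem gb_nonneg (b u : ℝ) : 0 ≤ gb b u := by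
  unfold gb
  nlinarith [sq_nonneg ((1 - u ^ 2) + (2 * b * u + b ^ 2) / 2), sq_nonneg (2 * b * u + b ^ 2)]

theorem Typ_y (b u : ℝ) (h : Typ b u) : 2 * |2 * b * u + b ^ 2| ≤ 1 - u ^ 2 := by
  obtain ⟨h1, h2⟩ := h
  have hb := abs_nonneg b
  have hu := abs_nonneg u
  have e1 : |2 * b * u + b ^ 2| ≤ |b| * (2 * |u| + |b|) := by
    calc |2 * b * u + b ^ 2| ≤ |2 * b * u| + |b ^ 2| := abs_add_le _ _
      _ = |b| * (2 * |u| + |b|) := by
        rw [abs_mul, abs_mul, abs_pow, abs_of_pos (by norm_num : (0 : ℝ) < 2)]; ring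
  have e2 : 1 - u ^ 2 = (1 - |u|) * (1 + |u|) := by
    have : u ^ 2 = |u| ^ 2 := (sq_abs u).symm
    rw [this]; ring
  rw [e2]
  nlinarith [mul_nonneg hb hu, mul_nonneg hb hb]

/-- `ψ(u) φ(u) ≤ g_b(u) φ(u + b)` for typical points -/
theorem Typ_key (b u : ℝ) (h : Typ b u) :
    psi u * (1 - u ^ 2) ≤ gb b u * (1 - (u + b) ^ 2) := by
  have hy := Typ_y b u h
  have hy' : 2 * (2 * b * u + b ^ 2) ≤ 1 - u ^ 2 := by
    have := le_abs_self (2 * b * u + b ^ 2)
    linarith
  unfold psi gb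
  rw [if_pos h.1]
  have e : 15 / 16 * ((1 - u ^ 2) ^ 2 + (1 - u ^ 2) * (2 * b * u + b ^ 2) +
      2 * (2 * b * u + b ^ 2) ^ 2) * (1 - (u + b) ^ 2) =
      15 / 16 * (1 - u ^ 2) ^ 2 * (1 - u ^ 2) +
        15 / 16 * ((2 * b * u + b ^ 2) ^ 2 * ((1 - u ^ 2) - 2 * (2 * b * u + b ^ 2))) := by ring
  rw [e]
  have : 0 ≤ (2 * b * u + b ^ 2) ^ 2 * ((1 - u ^ 2) - 2 * (2 * b * u + b ^ 2)) :=
    mul_nonneg (sq_nonneg _) (by linarith)
  linarith

theorem Typ_phi_nonneg (b u : ℝ) (h : Typ b u) : 0 ≤ 1 - (u + b) ^ 2 ∧ 0 ≤ 1 - u ^ 2 := by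
  have hy := Typ_y b u h
  have h0 : 0 ≤ |2 * b * u + b ^ 2| := abs_nonneg _
  have h1 := le_abs_self (2 * b * u + b ^ 2)
  constructor
  · have : 1 - (u + b) ^ 2 = (1 - u ^ 2) - (2 * b * u + b ^ 2) := by ring
    rw [this]; linarith
  · linarith

theorem Typ_abs (b u : ℝ) (h : Typ b u) : |u + b| ≤ 1 := by
  have := abs_add_le u b
  have hb := abs_nonneg b
  obtain ⟨h1, h2⟩ := h
  linarith

theorem lint_gb (b : ℝ) (hb : |b| ≤ 1 / 4) :
    ∫⁻ x : ℝ, ENNReal.ofReal (if |x| ≤ 1 then gb b x else 0) ≤ ENNReal.ofReal (1 + 7 * b ^ 2) := by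
  rw [lint_box (gb b) (by unfold gb; fun_prop) (fun x _ => gb_nonneg b x)]
  apply ENNReal.ofReal_le_ofReal
  have : ∫ x in (-1 : ℝ)..1, gb b x =
      ∫ x in (-1 : ℝ)..1, (15 / 16 * (1 + b ^ 2 + 2 * b ^ 4) + 15 / 16 * (2 * b + 8 * b ^ 3) * x +
        15 / 16 * (-2 + 7 * b ^ 2) * x ^ 2 + 15 / 16 * (-(2 * b)) * x ^ 3 + 15 / 16 * x ^ 4) := by
    congr 1
    funext x
    unfold gb
    ring
  rw [this, int_poly4]
  have hb2 : b ^ 2 ≤ 1 / 16 := by
    rw [← sq_abs b]
    nlinarith [abs_nonneg b]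
  nlinarith [sq_nonneg b]

open scoped Classical in
theorem lint_not_Typ (b : ℝ) (hb : |b| ≤ 1 / 4) :
    ∫⁻ x : ℝ, ENNReal.ofReal (if Typ b x then 0 else psi x) ≤
      ENNReal.ofReal (60 * |b| * b ^ 2) := by
  classical
  have hb0 := abs_nonneg b
  have h1 : ∀ x : ℝ, ENNReal.ofReal (if Typ b x then 0 else psi x) ≤
      (Icc (1 - 2 * |b|) 1).indicator (fun _ => ENNReal.ofReal (15 * b ^ 2)) x +
      (Icc (-1) (-(1 - 2 * |b|))).indicator (fun _ => ENNReal.ofReal (15 * b ^ 2)) x := by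
    intro x
    by_cases hT : Typ b x
    · rw [if_pos hT, ENNReal.ofReal_zero]; exact zero_le
    · rw [if_neg hT]
      by_cases hx : |x| ≤ 1
      · have hx2 : 1 - 2 * |b| < |x| := by
          by_contra hcon
          exact hT ⟨hx, by linarith [not_lt.1 hcon]⟩
        have hpsi : psi x ≤ 15 * b ^ 2 := by
          unfold psi
          rw [if_pos hx]
          have e2 : 1 - x ^ 2 = (1 - |x|) * (1 + |x|) := by
            have : x ^ 2 = |x| ^ 2 := (sq_abs x).symm
            rw [this]; ring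
          have e3 : b ^ 2 = |b| ^ 2 := (sq_abs b).symm
          have h4 : 0 ≤ (1 - |x|) * (1 + |x|) :=
            mul_nonneg (by linarith) (by linarith [abs_nonneg x])
          have h5 : (1 - |x|) * (1 + |x|) ≤ 2 * |b| * 2 := by
            apply mul_le_mul
            · linarith
            · linarith
            · linarith [abs_nonneg x]
            · linarith
          rw [e2, e3]
          have h6 : ((1 - |x|) * (1 + |x|)) ^ 2 ≤ (2 * |b| * 2) ^ 2 := pow_le_pow_left₀ h4 h5 2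
          nlinarith
        rcases le_total 0 x with h0 | h0
        · rw [abs_of_nonneg h0] at hx hx2
          rw [Set.indicator_of_mem (show x ∈ Icc (1 - 2 * |b|) 1 from ⟨hx2.le, hx⟩)]
          exact (ENNReal.ofReal_le_ofReal hpsi).trans le_self_add
        · rw [abs_of_nonpos h0] at hx hx2
          rw [Set.indicator_of_mem (show x ∈ Icc (-1) (-(1 - 2 * |b|)) from
            ⟨by linarith, by linarith⟩)]
          exact (ENNReal.ofReal_le_ofReal hpsi).trans le_add_self
      · have : psi x = 0 := by unfold psi; rw [if_neg hx]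
        rw [this, ENNReal.ofReal_zero]; exact zero_le
  calc ∫⁻ x : ℝ, ENNReal.ofReal (if Typ b x then 0 else psi x)
      ≤ ∫⁻ x : ℝ, ((Icc (1 - 2 * |b|) 1).indicator (fun _ => ENNReal.ofReal (15 * b ^ 2)) x +
      (Icc (-1) (-(1 - 2 * |b|))).indicator (fun _ => ENNReal.ofReal (15 * b ^ 2)) x) :=
        lintegral_mono h1
    _ = ENNReal.ofReal (15 * b ^ 2) * ENNReal.ofReal (2 * |b|) +
        ENNReal.ofReal (15 * b ^ 2) * ENNReal.ofReal (2 * |b|) := by
        rw [lintegral_add_left (measurable_const.indicator measurableSet_Icc),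
          lintegral_indicator_const measurableSet_Icc, lintegral_indicator_const measurableSet_Icc,
          Real.volume_Icc, Real.volume_Icc]
        congr 3
        · ring
        · ring
    _ = ENNReal.ofReal (60 * |b| * b ^ 2) := by
        rw [← ENNReal.ofReal_mul (by positivity), ← ENNReal.ofReal_add (by positivity)
          (by positivity)]
        congr 1
        ring

/-- all coordinates typical -/
def AT {m : ℕ} (b : Fin m → ℝ) : Set (Fin m → ℝ) := {u | ∀ j, Typ (b j) (u j)}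

/-- the good set of a shift -/
def TT {m : ℕ} (k1 : ℝ) (b : Fin m → ℝ) : Set (Fin m → ℝ) :=
  {u | (∀ j, Typ (b j) (u j)) ∧ k1 * ∏ j, (1 - (u j) ^ 2) ≤ ∏ j, (1 - (u j + b j) ^ 2)}

theorem measurableSet_AT {m : ℕ} (b : Fin m → ℝ) : MeasurableSet (AT b) := by
  have : AT b = ⋂ j, (fun u : Fin m → ℝ => u j) ⁻¹' {x | Typ (b j) x} := by
    ext u; simp [AT]
  rw [this]
  exact MeasurableSet.iInter (fun j => measurable_pi_apply j (measurableSet_Typ (b j)))

theorem measurableSet_TT {m : ℕ} (k1 : ℝ) (b : Fin m → ℝ) : MeasurableSet (TT k1 b) := by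
  have : TT k1 b = AT b ∩
      {u | k1 * ∏ j, (1 - (u j) ^ 2) ≤ ∏ j, (1 - (u j + b j) ^ 2)} := rfl
  rw [this]
  apply (measurableSet_AT b).inter
  exact (isClosed_le (by fun_prop) (by fun_prop)).measurableSet

/-- mass of the atypical points -/
theorem mu_compl_AT {m : ℕ} (b : Fin m → ℝ) (hb : ∀ j, |b j| ≤ 1 / 4) :
    mu m (AT b)ᶜ ≤ ∑ j, ENNReal.ofReal (60 * |b j| * (b j) ^ 2) := by
  classical
  have h1 : (AT b)ᶜ ⊆ ⋃ j, {u : Fin m → ℝ | ¬ Typ (b j) (u j)} := by
    intro u hu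
    simp only [AT, Set.mem_compl_iff, Set.mem_setOf_eq, not_forall] at hu
    simpa using hu
  refine (measure_mono h1).trans ((measure_iUnion_fintype_le _ _).trans ?_)
  apply Finset.sum_le_sum
  intro j _
  have hmeas : MeasurableSet {u : Fin m → ℝ | ¬ Typ (b j) (u j)} := by
    have hpi : Measurable (fun u : Fin m → ℝ => u j) := measurable_pi_apply j
    exact hpi (measurableSet_Typ (b j)).compl
  rw [mu_apply hmeas, ← lintegral_indicator hmeas]
  set f : Fin m → ℝ → ℝ≥0∞ := fun k x =>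
    if k = j then ENNReal.ofReal (if Typ (b j) x then 0 else psi x) else ENNReal.ofReal (psi x)
    with hf
  have hfm : ∀ k, Measurable (f k) := by
    intro k
    by_cases hk : k = j
    · simp only [hf, hk, if_true]
      exact ENNReal.measurable_ofReal.comp
        (Measurable.ite (measurableSet_Typ (b j)) measurable_const measurable_psi)
    · simp only [hf, hk, if_false]
      exact ENNReal.measurable_ofReal.comp measurable_psi
  have h2 : ∀ u : Fin m → ℝ, ({u : Fin m → ℝ | ¬ Typ (b j) (u j)}).indicator (dens m) u =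
      ∏ k, f k (u k) := by
    intro u
    by_cases hT : Typ (b j) (u j)
    · rw [Set.indicator_of_notMem (by simpa using hT)]
      symm
      apply Finset.prod_eq_zero (Finset.mem_univ j)
      simp [hf, hT]
    · rw [Set.indicator_of_mem (by simpa using hT)]
      unfold dens
      apply Finset.prod_congr rfl
      intro k _
      by_cases hk : k = j
      · subst hk; simp [hf, hT]
      · simp [hf, hk]
  simp only [h2]
  rw [lint_prod m f hfm]
  have h3 : ∏ k, ∫⁻ x, f k x =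
      ∏ k, if k = j then ∫⁻ x, ENNReal.ofReal (if Typ (b j) x then 0 else psi x) else 1 := by
    apply Finset.prod_congr rfl
    intro k _
    by_cases hk : k = j
    · simp [hf, hk]
    · simp [hf, hk, lint_psi]
  rw [h3, Finset.prod_ite_eq' Finset.univ j, if_pos (Finset.mem_univ _)]
  exact lint_not_Typ (b j) (hb j)

/-- mass of the bad points -/
theorem mu_bad {m : ℕ} (k1 : ℝ) (hk1 : 0 < k1) (b : Fin m → ℝ) (hb : ∀ j, |b j| ≤ 1 / 4) :
    mu m (AT b \ TT k1 b) ≤ ENNReal.ofReal k1 * ∏ j, ENNReal.ofReal (1 + 7 * (b j) ^ 2) := by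
  classical
  have hmeas : MeasurableSet (AT b \ TT k1 b) := (measurableSet_AT b).diff (measurableSet_TT k1 b)
  rw [mu_apply hmeas]
  have hle : ∀ u ∈ AT b \ TT k1 b, dens m u ≤
      ENNReal.ofReal k1 * ∏ j, ENNReal.ofReal (if |u j| ≤ 1 then gb (b j) (u j) else 0) := by
    intro u hu
    have hT : ∀ j, Typ (b j) (u j) := hu.1
    have hlt : ∏ j, (1 - (u j + b j) ^ 2) < k1 * ∏ j, (1 - (u j) ^ 2) := by
      by_contra hcon
      exact hu.2 ⟨hT, not_lt.1 hcon⟩
    have h0 : 0 ≤ ∏ j, (1 - (u j + b j) ^ 2) :=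
      Finset.prod_nonneg (fun j _ => (Typ_phi_nonneg _ _ (hT j)).1)
    have h1 : 0 ≤ ∏ j, (1 - (u j) ^ 2) :=
      Finset.prod_nonneg (fun j _ => (Typ_phi_nonneg _ _ (hT j)).2)
    have hpos : 0 < ∏ j, (1 - (u j) ^ 2) := by
      rcases h1.eq_or_lt with h | h
      · rw [← h, mul_zero] at hlt; linarith
      · exact h
    have hg0 : 0 ≤ ∏ j, gb (b j) (u j) := Finset.prod_nonneg (fun j _ => gb_nonneg _ _)
    have hkey : (∏ j, psi (u j)) * ∏ j, (1 - (u j) ^ 2) ≤
        (∏ j, gb (b j) (u j)) * ∏ j, (1 - (u j + b j) ^ 2) := by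
      rw [← Finset.prod_mul_distrib, ← Finset.prod_mul_distrib]
      apply Finset.prod_le_prod
      · intro j _
        exact mul_nonneg (psi_nonneg _) (Typ_phi_nonneg _ _ (hT j)).2
      · intro j _
        exact Typ_key _ _ (hT j)
    have hfin : ∏ j, psi (u j) ≤ k1 * ∏ j, gb (b j) (u j) := by
      have h2 : (∏ j, psi (u j)) * ∏ j, (1 - (u j) ^ 2) ≤
          (k1 * ∏ j, gb (b j) (u j)) * ∏ j, (1 - (u j) ^ 2) := by
        refine hkey.trans ?_
        calc (∏ j, gb (b j) (u j)) * ∏ j, (1 - (u j + b j) ^ 2)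
            ≤ (∏ j, gb (b j) (u j)) * (k1 * ∏ j, (1 - (u j) ^ 2)) :=
              mul_le_mul_of_nonneg_left hlt.le hg0
          _ = _ := by ring
      exact le_of_mul_le_mul_right h2 hpos
    unfold dens
    rw [← ENNReal.ofReal_prod_of_nonneg (fun j _ => psi_nonneg _)]
    have h3 : ∏ j, ENNReal.ofReal (if |u j| ≤ 1 then gb (b j) (u j) else 0) =
        ENNReal.ofReal (∏ j, gb (b j) (u j)) := by
      rw [ENNReal.ofReal_prod_of_nonneg (fun j _ => gb_nonneg _ _)]
      apply Finset.prod_congr rfl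
      intro j _
      rw [if_pos (hT j).1]
    rw [h3, ← ENNReal.ofReal_mul hk1.le]
    exact ENNReal.ofReal_le_ofReal hfin
  have hgm : ∀ j, Measurable (fun x : ℝ => ENNReal.ofReal (if |x| ≤ 1 then gb (b j) x else 0)) := by
    intro j
    apply ENNReal.measurable_ofReal.comp
    apply Measurable.ite
    · exact (isClosed_le continuous_abs continuous_const).measurableSet
    · unfold gb; fun_prop
    · exact measurable_const
  calc ∫⁻ u in AT b \ TT k1 b, dens m u
      ≤ ∫⁻ u in AT b \ TT k1 b, ENNReal.ofReal k1 *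
          ∏ j, ENNReal.ofReal (if |u j| ≤ 1 then gb (b j) (u j) else 0) :=
        setLIntegral_mono' hmeas hle
    _ ≤ ∫⁻ u : Fin m → ℝ, ENNReal.ofReal k1 *
          ∏ j, ENNReal.ofReal (if |u j| ≤ 1 then gb (b j) (u j) else 0) :=
        setLIntegral_le_lintegral _ _
    _ = ENNReal.ofReal k1 * ∏ j, ∫⁻ x : ℝ, ENNReal.ofReal (if |x| ≤ 1 then gb (b j) x else 0) := by
        have hpm : Measurable (fun u : Fin m → ℝ =>
            ∏ j, ENNReal.ofReal (if |u j| ≤ 1 then gb (b j) (u j) else 0)) :=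
          Finset.measurable_prod _ (fun j _ => (hgm j).comp (measurable_pi_apply j))
        rw [lintegral_const_mul _ hpm]
        rw [lint_prod m (fun j x => ENNReal.ofReal (if |x| ≤ 1 then gb (b j) x else 0)) hgm]
    _ ≤ _ := by
        apply mul_le_mul_right
        exact Finset.prod_le_prod' (fun j _ => lint_gb (b j) (hb j))

/-- the measure of a translate -/
theorem mu_shift {m : ℕ} (k1 : ℝ) (hk1 : 0 < k1) (b : Fin m → ℝ) {G : Set (Fin m → ℝ)}
    (hG : MeasurableSet G) :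
    ENNReal.ofReal (k1 ^ 2) * mu m (G ∩ TT k1 b) ≤ mu m {v | (fun j => v j - b j) ∈ G} := by
  have hG' : MeasurableSet {v : Fin m → ℝ | (fun j => v j - b j) ∈ G} := by
    have : Measurable (fun v : Fin m → ℝ => fun j => v j - b j) := by fun_prop
    exact this hG
  have hGT := hG.inter (measurableSet_TT k1 b)
  rw [mu_apply hG', ← lintegral_indicator hG', ← lintegral_add_right_eq_self _ b, mu_apply hGT,
    ← lintegral_const_mul _ (measurable_dens m), ← lintegral_indicator hGT]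
  apply lintegral_mono
  intro u
  change (G ∩ TT k1 b).indicator (fun u => ENNReal.ofReal (k1 ^ 2) * dens m u) u ≤
    {v : Fin m → ℝ | (fun j => v j - b j) ∈ G}.indicator (dens m) (u + b)
  by_cases hu : u ∈ G ∩ TT k1 b
  · rw [Set.indicator_of_mem hu]
    have hmem : u + b ∈ {v : Fin m → ℝ | (fun j => v j - b j) ∈ G} := by
      simp only [Set.mem_setOf_eq, Pi.add_apply, add_sub_cancel_right]
      exact hu.1
    rw [Set.indicator_of_mem hmem]
    obtain ⟨hT, hk⟩ := hu.2
    unfold dens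
    rw [← ENNReal.ofReal_prod_of_nonneg (fun j _ => psi_nonneg _),
      ← ENNReal.ofReal_prod_of_nonneg (fun j _ => psi_nonneg _),
      ← ENNReal.ofReal_mul (by positivity)]
    apply ENNReal.ofReal_le_ofReal
    have e1 : ∏ j, psi (u j) = (∏ _j : Fin m, (15 / 16 : ℝ)) * (∏ j, (1 - (u j) ^ 2)) ^ 2 := by
      rw [← Finset.prod_pow, ← Finset.prod_mul_distrib]
      apply Finset.prod_congr rfl
      intro j _
      unfold psi
      rw [if_pos (hT j).1]
    have e2 : ∏ j, psi ((u + b) j) =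
        (∏ _j : Fin m, (15 / 16 : ℝ)) * (∏ j, (1 - (u j + b j) ^ 2)) ^ 2 := by
      rw [← Finset.prod_pow, ← Finset.prod_mul_distrib]
      apply Finset.prod_congr rfl
      intro j _
      unfold psi
      rw [if_pos (by rw [Pi.add_apply]; exact Typ_abs _ _ (hT j)), Pi.add_apply]
    rw [e1, e2]
    have h1 : 0 ≤ ∏ j, (1 - (u j) ^ 2) :=
      Finset.prod_nonneg (fun j _ => (Typ_phi_nonneg _ _ (hT j)).2)
    have h2 : (k1 * ∏ j, (1 - (u j) ^ 2)) ^ 2 ≤ (∏ j, (1 - (u j + b j) ^ 2)) ^ 2 :=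
      pow_le_pow_left₀ (mul_nonneg hk1.le h1) hk 2
    have h3 : 0 ≤ ∏ _j : Fin m, (15 / 16 : ℝ) := Finset.prod_nonneg (fun _ _ => by norm_num)
    nlinarith [mul_le_mul_of_nonneg_left h2 h3]
  · rw [Set.indicator_of_notMem hu]
    exact zero_le

/-- A3: many pairwise disjoint translates of `G` by `ℓ²`-bounded, `ℓ^∞`-small vectors force
`mu G ≤ 1/2`. -/
theorem pack (S : ℝ) (hS : 0 < S) : ∃ (L : ℕ) (η : ℝ), 0 < L ∧ 0 < η ∧
    ∀ (m : ℕ) (G : Set (Fin m → ℝ)) (b : Fin L → Fin m → ℝ), MeasurableSet G →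
      (∀ i, ∑ j, (b i j) ^ 2 ≤ S) → (∀ i j, |b i j| ≤ η) →
      (∀ i i', i ≠ i' → ∀ u ∈ G, ∀ v ∈ G, (fun j => u j + b i j) ≠ (fun j => v j + b i' j)) →
      mu m G ≤ 1 / 2 := by
  set k1 : ℝ := Real.exp (-(7 * S)) / 8 with hk1def
  have hk1 : 0 < k1 := by positivity
  refine ⟨⌈5 / k1 ^ 2⌉₊, min (1 / 4) (1 / (480 * S)), Nat.ceil_pos.2 (by positivity),
    lt_min (by norm_num) (by positivity), ?_⟩
  intro m G b hG hbS hbη hdis
  have hb4 : ∀ i j, |b i j| ≤ 1 / 4 := fun i j => (hbη i j).trans (min_le_left _ _)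
  have hbη' : ∀ i j, |b i j| ≤ 1 / (480 * S) := fun i j => (hbη i j).trans (min_le_right _ _)
  by_contra hcon
  rw [not_le] at hcon
  -- mass of the complement of the good set
  have hTc : ∀ i, mu m (TT k1 (b i))ᶜ ≤ ENNReal.ofReal (1 / 4) := by
    intro i
    have h1 : (TT k1 (b i))ᶜ ⊆ (AT (b i))ᶜ ∪ (AT (b i) \ TT k1 (b i)) := by
      intro u hu
      by_cases h : u ∈ AT (b i)
      · exact Or.inr ⟨h, hu⟩
      · exact Or.inl h
    refine (measure_mono h1).trans ((measure_union_le _ _).trans ?_)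
    have h2 : mu m (AT (b i))ᶜ ≤ ENNReal.ofReal (1 / 8) := by
      refine (mu_compl_AT (b i) (hb4 i)).trans ?_
      rw [← ENNReal.ofReal_sum_of_nonneg (fun j _ => by positivity)]
      apply ENNReal.ofReal_le_ofReal
      calc ∑ j, 60 * |b i j| * (b i j) ^ 2 ≤ ∑ j, 60 * (1 / (480 * S)) * (b i j) ^ 2 := by
            apply Finset.sum_le_sum
            intro j _
            apply mul_le_mul_of_nonneg_right _ (sq_nonneg _)
            exact mul_le_mul_of_nonneg_left (hbη' i j) (by norm_num)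
        _ = 60 * (1 / (480 * S)) * ∑ j, (b i j) ^ 2 := by rw [Finset.mul_sum]
        _ ≤ 60 * (1 / (480 * S)) * S := mul_le_mul_of_nonneg_left (hbS i) (by positivity)
        _ = 1 / 8 := by field_simp; norm_num
    have h3 : mu m (AT (b i) \ TT k1 (b i)) ≤ ENNReal.ofReal (1 / 8) := by
      refine (mu_bad k1 hk1 (b i) (hb4 i)).trans ?_
      rw [← ENNReal.ofReal_prod_of_nonneg (fun j _ => by positivity),
        ← ENNReal.ofReal_mul hk1.le]
      apply ENNReal.ofReal_le_ofReal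
      have h4 : ∏ j, (1 + 7 * (b i j) ^ 2) ≤ Real.exp (7 * S) := by
        calc ∏ j, (1 + 7 * (b i j) ^ 2) ≤ ∏ j, Real.exp (7 * (b i j) ^ 2) := by
              apply Finset.prod_le_prod
              · intro j _; positivity
              · intro j _
                have := Real.add_one_le_exp (7 * (b i j) ^ 2)
                linarith
          _ = Real.exp (∑ j, 7 * (b i j) ^ 2) := (Real.exp_sum _ _).symm
          _ ≤ Real.exp (7 * S) := by
              apply Real.exp_le_exp.2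
              rw [← Finset.mul_sum]
              linarith [hbS i]
      calc k1 * ∏ j, (1 + 7 * (b i j) ^ 2) ≤ k1 * Real.exp (7 * S) :=
            mul_le_mul_of_nonneg_left h4 hk1.le
        _ = 1 / 8 := by
            rw [hk1def, div_mul_eq_mul_div, ← Real.exp_add]
            simp
    calc mu m (AT (b i))ᶜ + mu m (AT (b i) \ TT k1 (b i))
        ≤ ENNReal.ofReal (1 / 8) + ENNReal.ofReal (1 / 8) := add_le_add h2 h3
      _ = ENNReal.ofReal (1 / 4) := by
          rw [← ENNReal.ofReal_add (by norm_num) (by norm_num)]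
          norm_num
  -- each translate has mass at least `k1^2/4`
  have hlow : ∀ i, ENNReal.ofReal (k1 ^ 2 / 4) ≤ mu m {v | (fun j => v j - b i j) ∈ G} := by
    intro i
    refine le_trans ?_ (mu_shift k1 hk1 (b i) hG)
    have h1 : ENNReal.ofReal (1 / 4) ≤ mu m (G ∩ TT k1 (b i)) := by
      by_contra hc
      rw [not_le] at hc
      have h2 : mu m G ≤ mu m (G ∩ TT k1 (b i)) + mu m (TT k1 (b i))ᶜ := by
        refine (measure_mono ?_).trans (measure_union_le _ _)
        intro u hu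
        by_cases h : u ∈ TT k1 (b i)
        · exact Or.inl ⟨hu, h⟩
        · exact Or.inr h
      have h3 : mu m G < 1 / 2 := by
        calc mu m G ≤ mu m (G ∩ TT k1 (b i)) + mu m (TT k1 (b i))ᶜ := h2
          _ ≤ mu m (G ∩ TT k1 (b i)) + ENNReal.ofReal (1 / 4) := by gcongr; exact hTc i
          _ < ENNReal.ofReal (1 / 4) + ENNReal.ofReal (1 / 4) :=
              ENNReal.add_lt_add_right ENNReal.ofReal_ne_top hc
          _ = 1 / 2 := by
              rw [← ENNReal.ofReal_add (by norm_num) (by norm_num)]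
              norm_num
              rw [ENNReal.ofReal_div_of_pos (by norm_num)]
              simp
      exact absurd hcon (not_lt.2 h3.le)
    calc ENNReal.ofReal (k1 ^ 2 / 4) = ENNReal.ofReal (k1 ^ 2) * ENNReal.ofReal (1 / 4) := by
          rw [← ENNReal.ofReal_mul (by positivity)]
          congr 1
          ring
      _ ≤ _ := by gcongr
  -- disjointness
  have hmeasG : ∀ i, MeasurableSet {v : Fin m → ℝ | (fun j => v j - b i j) ∈ G} := by
    intro i
    have : Measurable (fun v : Fin m → ℝ => fun j => v j - b i j) := by fun_prop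
    exact this hG
  have hpd : Pairwise (fun i i' => Disjoint {v : Fin m → ℝ | (fun j => v j - b i j) ∈ G}
      {v : Fin m → ℝ | (fun j => v j - b i' j) ∈ G}) := by
    intro i i' hii
    rw [Set.disjoint_left]
    intro v hv hv'
    apply hdis i i' hii _ hv _ hv'
    funext j
    ring
  have hsum : ∑ i, mu m {v : Fin m → ℝ | (fun j => v j - b i j) ∈ G} ≤ 1 := by
    rw [← measure_biUnion_finset (fun i _ i' _ hii => hpd hii) (fun i _ => hmeasG i), ← mu_univ m]
    exact measure_mono (Set.subset_univ _)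
  have hsum2 : (⌈5 / k1 ^ 2⌉₊ : ℝ≥0∞) * ENNReal.ofReal (k1 ^ 2 / 4) ≤ 1 := by
    refine le_trans ?_ hsum
    calc (⌈5 / k1 ^ 2⌉₊ : ℝ≥0∞) * ENNReal.ofReal (k1 ^ 2 / 4)
        = ∑ _i : Fin ⌈5 / k1 ^ 2⌉₊, ENNReal.ofReal (k1 ^ 2 / 4) := by
          rw [Finset.sum_const, Finset.card_univ, Fintype.card_fin, nsmul_eq_mul]
      _ ≤ _ := Finset.sum_le_sum (fun i _ => hlow i)
  have h5 : (⌈5 / k1 ^ 2⌉₊ : ℝ≥0∞) = ENNReal.ofReal (⌈5 / k1 ^ 2⌉₊ : ℝ) := by
    rw [ENNReal.ofReal_natCast]
  rw [h5, ← ENNReal.ofReal_mul (by positivity), ← ENNReal.ofReal_one,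
    ENNReal.ofReal_le_ofReal_iff (by norm_num)] at hsum2
  have h6 : 5 / k1 ^ 2 ≤ (⌈5 / k1 ^ 2⌉₊ : ℝ) := Nat.le_ceil _
  have h7 : 5 / k1 ^ 2 * (k1 ^ 2 / 4) = 5 / 4 := by field_simp
  have h8 : 5 / k1 ^ 2 * (k1 ^ 2 / 4) ≤ (⌈5 / k1 ^ 2⌉₊ : ℝ) * (k1 ^ 2 / 4) :=
    mul_le_mul_of_nonneg_right h6 (by positivity)
  linarith

end Pool.Agent.H780R2.CX.TA
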