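import Pool.Agent.H780R2.CX.Glue

open scoped ENNReal
open MeasureTheory Set

namespace Pool.Agent.H780R2.CX

universe u v w

section basic

variable {X : Type u} {Y : Type v} [NormedAddCommGroup X] [NormedSpace ℝ X]
    [NormedAddCommGroup Y] [NormedSpace ℝ Y]

/-- `detErr` is antitone. -/
theorem detErr_antitone (S : X →L[ℝ] Y) (F : Set X) {n n' : ℕ} (h : n ≤ n') :
    detErr S F n' ≤ detErr S F n := by
  unfold detErr
  refine le_iInf fun L => le_iInf fun φ => ?_
  refine iInf_le_of_le (fun i : Fin n' => if hi : (i : ℕ) < n then L ⟨i, hi⟩ else 0) ?_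
  refine iInf_le_of_le (fun y => φ (fun i : Fin n => y ⟨i, i.2.trans_le h⟩)) ?_
  refine iSup₂_mono fun f hf => ?_
  apply le_of_eq
  congr 3
  apply congrArg
  funext i
  simp

/-- base point of the affine prior. -/
noncomputable def base {m : ℕ} (f0 : X) (f g : Fin m → X) (s : Fin m → ℝ) : X :=
  (1 - ∑ j, s j) • f0 + ∑ j, (s j / 2) • (f j + g j)

theorem pt_mem {m : ℕ} {F : Set X} (hF : Convex ℝ F) {f0 : X} (hf0 : f0 ∈ F) {f g : Fin m → X}
    (hf : ∀ j, f j ∈ F) (hg : ∀ j, g j ∈ F) {s : Fin m → ℝ} (hs : ∀ j, 0 ≤ s j)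
    (hs1 : ∑ j, s j ≤ 1) {u : Fin m → ℝ} (hu : u ∈ box m) :
    pt (base f0 f g s) (fun j => f j - g j) s u ∈ F := by
  -- convex combination over `Option (Fin m)`
  have key : pt (base f0 f g s) (fun j => f j - g j) s u =
      ∑ o : Option (Fin m), (Option.elim o (1 - ∑ j, s j) s) •
        (Option.elim o f0 (fun j => ((1 + u j) / 2) • f j + ((1 - u j) / 2) • g j)) := by
    rw [Fintype.sum_option]
    simp only [Option.elim]
    unfold pt base
    rw [add_assoc, ← Finset.sum_add_distrib]
    congr 1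
    refine Finset.sum_congr rfl fun j _ => ?_
    module
  rw [key]
  apply hF.sum_mem
  · intro o _
    cases o with
    | none => simpa using hs1
    | some j => exact hs j
  · rw [Fintype.sum_option]; simp
  · intro o _
    cases o with
    | none => exact hf0
    | some j =>
      have h1 := abs_le.mp (hu j)
      refine hF (hf j) (hg j) ?_ ?_ ?_
      · linarith [h1.1]
      · linarith [h1.2]
      · ring

theorem continuous_pt {m : ℕ} (x0 : X) (h : Fin m → X) (s : Fin m → ℝ) :
    Continuous (pt x0 h s) := by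
  unfold pt
  fun_prop

theorem level (S : X →L[ℝ] Y) (F : Set X) (n : ℕ) (E : ℝ)
    (hran : ranErr.{u, v, w} S F n < ENNReal.ofReal E)
    {C : Type} [Fintype C] [Nonempty C] (m : ℕ) (p : C → (Fin m → ℝ) → X)
    (hp : ∀ c, ∀ u ∈ box m, p c u ∈ F) (hc : ∀ c, Continuous (p c)) :
    ∃ (Lf : Fin n → X →L[ℝ] ℝ) (φ : (Fin n → ℝ) → Y),
      (∀ c, Measurable (fun u : box m => ‖S (p c u) - φ (fun i => Lf i (p c u))‖)) ∧
      ∑ c, ∫⁻ u, ‖S (p c u) - φ (fun i => Lf i (p c u))‖ₑ ∂(mu m)
        ≤ (Fintype.card C : ℝ≥0∞) * ENNReal.ofReal E := by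
  unfold ranErr at hran
  obtain ⟨A, hA⟩ := iInf_lt_iff.mp hran
  obtain ⟨ω, h1, h2⟩ := exists_omega S F n A (ENNReal.ofReal E)
    (fun f hf => (le_iSup₂ (f := fun f (_ : f ∈ F) =>
      @lintegral A.Ω A.mΩ A.P (fun ω => ‖S f - A.φ ω (fun i => A.L ω i f)‖ₑ)) f hf).trans hA.le)
    m p hp hc
  exact ⟨A.L ω, A.φ ω, h1, h2⟩

/-- kernel of the information on the directions `h`. -/
noncomputable def kerM {k m : ℕ} (Lf : Fin k → X →L[ℝ] ℝ) (h : Fin m → X) :
    Submodule ℝ (EuclideanSpace ℝ (Fin m)) :=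
  LinearMap.ker ({ toFun := fun w t => ∑ j, w j * Lf t (h j)
                   map_add' := by
                    intro x y; funext t
                    simp [add_mul, Finset.sum_add_distrib]
                   map_smul' := by
                    intro r x; funext t
                    simp [mul_assoc, Finset.mul_sum] } :
    EuclideanSpace ℝ (Fin m) →ₗ[ℝ] (Fin k → ℝ))

theorem mem_kerM {k m : ℕ} (Lf : Fin k → X →L[ℝ] ℝ) (h : Fin m → X)
    (w : EuclideanSpace ℝ (Fin m)) : w ∈ kerM Lf h ↔ ∀ t, ∑ j, w j * Lf t (h j) = 0 := by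
  unfold kerM
  rw [LinearMap.mem_ker]
  constructor
  · intro hw t
    exact congrFun hw t
  · intro hw
    funext t
    exact hw t

theorem finrank_kerM {k m : ℕ} (Lf : Fin k → X →L[ℝ] ℝ) (h : Fin m → X) :
    m ≤ Module.finrank ℝ (kerM Lf h) + k := by
  have h1 := LinearMap.finrank_range_add_finrank_ker
    ({ toFun := fun w t => ∑ j, w j * Lf t (h j)
       map_add' := by
        intro x y; funext t
        simp [add_mul, Finset.sum_add_distrib]
       map_smul' := by
        intro r x; funext t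
        simp [mul_assoc, Finset.mul_sum] } :
    EuclideanSpace ℝ (Fin m) →ₗ[ℝ] (Fin k → ℝ))
  have h2 := Submodule.finrank_le (LinearMap.range
    ({ toFun := fun w t => ∑ j, w j * Lf t (h j)
       map_add' := by
        intro x y; funext t
        simp [add_mul, Finset.sum_add_distrib]
       map_smul' := by
        intro r x; funext t
        simp [mul_assoc, Finset.mul_sum] } :
    EuclideanSpace ℝ (Fin m) →ₗ[ℝ] (Fin k → ℝ)))
  rw [Module.finrank_fin_fun] at h2
  rw [finrank_euclideanSpace_fin] at h1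
  change _ + Module.finrank ℝ (kerM Lf h) = m at h1
  omega

end basic

end Pool.Agent.H780R2.CX
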