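import Mathlib

/-!
Task B12: orthonormal bases adapted to subspaces, Hadamard's inequality.
-/

open scoped ENNReal RealInnerProductSpace
open Module

namespace Pool.Agent.H780R2.CX.TB12

/-- a unit vector in `U` orthogonal to few vectors -/
theorem exists_unit {m : ℕ} (U : Submodule ℝ (EuclideanSpace ℝ (Fin m)))
    (s : Finset (EuclideanSpace ℝ (Fin m))) (h : s.card < Module.finrank ℝ U) :
    ∃ u ∈ U, ‖u‖ = 1 ∧ ∀ w ∈ s, ⟪w, u⟫ = 0 := by
  set W := Submodule.span ℝ (s : Set (EuclideanSpace ℝ (Fin m))) with hW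
  have h1 : finrank ℝ W ≤ s.card := finrank_span_finset_le_card s
  have h2 := Submodule.finrank_add_finrank_orthogonal W
  have h3 := Submodule.finrank_sup_add_finrank_inf_eq U Wᗮ
  have h4 : finrank ℝ (U ⊔ Wᗮ : Submodule ℝ (EuclideanSpace ℝ (Fin m))) ≤
    finrank ℝ (EuclideanSpace ℝ (Fin m)) := Submodule.finrank_le _
  have h5 : 0 < finrank ℝ (U ⊓ Wᗮ : Submodule ℝ (EuclideanSpace ℝ (Fin m))) := by omega
  have h6 : Nontrivial (U ⊓ Wᗮ : Submodule ℝ (EuclideanSpace ℝ (Fin m))) :=
    Module.finrank_pos_iff.mp h5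
  obtain ⟨⟨x, hx⟩, hx0⟩ := exists_ne (0 : (U ⊓ Wᗮ : Submodule ℝ (EuclideanSpace ℝ (Fin m))))
  have hx1 : x ≠ 0 := fun hc => hx0 (Subtype.ext hc)
  have hxn : ‖x‖ ≠ 0 := norm_ne_zero_iff.mpr hx1
  refine ⟨‖x‖⁻¹ • x, U.smul_mem _ hx.1, ?_, ?_⟩
  · rw [norm_smul, norm_inv, norm_norm, inv_mul_cancel₀ hxn]
  · intro w hw
    rw [inner_smul_right]
    have := (Submodule.mem_orthogonal W x).mp hx.2 w (Submodule.subset_span hw)
    rw [this, mul_zero]

/-- B1: greedy orthonormal basis adapted to subspaces `U i` of dimension `≥ m - i`. -/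
theorem adapted (m : ℕ) (U : Fin m → Submodule ℝ (EuclideanSpace ℝ (Fin m)))
    (hU : ∀ i, m ≤ Module.finrank ℝ (U i) + i) :
    ∃ b : Fin m → EuclideanSpace ℝ (Fin m), Orthonormal ℝ b ∧ ∀ i, b i ∈ U i := by
  have key : ∀ k : ℕ, k ≤ m → ∃ b : Fin m → EuclideanSpace ℝ (Fin m),
      (∀ i : Fin m, m - k ≤ (i : ℕ) → b i ∈ U i ∧ ‖b i‖ = 1) ∧
      (∀ i j : Fin m, m - k ≤ (i : ℕ) → m - k ≤ (j : ℕ) → i ≠ j → ⟪b i, b j⟫ = 0) := by
    intro k
    induction k with
    | zero =>
      intro _
      refine ⟨fun _ => 0, ?_, ?_⟩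
      · intro i hi
        have := i.2
        omega
      · intro i j hi
        have := i.2
        omega
    | succ k ih =>
      intro hk
      obtain ⟨b, hb1, hb2⟩ := ih (by omega)
      classical
      set i0 : Fin m := ⟨m - (k + 1), by omega⟩ with hi0
      set s : Finset (EuclideanSpace ℝ (Fin m)) :=
        (Finset.univ.filter (fun i : Fin m => m - k ≤ (i : ℕ))).image b with hs
      have hcard : s.card ≤ k := by
        refine Finset.card_image_le.trans ?_
        have e : (Finset.univ.filter (fun i : Fin m => m - k ≤ (i : ℕ))).card ≤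
            (Finset.Ico (m - k) m).card := by
          apply Finset.card_le_card_of_injOn (fun i : Fin m => (i : ℕ))
          · intro i hi
            rw [Finset.mem_coe, Finset.mem_filter] at hi
            rw [Finset.mem_coe, Finset.mem_Ico]
            exact ⟨hi.2, i.2⟩
          · intro i _ j _ hij
            exact Fin.ext hij
        rw [Nat.card_Ico] at e
        omega
      have hlt : s.card < finrank ℝ (U i0) := by
        have := hU i0
        have e : ((i0 : Fin m) : ℕ) = m - (k + 1) := rfl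
        omega
      obtain ⟨u, hu1, hu2, hu3⟩ := exists_unit (U i0) s hlt
      refine ⟨Function.update b i0 u, ?_, ?_⟩
      · intro i hi
        by_cases hii : i = i0
        · subst hii
          rw [Function.update_self]
          exact ⟨hu1, hu2⟩
        · rw [Function.update_of_ne hii]
          apply hb1
          have : (i : ℕ) ≠ m - (k + 1) := fun hc => hii (Fin.ext hc)
          omega
      · have hne : ∀ i : Fin m, m - (k + 1) ≤ (i : ℕ) → i ≠ i0 → m - k ≤ (i : ℕ) := by
          intro i hi hii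
          have : (i : ℕ) ≠ m - (k + 1) := fun hc => hii (Fin.ext hc)
          omega
        have hmem : ∀ i : Fin m, m - k ≤ (i : ℕ) → b i ∈ s := by
          intro i hi
          rw [hs]
          exact Finset.mem_image_of_mem b (Finset.mem_filter.mpr ⟨Finset.mem_univ _, hi⟩)
        intro i j hi hj hij
        by_cases hii : i = i0
        · have hji : j ≠ i0 := fun hc => hij (hii.trans hc.symm)
          rw [hii, Function.update_self, Function.update_of_ne hji, real_inner_comm]
          exact hu3 _ (hmem j (hne j hj hji))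
        · by_cases hji : j = i0
          · rw [hji, Function.update_self, Function.update_of_ne hii]
            exact hu3 _ (hmem i (hne i hi hii))
          · rw [Function.update_of_ne hii, Function.update_of_ne hji]
            exact hb2 i j (hne i hi hii) (hne j hj hji) hij
  obtain ⟨b, hb1, hb2⟩ := key m le_rfl
  refine ⟨b, ⟨fun i => (hb1 i (by omega)).2, fun i j hij => hb2 i j (by omega) (by omega) hij⟩,
    fun i => (hb1 i (by omega)).1⟩

/-- B2: Hadamard's inequality in an orthonormal basis. -/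
theorem hadamard (m : ℕ) (M : Matrix (Fin m) (Fin m) ℝ)
    (b : Fin m → EuclideanSpace ℝ (Fin m)) (hb : Orthonormal ℝ b) :
    M.det ^ 2 ≤ ∏ i, ∑ l, (∑ j, M l j * b i j) ^ 2 := by
  have : Fact (finrank ℝ (EuclideanSpace ℝ (Fin m)) = m) := ⟨by simp⟩
  set B : Matrix (Fin m) (Fin m) ℝ := Matrix.of (fun i j => b i j) with hB
  set N : Matrix (Fin m) (Fin m) ℝ := M * B.transpose with hN
  have hBB : B * B.transpose = 1 := by
    ext i i'
    rw [Matrix.mul_apply, Matrix.one_apply]
    have h1 := (orthonormal_iff_ite.mp hb) i i'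
    rw [PiLp.inner_apply] at h1
    rw [← h1]
    refine Finset.sum_congr rfl fun j _ => ?_
    simp only [hB, Matrix.transpose_apply, Matrix.of_apply]
    rw [real_inner_eq_re_inner]
    simp [mul_comm]
  have hdetB : B.det ^ 2 = 1 := by
    have h1 := congrArg Matrix.det hBB
    rw [Matrix.det_mul, Matrix.det_transpose, Matrix.det_one] at h1
    rw [sq]; exact h1
  have hdet : M.det ^ 2 = N.det ^ 2 := by
    rw [hN, Matrix.det_mul, Matrix.det_transpose, mul_pow, hdetB, mul_one]
  have hNapp : ∀ l i, N l i = ∑ j, M l j * b i j := by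
    intro l i
    rw [hN, Matrix.mul_apply]
    rfl
  set c := EuclideanSpace.basisFun (Fin m) ℝ with hc
  set o := c.toBasis.orientation with ho
  set v : Fin m → EuclideanSpace ℝ (Fin m) := fun i => WithLp.toLp 2 (fun l => N l i) with hv
  have h1 := o.abs_volumeForm_apply_le v
  rw [o.volumeForm_robust' c v] at h1
  have h2 : c.toBasis.det v = N.det := by
    rw [Module.Basis.det_apply]
    congr 1
  rw [h2] at h1
  have h3 : ∀ i, ‖v i‖ ^ 2 = ∑ l, (∑ j, M l j * b i j) ^ 2 := by
    intro i
    rw [EuclideanSpace.norm_sq_eq]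
    refine Finset.sum_congr rfl fun l _ => ?_
    rw [Real.norm_eq_abs, sq_abs, ← hNapp]
  rw [hdet, ← sq_abs]
  calc |N.det| ^ 2 ≤ (∏ i, ‖v i‖) ^ 2 := pow_le_pow_left₀ (abs_nonneg _) h1 2
    _ = ∏ i, ‖v i‖ ^ 2 := (Finset.prod_pow _ _ _).symm
    _ = _ := Finset.prod_congr rfl fun i _ => h3 i

end Pool.Agent.H780R2.CX.TB12
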