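import Pool.Agent.H780R2.CX.Defs
import Pool.Agent.H780R2.CX.B12

/-! Task B3: rows of a triangular matrix and large subspaces. -/

set_option autoImplicit false

open scoped ENNReal
open MeasureTheory Set

namespace Pool.Agent.H780R2.CX.TB3

open Pool.Agent.H780R2.CX.TB12 (adapted hadamard)

/-- Bessel type bound -/
theorem bess {m : ℕ} (r : Fin m → ℝ) (U : Submodule ℝ (EuclideanSpace ℝ (Fin m))) (ρ : ℝ)
    (hU : ∀ w ∈ U, |∑ i, r i * w i| ≤ ρ * ‖w‖) (hρ : 0 ≤ ρ)
    (b : Fin m → EuclideanSpace ℝ (Fin m)) (hb : Orthonormal ℝ b) (B : Finset (Fin m))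
    (hB : ∀ i ∈ B, b i ∈ U) : ∑ i ∈ B, (∑ j, r j * b i j) ^ 2 ≤ ρ ^ 2 := by
  set t : Fin m → ℝ := fun i => ∑ j, r j * b i j with ht
  set w : EuclideanSpace ℝ (Fin m) := ∑ i ∈ B, t i • b i with hw
  have hwU : w ∈ U := Submodule.sum_mem _ (fun i hi => Submodule.smul_mem _ _ (hB i hi))
  have h1 : ‖w‖ ^ 2 = ∑ i ∈ B, t i ^ 2 := by
    rw [← real_inner_self_eq_norm_sq, hw, hb.inner_sum]
    apply Finset.sum_congr rfl
    intro i _
    simp [sq]
  have h2 : ∑ i, r i * w i = ∑ i ∈ B, t i ^ 2 := by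
    have e : ∀ j, w j = ∑ i ∈ B, t i * b i j := by
      intro j
      rw [hw]
      simp
    simp only [e, Finset.mul_sum]
    rw [Finset.sum_comm]
    apply Finset.sum_congr rfl
    intro i _
    rw [sq]
    nth_rewrite 3 [ht]
    rw [Finset.mul_sum]
    apply Finset.sum_congr rfl
    intro j _
    ring
  have h3 := hU w hwU
  rw [h2, ← h1, abs_of_nonneg (sq_nonneg _)] at h3
  have h4 : ‖w‖ ≤ ρ := by
    rcases (norm_nonneg w).eq_or_lt with h | h
    · rw [← h]; exact hρ
    · nlinarith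
  rw [← h1]
  exact pow_le_pow_left₀ (norm_nonneg _) h4 2

/-- Sum of the blocks. -/
theorem block_sum (x : ℕ → ℝ) (K : ℕ) (h0 : x 0 ≤ 1)
    (hb : ∀ j, j < K → ∑ i ∈ Finset.Ico (2 ^ j) (2 ^ (j + 1)), x i ≤ 2 ^ j) :
    ∀ n, n ≤ K → ∑ i ∈ Finset.range (2 ^ n), x i ≤ 2 ^ n := by
  intro n
  induction n with
  | zero => intro _; simpa using h0
  | succ n ih =>
    intro hn
    have h1 := ih (by omega)
    have h2 := hb n (by omega)
    rw [← Finset.sum_range_add_sum_Ico x (Nat.pow_le_pow_right (by norm_num) (Nat.le_succ n))]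
    calc _ ≤ (2 : ℝ) ^ n + 2 ^ n := add_le_add h1 h2
      _ = 2 ^ (n + 1) := by ring

/-- product of the weights of the first half -/
theorem prod_half (h : ℕ) : ∏ i ∈ Finset.range h, (8 * (h : ℝ) / ((i : ℝ) + 1)) ≤ 32 ^ h := by
  rw [Finset.prod_div_distrib, Finset.prod_const, Finset.card_range]
  have h1 : ∏ i ∈ Finset.range h, ((i : ℝ) + 1) = (h.factorial : ℝ) := by
    rw [← Finset.prod_range_add_one_eq_factorial]
    push_cast
    rfl
  rw [h1, mul_pow, mul_div_assoc]
  have h2 := Real.pow_div_factorial_le_exp (x := (h : ℝ)) (by positivity) h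
  have h3 : Real.exp (h : ℝ) ≤ 4 ^ h := by
    have : Real.exp (h : ℝ) = Real.exp 1 ^ h := by
      rw [← Real.exp_nat_mul, mul_one]
    rw [this]
    apply pow_le_pow_left₀ (Real.exp_pos _).le
    have := Real.exp_one_lt_d9
    linarith
  calc (8 : ℝ) ^ h * ((h : ℝ) ^ h / (h.factorial : ℝ)) ≤ 8 ^ h * 4 ^ h :=
        mul_le_mul_of_nonneg_left (h2.trans h3) (by positivity)
    _ = 32 ^ h := by rw [← mul_pow]; norm_num

/-- B3 (uses B1, B2) -/
theorem lemD (β C₂ : ℝ) (hβ : 0 ≤ β) (hC : 1 ≤ C₂) : ∃ c : ℝ, 0 < c ∧ ∀ (K m : ℕ), 5 ≤ K →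
    m = 2 ^ K → ∀ (a : ℝ), 0 < a → ∀ M : Matrix (Fin m) (Fin m) ℝ,
    (∀ l j, l < j → M l j = 0) → (∀ j, a ≤ M j j) →
    (∀ l j, |M l j| ≤ C₂ * (m : ℝ) ^ β * a) →
    ∀ V : ℕ → Submodule ℝ (EuclideanSpace ℝ (Fin m)),
    (∀ j, 1 ≤ j → j + 2 ≤ K → m ≤ Module.finrank ℝ (V j) + 2 ^ j ∧
      ∀ l, ∀ w ∈ V j, |∑ i, M l i * w i| ≤ C₂ * ((2 : ℝ) ^ (K - j)) ^ (1 + β) * a * ‖w‖) →
    ∀ W : Submodule ℝ (EuclideanSpace ℝ (Fin m)), m ≤ Module.finrank ℝ W + m / 2 →
      ∃ l, ∃ w ∈ W, c * a * ‖w‖ < |∑ i, M l i * w i| := by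
  set γ : ℝ := 3 + 2 * β with hγ
  set Q : ℝ := (32 : ℝ) ^ (γ / 2) with hQ
  have hQ0 : 0 < Q := by positivity
  have hQ2 : Q ^ 2 = (32 : ℝ) ^ γ := by
    rw [hQ, ← Real.rpow_natCast, ← Real.rpow_mul (by norm_num)]
    congr 1
    push_cast
    ring
  have hC0 : 0 < C₂ := by linarith
  refine ⟨1 / (2 * C₂ * Q), by positivity, ?_⟩
  intro K m hK hm a ha M hlow hdiag hent V hV W hW
  by_contra hcon
  push Not at hcon
  set c : ℝ := 1 / (2 * C₂ * Q) with hc
  have hc0 : 0 < c := by positivity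
  set h : ℕ := 2 ^ (K - 1) with hh
  have hhpos : 0 < h := by positivity
  have hmh : m = h + h := by
    rw [hm, hh, ← two_mul, ← pow_succ']
    congr 1
    omega
  have hm0 : 0 < m := by omega
  have hmR : (0 : ℝ) < m := by exact_mod_cast hm0
  -- the flag of subspaces
  set V' : ℕ → Submodule ℝ (EuclideanSpace ℝ (Fin m)) := fun j => if j = 0 then ⊤ else V j with hV'
  have hV'bound : ∀ j, j + 2 ≤ K → ∀ l, ∀ w ∈ V' j,
      |∑ i, M l i * w i| ≤ C₂ * ((2 : ℝ) ^ (K - j)) ^ (1 + β) * a * ‖w‖ := by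
    intro j hj l w hw
    by_cases hj0 : j = 0
    · subst hj0
      have h1 : |∑ i, M l i * w i| ≤ ∑ i : Fin m, C₂ * (m : ℝ) ^ β * a * ‖w‖ := by
        refine (Finset.abs_sum_le_sum_abs _ _).trans ?_
        apply Finset.sum_le_sum
        intro i _
        rw [abs_mul]
        apply mul_le_mul (hent l i)
        · have := EuclideanSpace.norm_sq_eq w
          have h2 : ‖w i‖ ^ 2 ≤ ‖w‖ ^ 2 := by
            rw [this]
            exact Finset.single_le_sum (f := fun i => ‖w i‖ ^ 2) (fun _ _ => sq_nonneg _)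
              (Finset.mem_univ i)
          rw [← Real.norm_eq_abs]
          exact le_of_sq_le_sq h2 (norm_nonneg _)
        · exact abs_nonneg _
        · positivity
      rw [Finset.sum_const, Finset.card_univ, Fintype.card_fin, nsmul_eq_mul] at h1
      refine h1.trans (le_of_eq ?_)
      have h2 : ((2 : ℝ) ^ (K - 0)) = (m : ℝ) := by
        rw [hm]; push_cast; rfl
      rw [h2, Real.rpow_add hmR, Real.rpow_one]
      ring
    · have := (hV j (by omega) hj).2 l w
      simp only [hV', hj0, if_false] at hw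
      exact this hw
  set U : Fin m → Submodule ℝ (EuclideanSpace ℝ (Fin m)) := fun i =>
    if (i : ℕ) < h then V' (Nat.log 2 i) else W with hU
  have hlog : ∀ i : ℕ, i < h → Nat.log 2 i + 2 ≤ K := by
    intro i hi
    rcases Nat.eq_zero_or_pos i with h0 | hpos
    · subst h0; simp; omega
    · have : Nat.log 2 i < K - 1 := Nat.log_lt_of_lt_pow (by omega) hi
      omega
  have hUdim : ∀ i : Fin m, m ≤ Module.finrank ℝ (U i) + i := by
    intro i
    by_cases hi : (i : ℕ) < h
    · have eU : U i = V' (Nat.log 2 (i : ℕ)) := by simp only [hU, hi, if_true]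
      rw [eU]
      by_cases hj0 : Nat.log 2 (i : ℕ) = 0
      · have eV : V' (Nat.log 2 (i : ℕ)) = ⊤ := by simp only [hV', hj0, if_true]
        rw [eV, finrank_top, finrank_euclideanSpace, Fintype.card_fin]
        omega
      · have eV : V' (Nat.log 2 (i : ℕ)) = V (Nat.log 2 (i : ℕ)) := by
          simp only [hV', hj0, if_false]
        rw [eV]
        have h1 := (hV (Nat.log 2 i) (by omega) (hlog i hi)).1
        have h2 : 2 ^ Nat.log 2 (i : ℕ) ≤ (i : ℕ) := by
          apply Nat.pow_log_le_self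
          intro h0
          rw [h0] at hj0
          simp at hj0
        omega
    · have eU : U i = W := by simp only [hU, hi, if_false]
      rw [eU]
      omega
  obtain ⟨b, hb, hbU⟩ := adapted m U hUdim
  -- column sums
  set D : Fin m → ℝ := fun i => ∑ l, (∑ j, M l j * b i j) ^ 2 with hD
  have hD0 : ∀ i, 0 ≤ D i := fun i => Finset.sum_nonneg (fun _ _ => sq_nonneg _)
  have hdet : (a ^ m) ^ 2 ≤ ∏ i, D i := by
    refine le_trans ?_ (hadamard m M b hb)
    rw [Matrix.det_of_isLowerTriangular M (fun i j hij => hlow i j hij)]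
    apply pow_le_pow_left₀ (by positivity)
    calc a ^ m = ∏ _i : Fin m, a := by simp
      _ ≤ ∏ i, M i i := Finset.prod_le_prod (fun _ _ => ha.le) (fun i _ => hdiag i)
  -- general block estimate
  have hblock : ∀ (B : Finset (Fin m)) (V0 : Submodule ℝ (EuclideanSpace ℝ (Fin m))) (ρ : ℝ),
      0 ≤ ρ → (∀ l, ∀ w ∈ V0, |∑ i, M l i * w i| ≤ ρ * ‖w‖) → (∀ i ∈ B, b i ∈ V0) →
      ∑ i ∈ B, D i ≤ m * ρ ^ 2 := by
    intro B V0 ρ hρ hV0 hB
    rw [hD]
    rw [Finset.sum_comm]
    calc ∑ l, ∑ i ∈ B, (∑ j, M l j * b i j) ^ 2 ≤ ∑ _l : Fin m, ρ ^ 2 :=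
          Finset.sum_le_sum (fun l _ => bess (fun j => M l j) V0 ρ (hV0 l) hρ b hb B hB)
      _ = m * ρ ^ 2 := by simp
  -- weights
  set τ : ℕ → ℝ := fun i => if i < h then C₂ ^ 2 * a ^ 2 * (4 * (m : ℝ) / ((i : ℝ) + 1)) ^ γ
    else 2 * c ^ 2 * a ^ 2 with hτ
  have hτpos : ∀ i, 0 < τ i := by
    intro i
    simp only [hτ]
    split_ifs
    · positivity
    · positivity
  set x : ℕ → ℝ := fun i => if hi : i < m then D ⟨i, hi⟩ / τ i else 0 with hx
  -- translation of sums over blocks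
  have hxsum : ∀ (p q : ℕ) (hq : q ≤ m) (T : ℝ) (hT : 0 < T) (hTi : ∀ i, p ≤ i → i < q → T ≤ τ i),
      ∑ i ∈ Finset.Ico p q, x i ≤
        (∑ i ∈ Finset.univ.filter (fun i : Fin m => p ≤ (i : ℕ) ∧ (i : ℕ) < q), D i) / T := by
    intro p q hq T hT hTi
    have e1 : ∑ i ∈ Finset.univ.filter (fun i : Fin m => p ≤ (i : ℕ) ∧ (i : ℕ) < q), D i / T =
        ∑ i ∈ Finset.Ico p q, (if hi : i < m then D ⟨i, hi⟩ / T else 0) := by
      apply Finset.sum_bij (fun (i : Fin m) _ => (i : ℕ))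
      · intro i hi
        have := (Finset.mem_filter.1 hi).2
        exact Finset.mem_Ico.2 this
      · intro i _ j _ hij
        exact Fin.ext hij
      · intro i hi
        have h1 := Finset.mem_Ico.1 hi
        exact ⟨⟨i, by omega⟩, by simp [h1], rfl⟩
      · intro i _
        simp
    rw [Finset.sum_div, e1]
    apply Finset.sum_le_sum
    intro i hi
    have h1 := Finset.mem_Ico.1 hi
    have hi' : i < m := by omega
    simp only [hx, hi', dif_pos]
    exact div_le_div_of_nonneg_left (hD0 _) hT (hTi i h1.1 h1.2)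
  have hρV : ∀ j, 0 ≤ C₂ * ((2 : ℝ) ^ (K - j)) ^ (1 + β) * a := fun j => by positivity
  -- key comparison: `ρ_j² m ≤ 2^j * (C₂² a² (2^(K-j))^γ)`
  have hkey : ∀ j, j ≤ K → (m : ℝ) * (C₂ * ((2 : ℝ) ^ (K - j)) ^ (1 + β) * a) ^ 2 =
      2 ^ j * (C₂ ^ 2 * a ^ 2 * ((2 : ℝ) ^ (K - j)) ^ γ) := by
    intro j hj
    have hp : (0 : ℝ) < 2 ^ (K - j) := by positivity
    have e1 : (m : ℝ) = 2 ^ j * 2 ^ (K - j) := by
      rw [hm, ← pow_add]
      push_cast
      congr 1
      omega
    have e2 : (((2 : ℝ) ^ (K - j)) ^ (1 + β)) ^ 2 * 2 ^ (K - j) = ((2 : ℝ) ^ (K - j)) ^ γ := by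
      rw [← Real.rpow_natCast, ← Real.rpow_mul hp.le]
      nth_rewrite 2 [← Real.rpow_one ((2 : ℝ) ^ (K - j))]
      rw [← Real.rpow_add hp]
      congr 1
      rw [hγ]
      push_cast
      ring
    rw [e1, ← e2]
    ring
  have hx0 : x 0 ≤ 1 := by
    have h1 := hxsum 0 1 (by omega) (C₂ ^ 2 * a ^ 2 * ((2 : ℝ) ^ (K - 0)) ^ γ) (by positivity) (by
      intro i _ hi
      have hi0 : i = 0 := by omega
      subst hi0
      simp only [hτ, hhpos, if_true]
      apply mul_le_mul_of_nonneg_left _ (by positivity)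
      apply Real.rpow_le_rpow (by positivity) _ (by rw [hγ]; linarith)
      have : ((2 : ℝ) ^ (K - 0)) = (m : ℝ) := by rw [hm]; push_cast; rfl
      rw [this]
      simp
      linarith)
    have h2 := hblock (Finset.univ.filter (fun i : Fin m => 0 ≤ (i : ℕ) ∧ (i : ℕ) < 1)) (V' 0) _
      (hρV 0) (hV'bound 0 (by omega)) (fun i _ => by simp [hV'])
    rw [hkey 0 (by omega)] at h2
    simp only [Nat.Ico_zero_eq_range, Finset.range_one, Finset.sum_singleton] at h1
    refine h1.trans ?_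
    rw [div_le_one (by positivity)]
    simpa using h2
  have hxb : ∀ j, j < K → ∑ i ∈ Finset.Ico (2 ^ j) (2 ^ (j + 1)), x i ≤ 2 ^ j := by
    intro j hj
    by_cases hjK : j + 2 ≤ K
    · have hle : 2 ^ (j + 1) ≤ h := by
        rw [hh]; exact Nat.pow_le_pow_right (by norm_num) (by omega)
      have h1 := hxsum (2 ^ j) (2 ^ (j + 1)) (by omega)
        (C₂ ^ 2 * a ^ 2 * ((2 : ℝ) ^ (K - j)) ^ γ) (by positivity) (by
        intro i _ hi
        have hih : i < h := by omega
        simp only [hτ, hih, if_true]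
        apply mul_le_mul_of_nonneg_left _ (by positivity)
        apply Real.rpow_le_rpow (by positivity) _ (by rw [hγ]; linarith)
        rw [le_div_iff₀ (by positivity)]
        have e1 : (m : ℝ) = 2 ^ j * 2 ^ (K - j) := by
          rw [hm, ← pow_add]
          push_cast
          congr 1
          omega
        have e2 : (i : ℝ) + 1 ≤ 2 ^ (j + 1) := by exact_mod_cast hi
        have hp : (0 : ℝ) < 2 ^ (K - j) := by positivity
        have hpj : (0 : ℝ) < 2 ^ j := by positivity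
        calc (2 : ℝ) ^ (K - j) * ((i : ℝ) + 1) ≤ 2 ^ (K - j) * 2 ^ (j + 1) :=
              mul_le_mul_of_nonneg_left e2 hp.le
          _ = 2 * (2 ^ j * 2 ^ (K - j)) := by ring
          _ ≤ 4 * (2 ^ j * 2 ^ (K - j)) := by nlinarith [mul_pos hpj hp]
          _ = 4 * (m : ℝ) := by rw [e1])
      have h2 := hblock (Finset.univ.filter (fun i : Fin m => 2 ^ j ≤ (i : ℕ) ∧ (i : ℕ) < 2 ^ (j + 1)))
        (V' j) _ (hρV j) (hV'bound j hjK) (fun i hi => by
          have h3 := (Finset.mem_filter.1 hi).2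
          have h4 := hbU i
          have hih : (i : ℕ) < h := by omega
          have hlg : Nat.log 2 (i : ℕ) = j := by
            apply (Nat.log_eq_iff (Or.inr ⟨by norm_num, by
              have : 0 < 2 ^ j := by positivity
              omega⟩)).2
            exact h3
          simp only [hU, hih, if_true, hlg] at h4
          exact h4)
      rw [hkey j (by omega)] at h2
      refine h1.trans ?_
      rw [div_le_iff₀ (by positivity)]
      exact h2
    · have hj' : j = K - 1 := by omega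
      subst hj'
      have hKK : 2 ^ (K - 1 + 1) = m := by
        rw [hm]; congr 1; omega
      rw [hKK]
      have h1 := hxsum (2 ^ (K - 1)) m le_rfl (2 * c ^ 2 * a ^ 2) (by positivity) (by
        intro i hi _
        have hih : ¬ (i < h) := by rw [hh]; omega
        simp only [hτ, hih, if_false]
        exact le_rfl)
      have h2 := hblock (Finset.univ.filter (fun i : Fin m => 2 ^ (K - 1) ≤ (i : ℕ) ∧ (i : ℕ) < m))
        W (c * a) (by positivity) hcon (fun i hi => by
          have h3 := (Finset.mem_filter.1 hi).2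
          have h4 := hbU i
          have hih : ¬ ((i : ℕ) < h) := by rw [hh]; omega
          simp only [hU, hih, if_false] at h4
          exact h4)
      refine h1.trans ?_
      rw [div_le_iff₀ (by positivity)]
      refine h2.trans (le_of_eq ?_)
      have : (m : ℝ) = 2 ^ (K - 1) + 2 ^ (K - 1) := by
        rw [hmh, hh]; push_cast; ring
      rw [this]
      ring
  have hxtot : ∑ i ∈ Finset.range m, x i ≤ m := by
    have := block_sum x K hx0 hxb K le_rfl
    rw [← hm] at this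
    refine this.trans (le_of_eq ?_)
    rw [hm]; push_cast; rfl
  -- products
  have hprodx : ∏ i : Fin m, (D i / τ i) ≤ 1 := by
    have h1 : ∑ i : Fin m, D i / τ i ≤ m := by
      refine le_trans (le_of_eq ?_) hxtot
      rw [Finset.sum_range]
      apply Finset.sum_congr rfl
      intro i _
      simp [hx]
    calc ∏ i : Fin m, (D i / τ i) ≤ ∏ i : Fin m, Real.exp (D i / τ i - 1) := by
          apply Finset.prod_le_prod
          · intro i _; exact div_nonneg (hD0 i) (hτpos _).le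
          · intro i _
            have := Real.add_one_le_exp (D i / τ i - 1)
            linarith
      _ = Real.exp (∑ i : Fin m, (D i / τ i - 1)) := (Real.exp_sum _ _).symm
      _ ≤ 1 := by
          rw [Real.exp_le_one_iff, Finset.sum_sub_distrib]
          simp only [Finset.sum_const, Finset.card_univ, Fintype.card_fin, nsmul_eq_mul, mul_one]
          linarith
  have hprodD : ∏ i : Fin m, D i ≤ ∏ i : Fin m, τ i := by
    rw [Finset.prod_div_distrib, div_le_one (Finset.prod_pos (fun i _ => hτpos _))] at hprodx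
    exact hprodx
  have hprodτ : ∏ i : Fin m, τ i ≤ (C₂ ^ 2 * a ^ 2) ^ h * ((32 : ℝ) ^ γ) ^ h * (2 * c ^ 2 * a ^ 2) ^ h := by
    have e0 : ∏ i : Fin m, τ i = ∏ i ∈ Finset.range m, τ i := (Finset.prod_range τ).symm
    rw [e0, hmh, Finset.prod_range_add]
    have e1 : ∏ i ∈ Finset.range h, τ (h + i) = (2 * c ^ 2 * a ^ 2) ^ h := by
      rw [Finset.prod_congr rfl (g := fun _ => 2 * c ^ 2 * a ^ 2)]
      · simp
      · intro i _
        have : ¬ (h + i < h) := by omega
        simp only [hτ, this, if_false]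
    have e2 : ∏ i ∈ Finset.range h, τ i = (C₂ ^ 2 * a ^ 2) ^ h *
        (∏ i ∈ Finset.range h, (8 * (h : ℝ) / ((i : ℝ) + 1))) ^ γ := by
      have e5 : ∏ i ∈ Finset.range h, τ i = ∏ i ∈ Finset.range h,
          ((C₂ ^ 2 * a ^ 2) * (8 * (h : ℝ) / ((i : ℝ) + 1)) ^ γ) := by
        apply Finset.prod_congr rfl
        intro i hi
        have hi' : i < h := Finset.mem_range.1 hi
        simp only [hτ, hi', if_true]
        congr 2
        have : (m : ℝ) = h + h := by rw [hmh]; push_cast; ring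
        rw [this]
        ring
      rw [e5, Finset.prod_mul_distrib, Finset.prod_const, Finset.card_range,
        Real.finsetProd_rpow _ _ (fun i _ => by positivity)]
    rw [e1, e2]
    apply mul_le_mul_of_nonneg_right _ (by positivity)
    apply mul_le_mul_of_nonneg_left _ (by positivity)
    have h1 : (∏ i ∈ Finset.range h, (8 * (h : ℝ) / ((i : ℝ) + 1))) ^ γ ≤ ((32 : ℝ) ^ h) ^ γ :=
      Real.rpow_le_rpow (Finset.prod_nonneg (fun i _ => by positivity)) (prod_half h)
        (by rw [hγ]; linarith)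
    refine h1.trans (le_of_eq ?_)
    rw [← Real.rpow_natCast, ← Real.rpow_natCast, ← Real.rpow_mul (by norm_num),
      ← Real.rpow_mul (by norm_num), mul_comm]
  have hfin := (hdet.trans hprodD).trans hprodτ
  have hcval : C₂ ^ 2 * (32 : ℝ) ^ γ * (2 * c ^ 2) = 1 / 2 := by
    rw [← hQ2, hc]
    field_simp
    all_goals norm_num
  have e3 : (C₂ ^ 2 * a ^ 2) ^ h * ((32 : ℝ) ^ γ) ^ h * (2 * c ^ 2 * a ^ 2) ^ h =
      (a ^ m) ^ 2 * (1 / 2) ^ h := by
    have e6 : (a ^ m) ^ 2 = (a ^ 4) ^ h := by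
      rw [← pow_mul, ← pow_mul, hmh]
      congr 1
      omega
    rw [e6, ← mul_pow, ← mul_pow, ← mul_pow]
    congr 1
    rw [← hcval]
    ring
  rw [e3] at hfin
  have hapos : 0 < (a ^ m) ^ 2 := by positivity
  have hlt : (1 / 2 : ℝ) ^ h < 1 := pow_lt_one₀ (by norm_num) (by norm_num) (by omega)
  nlinarith

end Pool.Agent.H780R2.CX.TB3
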