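import Pool.Agent.H780R2.CX.Defs

/-! Task B4 (pivots), helper818. -/

namespace Pool.Agent.H780R2.CX.TB4

open Module

variable {m : ℕ}

/-- rows as vectors -/
noncomputable def row (M : Matrix (Fin m) (Fin m) ℝ) (l : Fin m) : EuclideanSpace ℝ (Fin m) :=
  WithLp.toLp 2 (M l)

lemma inner_row (M : Matrix (Fin m) (Fin m) ℝ) (l : Fin m) (w : EuclideanSpace ℝ (Fin m)) :
    inner ℝ (row M l) w = ∑ j, M l j * w j := by
  simp [row, PiLp.inner_apply, mul_comm]

lemma inner_coord (x y : EuclideanSpace ℝ (Fin m)) : inner ℝ x y = ∑ j, x j * y j := by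
  simp [PiLp.inner_apply, mul_comm]

theorem step (q : ℕ) (M : Matrix (Fin m) (Fin m) ℝ)
    (V : Submodule ℝ (EuclideanSpace ℝ (Fin m))) (θ v : ℝ) (hθ : 0 < θ) (hv : 0 < v)
    (hW : ∀ W : Submodule ℝ (EuclideanSpace ℝ (Fin m)), q ≤ Module.finrank ℝ W →
      ∃ l, ∃ w ∈ W, θ * ‖w‖ < |∑ i, M l i * w i|) :
    ∀ i : ℕ, q + i ≤ Module.finrank ℝ V →
    ∃ (l : Fin i → Fin m) (w : Fin i → EuclideanSpace ℝ (Fin m)),
      (∀ a, w a ∈ V) ∧ (∀ a, inner ℝ (row M (l a)) (w a) = v) ∧
      (∀ a b, a < b → inner ℝ (row M (l a)) (w b) = 0) ∧ (∀ a, ‖w a‖ ≤ v / θ) ∧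
      (∀ a b, a ≠ b → inner ℝ (w a) (w b) = 0) ∧
      (∀ x ∈ V, (∀ a, inner ℝ (w a) x = 0) → ∀ a, inner ℝ (row M (l a)) x = 0) := by
  intro i
  induction i with
  | zero =>
    intro _
    refine ⟨Fin.elim0, Fin.elim0, ?_, ?_, ?_, ?_, ?_, ?_⟩
    · exact fun a => a.elim0
    · exact fun a => a.elim0
    · exact fun a => a.elim0
    · exact fun a => a.elim0
    · exact fun a => a.elim0
    · exact fun _ _ _ a => a.elim0
  | succ i ih =>
    intro hi
    obtain ⟨l, w, h1, h2, h3, h4, h5, h6⟩ := ih (by omega)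
    set U := Submodule.span ℝ (Set.range w) with hU
    set W := V ⊓ Uᗮ with hWdef
    have hfU : finrank ℝ U ≤ i := by
      have := finrank_range_le_card (R := ℝ) w
      rw [Fintype.card_fin] at this
      exact this
    have hfE : finrank ℝ (EuclideanSpace ℝ (Fin m)) = m := by simp
    have hfo := Submodule.finrank_add_finrank_orthogonal U
    have hfs := Submodule.finrank_sup_add_finrank_inf_eq V Uᗮ
    have hfle : finrank ℝ (V ⊔ Uᗮ : Submodule ℝ (EuclideanSpace ℝ (Fin m))) ≤ m := by
      have := Submodule.finrank_le (V ⊔ Uᗮ)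
      rwa [hfE] at this
    rw [hfE] at hfo
    have hfW : q ≤ finrank ℝ W := by
      rw [hWdef]
      omega
    obtain ⟨l₀, w₀, hw₀, hlt⟩ := hW W hfW
    rw [← inner_row] at hlt
    set p := W.starProjection (row M l₀) with hp
    have hpW : p ∈ W := Submodule.starProjection_apply_mem W _
    have hin : ∀ x ∈ W, inner ℝ (row M l₀) x = inner ℝ p x := by
      intro x hx
      rw [hp, Submodule.inner_starProjection_left_eq_right,
        Submodule.starProjection_eq_self_iff.2 hx]
    have hpθ : θ < ‖p‖ := by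
      rw [hin w₀ hw₀] at hlt
      have h7 := abs_real_inner_le_norm p w₀
      have h8 : θ * ‖w₀‖ < ‖p‖ * ‖w₀‖ := lt_of_lt_of_le hlt h7
      exact lt_of_mul_lt_mul_right h8 (norm_nonneg _)
    have hp0 : 0 < ‖p‖ := hθ.trans hpθ
    set w' := (v / ‖p‖ ^ 2) • p with hw'
    have hw'W : w' ∈ W := W.smul_mem _ hpW
    have hw'V : w' ∈ V := (Submodule.mem_inf.1 hw'W).1
    have hw'U : w' ∈ Uᗮ := (Submodule.mem_inf.1 hw'W).2
    have horth : ∀ a, inner ℝ (w a) w' = 0 := by
      intro a
      exact (Submodule.mem_orthogonal U w').1 hw'U (w a)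
        (Submodule.subset_span (Set.mem_range_self a))
    refine ⟨Fin.snoc l l₀, Fin.snoc w w', ?_, ?_, ?_, ?_, ?_, ?_⟩
    · intro a
      refine Fin.lastCases ?_ (fun a => ?_) a
      · rw [Fin.snoc_last]; exact hw'V
      · rw [Fin.snoc_castSucc]; exact h1 a
    · intro a
      refine Fin.lastCases ?_ (fun a => ?_) a
      · rw [Fin.snoc_last, Fin.snoc_last, hin w' hw'W, hw', inner_smul_right,
          real_inner_self_eq_norm_sq]
        field_simp
      · rw [Fin.snoc_castSucc, Fin.snoc_castSucc]; exact h2 a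
    · intro a b hab
      revert hab
      refine Fin.lastCases ?_ (fun b => ?_) b
      · refine Fin.lastCases ?_ (fun a => ?_) a
        · intro hab
          exact absurd hab (lt_irrefl _)
        · intro _
          rw [Fin.snoc_castSucc, Fin.snoc_last]
          exact h6 w' hw'V horth a
      · refine Fin.lastCases ?_ (fun a => ?_) a
        · intro hab
          exact absurd hab (not_lt.2 (Fin.le_last _))
        · intro hab
          rw [Fin.snoc_castSucc, Fin.snoc_castSucc]
          exact h3 a b (Fin.castSucc_lt_castSucc_iff.1 hab)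
    · intro a
      refine Fin.lastCases ?_ (fun a => ?_) a
      · rw [Fin.snoc_last, hw', norm_smul, Real.norm_of_nonneg (by positivity)]
        have : v / ‖p‖ ^ 2 * ‖p‖ = v / ‖p‖ := by field_simp
        rw [this]
        gcongr
      · rw [Fin.snoc_castSucc]; exact h4 a
    · intro a b hab
      revert hab
      refine Fin.lastCases ?_ (fun b => ?_) b
      · refine Fin.lastCases ?_ (fun a => ?_) a
        · intro hab
          exact absurd rfl hab
        · intro _
          rw [Fin.snoc_castSucc, Fin.snoc_last]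
          exact horth a
      · refine Fin.lastCases ?_ (fun a => ?_) a
        · intro _
          rw [Fin.snoc_castSucc, Fin.snoc_last, real_inner_comm]
          exact horth b
        · intro hab
          rw [Fin.snoc_castSucc, Fin.snoc_castSucc]
          exact h5 a b (fun h => hab (by rw [h]))
    · intro x hx hxo a
      have hxw : ∀ a, inner ℝ (w a) x = 0 := by
        intro a
        have := hxo (Fin.castSucc a)
        rwa [Fin.snoc_castSucc] at this
      refine Fin.lastCases ?_ (fun a => ?_) a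
      · rw [Fin.snoc_last]
        have hxU : x ∈ Uᗮ := by
          rw [Submodule.mem_orthogonal]
          intro u hu
          induction hu using Submodule.span_induction with
          | mem y hy =>
            obtain ⟨a, rfl⟩ := hy
            exact hxw a
          | zero => exact inner_zero_left _
          | add y z _ _ hy hz => rw [inner_add_left, hy, hz, add_zero]
          | smul c y _ hy => rw [inner_smul_left, hy, mul_zero]
        have hxW : x ∈ W := Submodule.mem_inf.2 ⟨hx, hxU⟩
        rw [hin x hxW]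
        have hlast := hxo (Fin.last i)
        rw [Fin.snoc_last, hw', inner_smul_left] at hlast
        rcases mul_eq_zero.1 hlast with h | h
        · exfalso
          have : v / ‖p‖ ^ 2 = 0 := by simpa using h
          have h9 : 0 < v / ‖p‖ ^ 2 := by positivity
          linarith
        · exact h
      · rw [Fin.snoc_castSucc]
        exact h6 x hx hxw a

/-- B4: pivots. -/
theorem pivots (m r q : ℕ) (M : Matrix (Fin m) (Fin m) ℝ)
    (V : Submodule ℝ (EuclideanSpace ℝ (Fin m))) (θ v : ℝ) (hθ : 0 < θ) (hv : 0 < v)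
    (hr : q + r ≤ Module.finrank ℝ V)
    (hW : ∀ W : Submodule ℝ (EuclideanSpace ℝ (Fin m)), q ≤ Module.finrank ℝ W →
      ∃ l, ∃ w ∈ W, θ * ‖w‖ < |∑ i, M l i * w i|) :
    ∃ (l : Fin r → Fin m) (w : Fin r → EuclideanSpace ℝ (Fin m)),
      (∀ i, w i ∈ V) ∧ (∀ i, ∑ j, M (l i) j * w i j = v) ∧
      (∀ i' i, i' < i → ∑ j, M (l i') j * w i j = 0) ∧ (∀ i, ‖w i‖ ≤ v / θ) ∧
      (∀ i i', i ≠ i' → ∑ j, w i j * w i' j = 0) := by
  obtain ⟨l, w, h1, h2, h3, h4, h5, -⟩ := step q M V θ v hθ hv hW r hr
  refine ⟨l, w, h1, fun i => ?_, fun i' i h => ?_, h4, fun i i' h => ?_⟩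
  · rw [← inner_row]; exact h2 i
  · rw [← inner_row]; exact h3 i' i h
  · rw [← inner_coord]; exact h5 i i' h

end Pool.Agent.H780R2.CX.TB4
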