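import Pool.Agent.H780R2.CX.Defs

/-! Task C1 (helper910): counting colourings, second moment. -/

namespace Pool.Agent.H780R2.CX.TC1

open Finset

/-- number of colourings which are `0` on `A` -/
theorem card_zero_on (m R : ℕ) (A : Finset (Fin m)) :
    ((univ.filter (fun c : Fin m → Fin (R + 1) => ∀ j ∈ A, c j = 0)).card : ℝ) =
      ((R : ℝ) + 1) ^ m / ((R : ℝ) + 1) ^ A.card := by
  classical
  have h1 : univ.filter (fun c : Fin m → Fin (R + 1) => ∀ j ∈ A, c j = 0) =
      Fintype.piFinset (fun j => if j ∈ A then ({0} : Finset (Fin (R + 1))) else univ) := by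
    ext c
    simp only [mem_filter, mem_univ, true_and, Fintype.mem_piFinset]
    constructor
    · intro h j
      by_cases hj : j ∈ A
      · rw [if_pos hj, h j hj]
        exact mem_singleton_self _
      · rw [if_neg hj]
        exact mem_univ _
    · intro h j hj
      have := h j
      rw [if_pos hj] at this
      exact mem_singleton.mp this
  have h2 : (univ.filter (fun c : Fin m → Fin (R + 1) => ∀ j ∈ A, c j = 0)).card * (R + 1) ^ A.card =
      (R + 1) ^ m := by
    rw [h1, Fintype.card_piFinset]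
    have h3 : ∏ j : Fin m, (if j ∈ A then ({0} : Finset (Fin (R + 1))) else univ).card =
        ∏ j : Fin m, (if j ∈ A then 1 else (R + 1)) := by
      refine Finset.prod_congr rfl fun j _ => ?_
      split_ifs <;> simp
    have h4 : (R + 1) ^ A.card = ∏ j : Fin m, (if j ∈ A then (R + 1) else 1) := by
      rw [Finset.prod_ite_mem, Finset.univ_inter, Finset.prod_const]
    rw [h3, h4, ← Finset.prod_mul_distrib]
    have h5 : ∀ j : Fin m, (if j ∈ A then 1 else (R + 1)) * (if j ∈ A then (R + 1) else 1) = R + 1 := by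
      intro j
      split_ifs <;> simp
    simp_rw [h5]
    simp
  have hQ : (0:ℝ) < ((R : ℝ) + 1) ^ A.card := by positivity
  rw [eq_div_iff hQ.ne']
  exact_mod_cast h2

theorem colour (R m0 L : ℕ) : ∃ r0 : ℕ, ∀ m r : ℕ, r0 ≤ r → ∀ J : Fin r → Finset (Fin m),
    (∀ i, (J i).card ≤ m0) → (∀ j, (Finset.univ.filter (fun i => j ∈ J i)).card ≤ m0) →
    (R + 1) ^ m ≤ 2 * (Finset.univ.filter (fun c : Fin m → Fin (R + 1) =>
      (R + 1) * (Finset.univ.filter (fun j => c j = 0)).card ≤ 4 * m ∧
      L ≤ (Finset.univ.filter (fun i => ∀ j ∈ J i, c j = 0)).card)).card := by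
  classical
  refine ⟨2 * L * (R + 1) ^ m0 + 16 * m0 ^ 2 * (R + 1) ^ (2 * m0) + 1, ?_⟩
  intro m r hr J hJ1 hJ2
  set Q : ℝ := (R : ℝ) + 1 with hQ
  have hQ1 : 1 ≤ Q := by
    have : (0:ℝ) ≤ R := Nat.cast_nonneg R
    linarith
  have hQ0 : 0 < Q := by linarith
  set T : ℝ := Q ^ m with hT
  have hT0 : 0 < T := by positivity
  have hrr : (2 : ℝ) * L * Q ^ m0 + 16 * (m0 : ℝ) ^ 2 * Q ^ (2 * m0) + 1 ≤ r := by
    have : ((2 * L * (R + 1) ^ m0 + 16 * m0 ^ 2 * (R + 1) ^ (2 * m0) + 1 : ℕ) : ℝ) ≤ r := by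
      exact_mod_cast hr
    push_cast at this
    exact this
  have hr0 : (0:ℝ) < r := by
    have : (0:ℝ) ≤ 2 * L * Q ^ m0 + 16 * (m0 : ℝ) ^ 2 * Q ^ (2 * m0) := by positivity
    linarith
  -- the indicator of `c = 0` on `A`
  set z : Finset (Fin m) → (Fin m → Fin (R + 1)) → ℝ := fun A c => if ∀ j ∈ A, c j = 0 then 1 else 0
    with hz
  have hsum : ∀ A : Finset (Fin m), ∑ c, z A c = T / Q ^ A.card := by
    intro A
    simp only [hz]
    rw [Finset.sum_boole]
    exact card_zero_on m R A
  have hTcard : (Fintype.card (Fin m → Fin (R + 1)) : ℝ) = T := by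
    rw [Fintype.card_fun, Fintype.card_fin, Fintype.card_fin]
    push_cast
    rfl
  -- first bad set
  set B1 := univ.filter (fun c : Fin m → Fin (R + 1) =>
    ¬ (R + 1) * (univ.filter (fun j => c j = 0)).card ≤ 4 * m) with hB1
  have hb1 : 4 * (B1.card : ℝ) ≤ T := by
    rcases Nat.eq_zero_or_pos m with hm | hm
    · have : B1 = ∅ := by
        rw [hB1, Finset.filter_eq_empty_iff]
        intro c _
        rw [not_not]
        subst hm
        simp
      rw [this]
      simp [hT0.le]
    · have hmr : (0:ℝ) < m := by exact_mod_cast hm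
      have h1 : ∑ c : Fin m → Fin (R + 1), ((univ.filter (fun j => c j = 0)).card : ℝ) =
          m * (T / Q) := by
        have h2 : ∀ c : Fin m → Fin (R + 1), ((univ.filter (fun j => c j = 0)).card : ℝ) =
            ∑ j : Fin m, z {j} c := by
          intro c
          simp only [hz, mem_singleton, forall_eq]
          rw [Finset.sum_boole]
        simp_rw [h2]
        rw [Finset.sum_comm]
        simp_rw [hsum]
        simp
      have h3 : (B1.card : ℝ) * (4 * m / Q) ≤ m * (T / Q) := by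
        rw [← h1]
        calc (B1.card : ℝ) * (4 * m / Q) = ∑ c ∈ B1, (4 * m / Q) := by
              rw [Finset.sum_const, nsmul_eq_mul]
          _ ≤ ∑ c ∈ B1, ((univ.filter (fun j => c j = 0)).card : ℝ) := by
              refine Finset.sum_le_sum fun c hc => ?_
              have h4 := (mem_filter.mp hc).2
              rw [not_le] at h4
              have h5 : (4:ℝ) * m < Q * ((univ.filter (fun j => c j = 0)).card : ℝ) := by
                rw [hQ]
                exact_mod_cast h4
              rw [div_le_iff₀ hQ0]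
              linarith
          _ ≤ _ := Finset.sum_le_sum_of_subset_of_nonneg (Finset.subset_univ _)
              fun c _ _ => Nat.cast_nonneg _
      have h6 : (B1.card : ℝ) * (4 * m / Q) = (m / Q) * (4 * B1.card) := by ring
      have h7 : (m : ℝ) * (T / Q) = (m / Q) * T := by ring
      rw [h6, h7] at h3
      exact le_of_mul_le_mul_left h3 (by positivity)
  -- second bad set
  set Xc : (Fin m → Fin (R + 1)) → ℝ := fun c => ∑ i, z (J i) c with hX
  have hXcard : ∀ c, ((univ.filter (fun i => ∀ j ∈ J i, c j = 0)).card : ℝ) = Xc c := by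
    intro c
    simp only [hX, hz]
    rw [Finset.sum_boole]
  set p : Fin r → ℝ := fun i => 1 / Q ^ (J i).card with hp
  set Λ : ℝ := ∑ i, p i with hΛ
  have hΛlow : r / Q ^ m0 ≤ Λ := by
    have h1 : ∀ i, 1 / Q ^ m0 ≤ p i := by
      intro i
      simp only [hp]
      exact one_div_le_one_div_of_le (by positivity) (pow_le_pow_right₀ hQ1 (hJ1 i))
    calc (r : ℝ) / Q ^ m0 = ∑ i : Fin r, 1 / Q ^ m0 := by
          rw [Finset.sum_const, Finset.card_univ, Fintype.card_fin, nsmul_eq_mul]
          ring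
      _ ≤ Λ := Finset.sum_le_sum fun i _ => h1 i
  have hzz : ∀ A B c, z A c * z B c = z (A ∪ B) c := by
    intro A B c
    simp only [hz]
    by_cases hA : ∀ j ∈ A, c j = 0
    · by_cases hB : ∀ j ∈ B, c j = 0
      · rw [if_pos hA, if_pos hB, if_pos, one_mul]
        intro j hj
        rcases mem_union.mp hj with h | h
        · exact hA j h
        · exact hB j h
      · have hAB : ¬ ∀ j ∈ A ∪ B, c j = 0 := fun h => hB fun j hj => h j (mem_union_right _ hj)
        rw [if_neg hB, if_neg hAB, mul_zero]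
    · have hAB : ¬ ∀ j ∈ A ∪ B, c j = 0 := fun h => hA fun j hj => h j (mem_union_left _ hj)
      rw [if_neg hA, if_neg hAB, zero_mul]
  have hEX : ∑ c, Xc c = T * Λ := by
    simp only [hX]
    rw [Finset.sum_comm]
    simp_rw [hsum]
    rw [hΛ, Finset.mul_sum]
    refine Finset.sum_congr rfl fun i _ => ?_
    simp only [hp]
    ring
  have hEX2 : ∑ c, Xc c ^ 2 = ∑ i, ∑ k, T / Q ^ (J i ∪ J k).card := by
    have h1 : ∀ c, Xc c ^ 2 = ∑ i, ∑ k, z (J i ∪ J k) c := by
      intro c
      simp only [hX]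
      rw [sq, Finset.sum_mul_sum]
      simp_rw [hzz]
    simp_rw [h1]
    rw [Finset.sum_comm]
    refine Finset.sum_congr rfl fun i _ => ?_
    rw [Finset.sum_comm]
    simp_rw [hsum]
  have hvar : ∑ c, (Xc c - Λ) ^ 2 ≤ T * (r * (m0 : ℝ) ^ 2) := by
    have h1 : ∑ c, (Xc c - Λ) ^ 2 = ∑ c, Xc c ^ 2 - 2 * Λ * ∑ c, Xc c + T * Λ ^ 2 := by
      have h2 : ∀ c, (Xc c - Λ) ^ 2 = Xc c ^ 2 - 2 * Λ * Xc c + Λ ^ 2 := fun c => by ring
      simp_rw [h2]
      rw [Finset.sum_add_distrib, Finset.sum_sub_distrib, ← Finset.mul_sum, Finset.sum_const,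
        Finset.card_univ, nsmul_eq_mul, hTcard]
    have h3 : T * Λ ^ 2 = ∑ i, ∑ k, T * (p i * p k) := by
      rw [hΛ, sq, Finset.sum_mul_sum, Finset.mul_sum]
      refine Finset.sum_congr rfl fun i _ => ?_
      rw [Finset.mul_sum]
    have h4 : ∑ c, (Xc c - Λ) ^ 2 = ∑ i, ∑ k, (T / Q ^ (J i ∪ J k).card - T * (p i * p k)) := by
      rw [h1, hEX, hEX2]
      simp_rw [Finset.sum_sub_distrib]
      rw [← h3]
      ring
    rw [h4]
    -- bound every term by `T` times the number of common elements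
    have h5 : ∀ i k, T / Q ^ (J i ∪ J k).card - T * (p i * p k) ≤
        T * ∑ j ∈ J i, (if j ∈ J k then 1 else 0) := by
      intro i k
      have hpp : 0 ≤ T * (p i * p k) := by
        simp only [hp]
        positivity
      by_cases hd : Disjoint (J i) (J k)
      · have h6 : T / Q ^ (J i ∪ J k).card - T * (p i * p k) = 0 := by
          rw [Finset.card_union_of_disjoint hd]
          simp only [hp]
          rw [pow_add]
          field_simp
          ring
        rw [h6]
        exact mul_nonneg hT0.le (Finset.sum_nonneg fun j _ => by split_ifs <;> norm_num)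
      · rw [Finset.not_disjoint_iff] at hd
        obtain ⟨j0, hj0, hj0'⟩ := hd
        have h7 : (1:ℝ) ≤ ∑ j ∈ J i, (if j ∈ J k then 1 else 0) := by
          have := Finset.single_le_sum (f := fun j => (if j ∈ J k then (1:ℝ) else 0))
            (fun j _ => by split_ifs <;> norm_num) hj0
          simpa [hj0'] using this
        have h8 : T / Q ^ (J i ∪ J k).card ≤ T :=
          div_le_self hT0.le (one_le_pow₀ hQ1)
        nlinarith
    calc ∑ i, ∑ k, (T / Q ^ (J i ∪ J k).card - T * (p i * p k))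
        ≤ ∑ i, ∑ k, T * ∑ j ∈ J i, (if j ∈ J k then 1 else 0) :=
          Finset.sum_le_sum fun i _ => Finset.sum_le_sum fun k _ => h5 i k
      _ = T * ∑ i, ∑ j ∈ J i, ∑ k, (if j ∈ J k then (1:ℝ) else 0) := by
          rw [Finset.mul_sum]
          refine Finset.sum_congr rfl fun i _ => ?_
          rw [← Finset.mul_sum]
          congr 1
          rw [Finset.sum_comm]
      _ ≤ T * ∑ i : Fin r, ∑ j ∈ J i, (m0 : ℝ) := by
          refine mul_le_mul_of_nonneg_left ?_ hT0.le
          refine Finset.sum_le_sum fun i _ => Finset.sum_le_sum fun j _ => ?_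
          rw [Finset.sum_boole]
          exact_mod_cast hJ2 j
      _ ≤ T * ∑ i : Fin r, (m0 : ℝ) * m0 := by
          refine mul_le_mul_of_nonneg_left ?_ hT0.le
          refine Finset.sum_le_sum fun i _ => ?_
          rw [Finset.sum_const, nsmul_eq_mul]
          have : ((J i).card : ℝ) ≤ m0 := by exact_mod_cast hJ1 i
          gcongr
      _ = _ := by
          rw [Finset.sum_const, Finset.card_univ, Fintype.card_fin, nsmul_eq_mul]
          ring
  set B2 := univ.filter (fun c : Fin m → Fin (R + 1) =>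
    ¬ L ≤ (univ.filter (fun i => ∀ j ∈ J i, c j = 0)).card) with hB2
  have hb2 : 4 * (B2.card : ℝ) ≤ T := by
    have hQm : 0 < Q ^ m0 := by positivity
    have hΛ2L : 2 * (L : ℝ) ≤ Λ := by
      refine le_trans ?_ hΛlow
      rw [le_div_iff₀ hQm]
      have : (0:ℝ) ≤ 16 * (m0 : ℝ) ^ 2 * Q ^ (2 * m0) := by positivity
      linarith
    have hΛpos : 0 < Λ := lt_of_lt_of_le (by positivity) hΛlow
    have h1 : (B2.card : ℝ) * (Λ / 2) ^ 2 ≤ T * (r * (m0 : ℝ) ^ 2) := by
      refine le_trans ?_ hvar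
      calc (B2.card : ℝ) * (Λ / 2) ^ 2 = ∑ c ∈ B2, (Λ / 2) ^ 2 := by
            rw [Finset.sum_const, nsmul_eq_mul]
        _ ≤ ∑ c ∈ B2, (Xc c - Λ) ^ 2 := by
            refine Finset.sum_le_sum fun c hc => ?_
            have h4 := (mem_filter.mp hc).2
            rw [not_le] at h4
            have h5 : Xc c < L := by
              rw [← hXcard c]
              exact_mod_cast h4
            have h6 : Λ / 2 ≤ Λ - Xc c := by linarith
            have h7 : (Xc c - Λ) ^ 2 = (Λ - Xc c) ^ 2 := by ring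
            rw [h7]
            exact pow_le_pow_left₀ (by positivity) h6 2
        _ ≤ _ := Finset.sum_le_sum_of_subset_of_nonneg (Finset.subset_univ _)
            fun c _ _ => sq_nonneg _
    have h2 : 16 * ((r:ℝ) * (m0 : ℝ) ^ 2) ≤ Λ ^ 2 := by
      have h3 : (r / Q ^ m0) ^ 2 ≤ Λ ^ 2 := pow_le_pow_left₀ (by positivity) hΛlow 2
      refine le_trans ?_ h3
      rw [div_pow, le_div_iff₀ (by positivity), ← pow_mul, mul_comm m0 2]
      have h4 : 16 * (m0 : ℝ) ^ 2 * Q ^ (2 * m0) ≤ r := by
        have : (0:ℝ) ≤ 2 * L * Q ^ m0 := by positivity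
        linarith
      calc 16 * ((r:ℝ) * (m0 : ℝ) ^ 2) * Q ^ (2 * m0) =
            (r : ℝ) * (16 * (m0 : ℝ) ^ 2 * Q ^ (2 * m0)) := by ring
        _ ≤ (r : ℝ) * (r : ℝ) := mul_le_mul_of_nonneg_left h4 hr0.le
        _ = (r : ℝ) ^ 2 := by ring
    have h3 : (B2.card : ℝ) * Λ ^ 2 ≤ T * Λ ^ 2 / 4 := by
      have e1 : (B2.card : ℝ) * (Λ / 2) ^ 2 = (B2.card : ℝ) * Λ ^ 2 / 4 := by ring
      rw [e1] at h1
      have h5 := mul_le_mul_of_nonneg_left h2 hT0.le
      linarith
    have h4 : 0 < Λ ^ 2 := by positivity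
    have h5 : (4 * (B2.card : ℝ)) * Λ ^ 2 ≤ T * Λ ^ 2 := by linarith
    exact le_of_mul_le_mul_right h5 h4
  -- conclusion
  set G := univ.filter (fun c : Fin m → Fin (R + 1) =>
      (R + 1) * (univ.filter (fun j => c j = 0)).card ≤ 4 * m ∧
      L ≤ (univ.filter (fun i => ∀ j ∈ J i, c j = 0)).card) with hG
  have hcover : (univ : Finset (Fin m → Fin (R + 1))) ⊆ G ∪ (B1 ∪ B2) := by
    intro c _
    by_cases h1 : (R + 1) * (univ.filter (fun j => c j = 0)).card ≤ 4 * m
    · by_cases h2 : L ≤ (univ.filter (fun i => ∀ j ∈ J i, c j = 0)).card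
      · exact mem_union_left _ (mem_filter.mpr ⟨mem_univ _, h1, h2⟩)
      · exact mem_union_right _ (mem_union_right _ (mem_filter.mpr ⟨mem_univ _, h2⟩))
    · exact mem_union_right _ (mem_union_left _ (mem_filter.mpr ⟨mem_univ _, h1⟩))
  have hcount := card_le_card hcover
  have hcount2 := hcount.trans ((card_union_le _ _).trans (Nat.add_le_add_left (card_union_le _ _) _))
  rw [Finset.card_univ] at hcount2
  have hfin : T ≤ G.card + (B1.card + B2.card) := by
    rw [← hTcard]
    exact_mod_cast hcount2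
  have hgoal : T ≤ 2 * (G.card : ℝ) := by linarith
  have : (((R + 1) ^ m : ℕ) : ℝ) ≤ ((2 * G.card : ℕ) : ℝ) := by
    push_cast
    exact hgoal
  exact_mod_cast this

end Pool.Agent.H780R2.CX.TC1
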