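import Pool.Agent.H780R2.CX.Defs

/-! Task C2 (helper910). -/

open scoped ENNReal
open MeasureTheory Set

namespace Pool.Agent.H780R2.CX.TC2

/-- C2: records. -/
theorem records (d : ℕ → ℝ) (hd : ∀ j, 0 < d j) (β : ℝ)
    (hunb : ¬ ∃ A : ℝ, ∀ j, d j * (2 : ℝ) ^ (β * j) ≤ A) (K₀ : ℕ) :
    ∃ K, K₀ ≤ K ∧ ∀ j, j ≤ K → d j ≤ (2 : ℝ) ^ (((K : ℝ) - j) * β) * d K := by
  classical
  set x : ℕ → ℝ := fun j => d j * (2 : ℝ) ^ (β * j) with hx
  have hx0 : ∀ j, 0 < x j := fun j => mul_pos (hd j) (Real.rpow_pos_of_pos (by norm_num) _)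
  set A0 : ℝ := ∑ j ∈ Finset.range (K₀ + 1), x j with hA0
  have hle : ∀ j, j ≤ K₀ → x j ≤ A0 := by
    intro j hj
    exact Finset.single_le_sum (f := x) (fun i _ => (hx0 i).le)
      (Finset.mem_range.mpr (by omega))
  have hex : ∃ j, A0 < x j := by
    by_contra h
    push Not at h
    exact hunb ⟨A0, h⟩
  refine ⟨Nat.find hex, ?_, ?_⟩
  · by_contra h
    push Not at h
    exact absurd (Nat.find_spec hex) (not_lt.mpr (hle _ h.le))
  · intro j hj
    set K := Nat.find hex with hK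
    have h1 : x j ≤ x K := by
      rcases Nat.eq_or_lt_of_le hj with h | h
      · rw [h]
      · have h2 := Nat.find_min hex h
        have h3 : A0 < x K := Nat.find_spec hex
        linarith [not_lt.mp h2]
    simp only [hx] at h1
    have h2 : (0:ℝ) < (2:ℝ) ^ (β * j) := Real.rpow_pos_of_pos (by norm_num) _
    have h3 : (2:ℝ) ^ (((K : ℝ) - j) * β) = (2:ℝ) ^ (β * K) / (2:ℝ) ^ (β * j) := by
      rw [← Real.rpow_sub (by norm_num)]
      congr 1
      ring
    rw [h3, div_mul_eq_mul_div, le_div_iff₀ h2]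
    linarith

end Pool.Agent.H780R2.CX.TC2
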