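import Pool.Agent.H780R2.CX.Defs

/-! Task D1 (helper910): sequential selection of pairs and norming functionals. -/

open scoped ENNReal
open MeasureTheory Set

namespace Pool.Agent.H780R2.CX.TD1

universe u v w

variable {X : Type u} {Y : Type v} [NormedAddCommGroup X] [NormedSpace ℝ X]
    [NormedAddCommGroup Y] [NormedSpace ℝ Y]

/-- two elements with the same information and far apart -/
theorem key (S : X →L[ℝ] Y) (F : Set X) (N : ℕ) (a : ℝ) (haN : ENNReal.ofReal a < detErr S F N)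
    (T : Fin N → X →L[ℝ] ℝ) :
    ∃ f ∈ F, ∃ g ∈ F, (∀ t, T t f = T t g) ∧ a < ‖S (f - g)‖ := by
  classical
  by_contra hcon
  push Not at hcon
  apply absurd haN
  rw [not_lt]
  unfold detErr
  let φ : (Fin N → ℝ) → Y := fun y =>
    if h : ∃ f ∈ F, (fun i => T i f) = y then S (Classical.choose h) else 0
  refine iInf_le_of_le T (iInf_le_of_le φ ?_)
  refine iSup₂_le fun f hf => ?_
  have h : ∃ f' ∈ F, (fun i => T i f') = (fun i => T i f) := ⟨f, hf, rfl⟩
  have hφ : φ (fun i => T i f) = S (Classical.choose h) := by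
    simp only [φ]
    rw [dif_pos h]
  obtain ⟨h1, h2⟩ := Classical.choose_spec h
  rw [hφ]
  have h3 := hcon f hf _ h1 (fun t => (congrFun h2 t).symm)
  rw [map_sub] at h3
  rw [← ofReal_norm]
  exact ENNReal.ofReal_le_ofReal h3

/-- D1: sequential selection of pairs and norming functionals. -/
theorem select {X : Type u} {Y : Type v} [NormedAddCommGroup X] [NormedSpace ℝ X]
    [NormedAddCommGroup Y] [NormedSpace ℝ Y] (S : X →L[ℝ] Y) (F : Set X) (hF : F.Nonempty)
    (N : ℕ) (hN : 1 ≤ N) (E a : ℝ) (ha : 0 < a) (hE : detErr S F 1 < ENNReal.ofReal E)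
    (haN : ENNReal.ofReal a < detErr S F N) :
    ∃ (f g : Fin N → X) (Λ : Fin N → Y →L[ℝ] ℝ), (∀ j, f j ∈ F ∧ g j ∈ F) ∧
      (∀ j, ‖Λ j‖ ≤ 1) ∧ (∀ j, a ≤ Λ j (S (f j - g j))) ∧
      (∀ i j, i < j → Λ i (S (f j - g j)) = 0) ∧ (∀ j, ‖S (f j - g j)‖ ≤ 2 * E) := by
  classical
  unfold detErr at hE
  simp only [iInf_lt_iff] at hE
  obtain ⟨Ls, φs, hLs⟩ := hE
  have hstar : ∀ f ∈ F, ∀ g ∈ F, Ls 0 f = Ls 0 g → ‖S (f - g)‖ ≤ 2 * E := by
    intro f hf g hg hfg
    have e : (fun i => Ls i f) = (fun i => Ls i g) := by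
      funext i
      rw [Subsingleton.elim i 0]
      exact hfg
    have h1 : ∀ f ∈ F, ‖S f - φs (fun i => Ls i f)‖ < E := by
      intro f hf
      have h2 : ‖S f - φs (fun i => Ls i f)‖ₑ < ENNReal.ofReal E :=
        lt_of_le_of_lt (le_iSup₂ (f := fun f (_ : f ∈ F) => ‖S f - φs (fun i => Ls i f)‖ₑ) f hf) hLs
      rw [← ofReal_norm] at h2
      exact (ENNReal.ofReal_lt_ofReal_iff_of_nonneg (norm_nonneg _)).mp h2
    have h3 := h1 f hf
    have h4 := h1 g hg
    rw [← e] at h4
    have h5 : S (f - g) = (S f - φs (fun i => Ls i f)) - (S g - φs (fun i => Ls i f)) := by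
      rw [map_sub]
      abel
    rw [h5]
    refine (norm_sub_le _ _).trans ?_
    linarith
  have hind : ∀ k : ℕ, k ≤ N → ∃ (f g : ℕ → X) (Λ : ℕ → Y →L[ℝ] ℝ), ∀ j < k,
      (f j ∈ F ∧ g j ∈ F) ∧ ‖Λ j‖ ≤ 1 ∧ a ≤ Λ j (S (f j - g j)) ∧
      (∀ i < j, Λ i (S (f j - g j)) = 0) ∧ ‖S (f j - g j)‖ ≤ 2 * E := by
    intro k
    induction k with
    | zero =>
      intro _
      exact ⟨fun _ => 0, fun _ => 0, fun _ => 0, fun j hj => absurd hj (Nat.not_lt_zero j)⟩
    | succ k ih =>
      intro hk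
      obtain ⟨f, g, Λ, hind⟩ := ih (by omega)
      let T : Fin N → X →L[ℝ] ℝ := fun t =>
        if (t : ℕ) = 0 then Ls 0 else (Λ ((t : ℕ) - 1)).comp S
      obtain ⟨f', hf', g', hg', hT, hfar⟩ := key S F N a haN T
      obtain ⟨Λ', hΛ', hΛ''⟩ := exists_dual_vector'' ℝ (S (f' - g'))
      have h0 : Ls 0 f' = Ls 0 g' := by
        have := hT ⟨0, by omega⟩
        simpa [T] using this
      have hi : ∀ i < k, Λ i (S (f' - g')) = 0 := by
        intro i hi
        have := hT ⟨i + 1, by omega⟩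
        simp only [T] at this
        rw [if_neg (by omega)] at this
        simp only [Nat.add_sub_cancel, ContinuousLinearMap.comp_apply] at this
        rw [map_sub, map_sub, this, sub_self]
      refine ⟨Function.update f k f', Function.update g k g', Function.update Λ k Λ', ?_⟩
      intro j hj
      rcases Nat.lt_succ_iff_lt_or_eq.mp hj with h | h
      · obtain ⟨a1, a2, a3, a4, a5⟩ := hind j h
        have hne : j ≠ k := h.ne
        rw [Function.update_of_ne hne, Function.update_of_ne hne, Function.update_of_ne hne]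
        refine ⟨a1, a2, a3, ?_, a5⟩
        intro i hij
        rw [Function.update_of_ne (by omega)]
        exact a4 i hij
      · subst h
        rw [Function.update_self, Function.update_self, Function.update_self]
        refine ⟨⟨hf', hg'⟩, hΛ', ?_, ?_, hstar f' hf' g' hg' h0⟩
        · rw [hΛ'']
          exact hfar.le
        · intro i hij
          rw [Function.update_of_ne hij.ne]
          exact hi i hij
  obtain ⟨f, g, Λ, h⟩ := hind N le_rfl
  refine ⟨fun j => f j, fun j => g j, fun j => Λ j, fun j => (h j j.2).1, fun j => (h j j.2).2.1,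
    fun j => (h j j.2).2.2.1, fun i j hij => (h j j.2).2.2.2.1 i hij, fun j => (h j j.2).2.2.2.2⟩

end Pool.Agent.H780R2.CX.TD1
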