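import Pool.Agent.H780R2.CX.Defs

/-! Task D2 (helper910): derandomization (Tonelli). The two facts on `mu` are hypotheses. -/

open scoped ENNReal
open MeasureTheory Set

namespace Pool.Agent.H780R2.CX.TD2

universe u v w

theorem exists_omega {X : Type u} {Y : Type v} [NormedAddCommGroup X] [NormedSpace ℝ X]
    [NormedAddCommGroup Y] [NormedSpace ℝ Y] (S : X →L[ℝ] Y) (F : Set X) (n : ℕ)
    (A : RandAlg.{u, v, w} S F n) (E : ℝ≥0∞)
    (hA : ∀ f ∈ F, @lintegral A.Ω A.mΩ A.P (fun ω => ‖S f - A.φ ω (fun i => A.L ω i f)‖ₑ) ≤ E)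
    {C : Type} [Fintype C] [Nonempty C] (m : ℕ) (hmu1 : mu m Set.univ = 1)
    (hmu2 : mu m (box m)ᶜ = 0) (p : C → (Fin m → ℝ) → X)
    (hp : ∀ c, ∀ u ∈ box m, p c u ∈ F) (hc : ∀ c, Continuous (p c)) :
    ∃ ω : A.Ω, (∀ c, Measurable (fun u : box m => ‖S (p c u) - A.φ ω (fun i => A.L ω i (p c u))‖)) ∧
      ∑ c, ∫⁻ u, ‖S (p c u) - A.φ ω (fun i => A.L ω i (p c u))‖ₑ ∂(mu m)
        ≤ (Fintype.card C : ℝ≥0∞) * E := by
  letI mΩ := A.mΩ
  letI mF : MeasurableSpace F := borel F
  haveI : BorelSpace F := ⟨rfl⟩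
  haveI := A.prob
  have hbox : MeasurableSet (box m) := by
    have : box m = ⋂ j, {u : Fin m → ℝ | |u j| ≤ 1} := by
      ext u
      simp [box]
    rw [this]
    refine MeasurableSet.iInter fun j => ?_
    exact measurableSet_le (measurable_pi_apply j).abs measurable_const
  have hm : Measurable (fun q : A.Ω × F => ‖S (q.2 : X) - A.φ q.1 (fun i => A.L q.1 i (q.2 : X))‖) :=
    A.meas
  have hmap : ∀ c, Measurable (fun u : box m => (⟨p c u, hp c u u.2⟩ : F)) := by
    intro c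
    apply Continuous.measurable
    exact Continuous.subtype_mk ((hc c).comp continuous_subtype_val) _
  have hjoint : ∀ c, Measurable (fun q : A.Ω × box m =>
      ‖S (p c q.2) - A.φ q.1 (fun i => A.L q.1 i (p c q.2))‖) := by
    intro c
    have h1 : Measurable (fun q : A.Ω × box m => ((q.1, (⟨p c q.2, hp c q.2 q.2.2⟩ : F)) : A.Ω × F)) :=
      measurable_fst.prodMk ((hmap c).comp measurable_snd)
    exact hm.comp h1
  have hjoint' : ∀ c, Measurable (fun q : A.Ω × box m =>
      ‖S (p c q.2) - A.φ q.1 (fun i => A.L q.1 i (p c q.2))‖ₑ) := by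
    intro c
    have := (hjoint c).ennreal_ofReal
    simpa only [ofReal_norm_eq_enorm] using this
  -- the measure on the box
  set ν : Measure (box m) := Measure.comap Subtype.val (mu m) with hν
  have hmurestr : (mu m).restrict (box m) = mu m := by
    rw [Measure.restrict_eq_self_of_ae_mem]
    rw [ae_iff]
    exact hmu2
  have hint : ∀ G : (Fin m → ℝ) → ℝ≥0∞, ∫⁻ u, G u ∂(mu m) = ∫⁻ u : box m, G u ∂ν := by
    intro G
    rw [hν, lintegral_subtype_comap hbox, hmurestr]
  have hνuniv : ν Set.univ = 1 := by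
    have := hint (fun _ => 1)
    simp only [lintegral_one] at this
    rw [← this, hmu1]
  haveI : IsProbabilityMeasure ν := ⟨hνuniv⟩
  -- total
  have htot : ∫⁻ ω, ∑ c, ∫⁻ u : box m, ‖S (p c u) - A.φ ω (fun i => A.L ω i (p c u))‖ₑ ∂ν ∂A.P ≤
      (Fintype.card C : ℝ≥0∞) * E := by
    rw [lintegral_finset_sum]
    · calc ∑ c, ∫⁻ ω, ∫⁻ u : box m, ‖S (p c u) - A.φ ω (fun i => A.L ω i (p c u))‖ₑ ∂ν ∂A.P
          = ∑ c, ∫⁻ u : box m, ∫⁻ ω, ‖S (p c u) - A.φ ω (fun i => A.L ω i (p c u))‖ₑ ∂A.P ∂ν := by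
            refine Finset.sum_congr rfl fun c _ => ?_
            rw [lintegral_lintegral_swap]
            exact (hjoint' c).aemeasurable
        _ ≤ ∑ c : C, ∫⁻ u : box m, E ∂ν := by
            refine Finset.sum_le_sum fun c _ => ?_
            exact lintegral_mono fun u => hA _ (hp c u u.2)
        _ = (Fintype.card C : ℝ≥0∞) * E := by
            simp
    · intro c _
      exact (hjoint' c).lintegral_prod_right'
  obtain ⟨ω, hω⟩ := exists_le_lintegral (μ := A.P)
    (f := fun ω => ∑ c, ∫⁻ u : box m, ‖S (p c u) - A.φ ω (fun i => A.L ω i (p c u))‖ₑ ∂ν)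
    (Finset.aemeasurable_fun_sum _ fun c _ => ((hjoint' c).lintegral_prod_right').aemeasurable)
  refine ⟨ω, fun c => ?_, ?_⟩
  · exact (hjoint c).comp (measurable_const.prodMk measurable_id)
  · refine le_trans (le_of_eq ?_) (hω.trans htot)
    refine Finset.sum_congr rfl fun c _ => ?_
    exact hint (fun u => ‖S (p c u) - A.φ ω (fun i => A.L ω i (p c u))‖ₑ)

end Pool.Agent.H780R2.CX.TD2
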