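import Mathlib

open scoped ENNReal
open MeasureTheory Set

namespace Pool.Agent.H780R2.CX

universe u v w

/-- `e_n^{det-non}(S, F)`: infimum over `n` continuous linear functionals `L` and over all maps
`φ : ℝ^n → Y` of the worst case error `sup_{f ∈ F} ‖S f - φ (L f)‖`. -/
noncomputable def detErr {X : Type u} {Y : Type v} [NormedAddCommGroup X] [NormedSpace ℝ X]
    [NormedAddCommGroup Y] [NormedSpace ℝ Y] (S : X →L[ℝ] Y) (F : Set X) (n : ℕ) : ℝ≥0∞ :=
  ⨅ (L : Fin n → X →L[ℝ] ℝ) (φ : (Fin n → ℝ) → Y), ⨆ f ∈ F, ‖S f - φ (fun i => L i f)‖ₑ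

/-- A randomized non-adaptive algorithm with `n` measurements: a probability space `Ω`, for each
`ω ∈ Ω` functionals `L ω 1, …, L ω n ∈ X'` and a map `φ ω : ℝ^n → Y`, such that the error
`(ω, f) ↦ ‖S f - A^ω f‖` is measurable on `Ω × F` (product of the sigma algebra of `Ω` and the
Borel sigma algebra of `F`). -/
structure RandAlg {X : Type u} {Y : Type v} [NormedAddCommGroup X] [NormedSpace ℝ X]
    [NormedAddCommGroup Y] [NormedSpace ℝ Y] (S : X →L[ℝ] Y) (F : Set X) (n : ℕ) where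
  /-- the sample space -/
  Ω : Type w
  /-- its sigma algebra -/
  mΩ : MeasurableSpace Ω
  /-- the probability measure -/
  P : Measure Ω
  prob : IsProbabilityMeasure P
  /-- the random functionals -/
  L : Ω → Fin n → X →L[ℝ] ℝ
  /-- the random maps -/
  φ : Ω → (Fin n → ℝ) → Y
  meas : @Measurable (Ω × F) ℝ (@Prod.instMeasurableSpace Ω F mΩ (borel F)) (borel ℝ)
    (fun p => ‖S (p.2 : X) - φ p.1 (fun i => L p.1 i (p.2 : X))‖)

/-- `e_n^{ran-non}(S, F)`: infimum over all randomized non-adaptive algorithms with `n`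
measurements of the error `sup_{f ∈ F} E ‖S f - A^ω f‖`. -/
noncomputable def ranErr {X : Type u} {Y : Type v} [NormedAddCommGroup X] [NormedSpace ℝ X]
    [NormedAddCommGroup Y] [NormedSpace ℝ Y] (S : X →L[ℝ] Y) (F : Set X) (n : ℕ) : ℝ≥0∞ :=
  ⨅ A : RandAlg.{u, v, w} S F n, ⨆ f ∈ F,
    @lintegral A.Ω A.mΩ A.P (fun ω => ‖S f - A.φ ω (fun i => A.L ω i f)‖ₑ)

/-- the density `(15/16) (1-u²)²` on `[-1, 1]`. -/
noncomputable def psi (u : ℝ) : ℝ := if |u| ≤ 1 then 15 / 16 * (1 - u ^ 2) ^ 2 else 0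

/-- the cube `[-1, 1]^m`. -/
def box (m : ℕ) : Set (Fin m → ℝ) := {u | ∀ j, |u j| ≤ 1}

/-- the product measure with density `∏ psi (u_j)`. -/
noncomputable def mu (m : ℕ) : Measure (Fin m → ℝ) :=
  (volume : Measure (Fin m → ℝ)).withDensity (fun u => ∏ j, ENNReal.ofReal (psi (u j)))

/-- the affine map `u ↦ x0 + ∑ (s_j u_j / 2) h_j`. -/
noncomputable def pt {X : Type u} [NormedAddCommGroup X] [NormedSpace ℝ X] {m : ℕ}
    (x0 : X) (h : Fin m → X) (s u : Fin m → ℝ) : X := x0 + ∑ j, (s j * u j / 2) • h j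

end Pool.Agent.H780R2.CX
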