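import Pool.Agent.H780R2.CX.Defs

/-!
# Task E1: the trivial example
-/

open scoped ENNReal
open MeasureTheory Set

namespace Pool.Agent.H780R2.CX.TE1

/-- the bounded real sequences -/
abbrev BX : Type := BoundedContinuousFunction ℕ ℝ

/-- coordinates as a bounded sequence -/
noncomputable def emb (n : ℕ) (y : Fin n → ℝ) : BX :=
  BoundedContinuousFunction.ofNormedAddCommGroupDiscrete
    (fun k => if h : k < n then y ⟨k, h⟩ else 0) (∑ i, |y i|) (by
      intro k
      by_cases h : k < n
      · simp only [h, dif_pos, Real.norm_eq_abs]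
        exact Finset.single_le_sum (f := fun i => |y i|) (fun i _ => abs_nonneg _)
          (Finset.mem_univ (⟨k, h⟩ : Fin n))
      · simp only [h, dif_neg, not_false_eq_true, norm_zero]
        exact Finset.sum_nonneg fun i _ => abs_nonneg _)

theorem emb_apply (n : ℕ) (y : Fin n → ℝ) (k : ℕ) :
    emb n y k = if h : k < n then y ⟨k, h⟩ else 0 := rfl

/-- `emb` as a linear map -/
noncomputable def embL (n : ℕ) : (Fin n → ℝ) →ₗ[ℝ] BX where
  toFun := emb n
  map_add' x y := by
    ext k
    rw [BoundedContinuousFunction.add_apply, emb_apply, emb_apply, emb_apply]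
    by_cases h : k < n <;> simp [h]
  map_smul' c y := by
    ext k
    change emb n (c • y) k = c * emb n y k
    rw [emb_apply, emb_apply]
    by_cases h : k < n <;> simp [h]

/-- evaluation functionals -/
noncomputable def coord (k : ℕ) : BX →L[ℝ] ℝ := BoundedContinuousFunction.evalCLM ℝ k

theorem coord_apply (k : ℕ) (f : BX) : coord k f = f k := rfl

/-- the set -/
def FF : Set BX := {f | ∀ k : ℕ, |f k| ≤ (1 / 2) ^ k}

/-- truncation -/
noncomputable def trunc (n : ℕ) (f : BX) : BX := emb n (fun i => coord i f)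

theorem trunc_apply (n : ℕ) (f : BX) (k : ℕ) : trunc n f k = if k < n then f k else 0 := by
  unfold trunc
  rw [emb_apply]
  by_cases h : k < n <;> simp [h, coord_apply]

theorem trunc_continuous (n : ℕ) : Continuous (trunc n) := by
  have : LipschitzWith 1 (trunc n) := by
    refine LipschitzWith.of_dist_le_mul fun f g => ?_
    rw [NNReal.coe_one, one_mul, BoundedContinuousFunction.dist_le dist_nonneg]
    intro k
    rw [trunc_apply, trunc_apply]
    by_cases h : k < n
    · simp only [h, if_true]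
      exact BoundedContinuousFunction.dist_coe_le_dist k
    · simp only [h, if_false, dist_self]
      exact dist_nonneg
  exact this.continuous

theorem err_le (n : ℕ) (f : BX) (hf : f ∈ FF) : ‖f - trunc n f‖ ≤ (1 / 2) ^ n := by
  rw [BoundedContinuousFunction.norm_le (by positivity)]
  intro k
  rw [BoundedContinuousFunction.sub_apply, trunc_apply]
  by_cases h : k < n
  · simp only [h, if_true, sub_self, norm_zero]
    positivity
  · simp only [h, if_false, sub_zero, Real.norm_eq_abs]
    exact (hf k).trans (pow_le_pow_of_le_one (by norm_num) (by norm_num) (by omega))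

theorem exists_ker (n : ℕ) (L : Fin n → BX →L[ℝ] ℝ) :
    ∃ x ∈ FF, ‖x‖ = (1 / 2) ^ n ∧ ∀ i, L i x = 0 := by
  let A : (Fin (n + 1) → ℝ) →ₗ[ℝ] (Fin n → ℝ) :=
    LinearMap.pi fun i => (L i : BX →ₗ[ℝ] ℝ).comp (embL (n + 1))
  have hA : LinearMap.ker A ≠ ⊥ := by
    apply LinearMap.ker_ne_bot_of_finrank_lt
    rw [Module.finrank_fin_fun, Module.finrank_fin_fun]
    omega
  obtain ⟨c, hc, hc0⟩ := Submodule.exists_mem_ne_zero_of_ne_bot hA
  rw [LinearMap.mem_ker] at hc
  have hLc : ∀ i, L i (emb (n + 1) c) = 0 := fun i => congrFun hc i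
  set x0 : BX := emb (n + 1) c with hx0
  have hx0ne : x0 ≠ 0 := by
    intro h
    apply hc0
    ext i
    have := congrArg (fun f : BX => f (i : ℕ)) h
    simp only [hx0, emb_apply, i.isLt, dif_pos, BoundedContinuousFunction.coe_zero,
      Pi.zero_apply] at this
    exact this
  have hr : 0 < ‖x0‖ := norm_pos_iff.2 hx0ne
  have hnorm : ‖((1 / 2) ^ n / ‖x0‖ : ℝ) • x0‖ = (1 / 2) ^ n := by
    rw [norm_smul, Real.norm_eq_abs, abs_of_nonneg (by positivity)]
    field_simp
  refine ⟨((1 / 2) ^ n / ‖x0‖ : ℝ) • x0, ?_, hnorm, fun i => ?_⟩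
  · intro k
    by_cases h : k < n + 1
    · have h1 := BoundedContinuousFunction.norm_coe_le_norm (((1 / 2) ^ n / ‖x0‖ : ℝ) • x0) k
      rw [hnorm, Real.norm_eq_abs] at h1
      exact h1.trans (pow_le_pow_of_le_one (by norm_num) (by norm_num) (by omega))
    · have : (((1 / 2) ^ n / ‖x0‖ : ℝ) • x0) k = 0 := by
        change ((1 / 2) ^ n / ‖x0‖ : ℝ) * x0 k = 0
        rw [hx0, emb_apply]
        simp [h]
      rw [this, abs_zero]
      positivity
  · rw [map_smul, hLc, smul_zero]

/-- The identity of the bounded sequences and the set `|x_k| ≤ 2^{-k}`. -/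
theorem trivial_example : ∃ (X Y : Type) (_ : NormedAddCommGroup X) (_ : NormedSpace ℝ X)
    (_ : CompleteSpace X) (_ : NormedAddCommGroup Y) (_ : NormedSpace ℝ Y) (_ : CompleteSpace Y)
    (S : X →L[ℝ] Y) (F : Set X), F.Nonempty ∧ Convex ℝ F ∧ (∀ f ∈ F, -f ∈ F) ∧
    (∀ n : ℕ, detErr S F n = ENNReal.ofReal ((1 / 2) ^ n)) ∧
    (∀ n : ℕ, 1 ≤ n → ranErr.{0, 0, 0} S F (2 * n) ≤ ENNReal.ofReal (1 / n) * detErr S F n) := by
  refine ⟨BX, BX, inferInstance, inferInstance, inferInstance, inferInstance, inferInstance,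
    inferInstance, ContinuousLinearMap.id ℝ BX, FF, ?_, ?_, ?_, ?_⟩
  · exact ⟨0, fun k => by simp⟩
  · intro f hf g hg s t hs ht hst k
    have h1 : (s • f + t • g) k = s * f k + t * g k := rfl
    rw [h1]
    calc |s * f k + t * g k| ≤ |s * f k| + |t * g k| := abs_add_le _ _
      _ = s * |f k| + t * |g k| := by rw [abs_mul, abs_mul, abs_of_nonneg hs, abs_of_nonneg ht]
      _ ≤ s * (1 / 2) ^ k + t * (1 / 2) ^ k :=
          add_le_add (mul_le_mul_of_nonneg_left (hf k) hs) (mul_le_mul_of_nonneg_left (hg k) ht)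
      _ = (1 / 2) ^ k := by rw [← add_mul, hst, one_mul]
  · intro f hf k
    have h1 : (-f) k = -f k := rfl
    rw [h1, abs_neg]
    exact hf k
  · have hdet : ∀ n : ℕ, detErr (ContinuousLinearMap.id ℝ BX) FF n =
        ENNReal.ofReal ((1 / 2) ^ n) := by
      intro n
      refine le_antisymm ?_ ?_
      · refine iInf₂_le_of_le (fun i => coord i) (emb n) (iSup₂_le fun f hf => ?_)
        rw [← ofReal_norm]
        exact ENNReal.ofReal_le_ofReal (err_le n f hf)
      · refine le_iInf₂ fun L φ => ?_
        obtain ⟨x, hxF, hxn, hL⟩ := exists_ker n L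
        have hxF' : -x ∈ FF := fun k => by
          have h1 : (-x) k = -x k := rfl
          rw [h1, abs_neg]; exact hxF k
        set y0 : BX := φ (fun _ => 0) with hy0
        have e1 : (fun i => L i x) = fun _ => (0 : ℝ) := funext hL
        have e2 : (fun i => L i (-x)) = fun _ => (0 : ℝ) := funext fun i => by
          rw [map_neg, hL, neg_zero]
        have htri : 2 * (1 / 2 : ℝ) ^ n ≤ ‖x - y0‖ + ‖-x - y0‖ := by
          have h1 : (2 : ℝ) • x = (x - y0) - (-x - y0) := by
            rw [two_smul]; abel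
          have h2 : ‖(2 : ℝ) • x‖ = 2 * (1 / 2 : ℝ) ^ n := by
            rw [norm_smul, hxn]; norm_num
          rw [← h2, h1]
          exact norm_sub_le _ _
        have hor : (1 / 2 : ℝ) ^ n ≤ ‖x - y0‖ ∨ (1 / 2 : ℝ) ^ n ≤ ‖-x - y0‖ := by
          by_contra hcon
          push Not at hcon
          linarith [hcon.1, hcon.2]
        rcases hor with h | h
        · refine le_trans ?_ (le_iSup₂ x hxF)
          rw [← ofReal_norm, e1]
          exact ENNReal.ofReal_le_ofReal h
        · refine le_trans ?_ (le_iSup₂ (-x) hxF')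
          rw [← ofReal_norm, e2]
          exact ENNReal.ofReal_le_ofReal h
    refine ⟨hdet, fun n hn => ?_⟩
    rw [hdet n]
    -- the deterministic algorithm with `2 n` measurements
    have hmeas : @Measurable (Unit × FF) ℝ (@Prod.instMeasurableSpace Unit FF ⊤ (borel FF))
        (borel ℝ) (fun p => ‖ContinuousLinearMap.id ℝ BX (p.2 : BX) -
          (emb (2 * n)) (fun i => (coord (i : ℕ)) (p.2 : BX))‖) := by
      let _ : MeasurableSpace FF := borel FF
      have _ : BorelSpace FF := ⟨rfl⟩
      let _ : MeasurableSpace Unit := ⊤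
      have hc : Continuous (fun f : FF => ‖(f : BX) - trunc (2 * n) (f : BX)‖) :=
        (continuous_subtype_val.sub ((trunc_continuous _).comp continuous_subtype_val)).norm
      exact hc.measurable.comp measurable_snd
    let A : RandAlg.{0, 0, 0} (ContinuousLinearMap.id ℝ BX) FF (2 * n) :=
      { Ω := Unit
        mΩ := ⊤
        P := @Measure.dirac Unit ⊤ ()
        prob := @Measure.dirac.isProbabilityMeasure Unit ⊤ ()
        L := fun _ i => coord i
        φ := fun _ => emb (2 * n)
        meas := hmeas }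
    refine le_trans (iInf_le _ A) ?_
    refine iSup₂_le fun f hf => ?_
    have h1 : @lintegral A.Ω A.mΩ A.P
        (fun ω => ‖ContinuousLinearMap.id ℝ BX f - A.φ ω (fun i => A.L ω i f)‖ₑ) =
        ‖f - trunc (2 * n) f‖ₑ := by
      change @lintegral Unit ⊤ (@Measure.dirac Unit ⊤ ()) (fun _ => ‖f - trunc (2 * n) f‖ₑ) = _
      rw [lintegral_const]
      rw [@measure_univ _ ⊤ (@Measure.dirac Unit ⊤ ()) (@Measure.dirac.isProbabilityMeasure Unit ⊤ ()),
        mul_one]
    rw [h1, ← ofReal_norm, ← ENNReal.ofReal_mul (by positivity)]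
    refine ENNReal.ofReal_le_ofReal ((err_le (2 * n) f hf).trans ?_)
    have hn0 : (0 : ℝ) < n := by exact_mod_cast hn
    have h2 : (n : ℝ) ≤ 2 ^ n := by exact_mod_cast (Nat.lt_two_pow_self (n := n)).le
    have h3 : (1 / 2 : ℝ) ^ n ≤ 1 / n := by
      rw [one_div_pow]
      exact one_div_le_one_div_of_le hn0 h2
    rw [two_mul, pow_add]
    exact mul_le_mul_of_nonneg_right h3 (by positivity)

end Pool.Agent.H780R2.CX.TE1
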