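import Pool.Agent.H780R2.CX.Defs
import Pool.Agent.H780R2.CX.A

/-!
Task F: few good points (core) and the row bound.
-/

open scoped ENNReal
open MeasureTheory Set

namespace Pool.Agent.H780R2.CX.TF

open Pool.Agent.H780R2.CX Pool.Agent.H780R2.CX.TA

universe u v w

theorem box_meas (m : ℕ) : MeasurableSet (box m) := by
  unfold box
  rw [Set.ofPred_forall]
  exact MeasurableSet.iInter fun j => measurableSet_le
    ((measurable_pi_apply j).abs) measurable_const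

theorem core (S0 : ℝ) (hS : 0 < S0) : ∃ (L : ℕ) (η : ℝ), 0 < L ∧ 0 < η ∧
    ∀ {X : Type u} {Y : Type v} [NormedAddCommGroup X] [NormedSpace ℝ X]
    [NormedAddCommGroup Y] [NormedSpace ℝ Y] (S : X →L[ℝ] Y) (m k : ℕ) (x0 : X) (h : Fin m → X)
    (s : Fin m → ℝ) (Lf : Fin k → X →L[ℝ] ℝ) (φ : (Fin k → ℝ) → Y) (b : Fin L → Fin m → ℝ)
    (γ : ℝ), 0 ≤ γ →
    (Measurable (fun u : box m => ‖S (pt x0 h s u) - φ (fun i => Lf i (pt x0 h s u))‖)) →
    (∀ i, ∑ j, (b i j) ^ 2 ≤ S0) → (∀ i j, |b i j| ≤ η) →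
    (∀ i t, ∑ j, s j * b i j * Lf t (h j) = 0) →
    (∀ i i', i ≠ i' → 4 * γ ≤ ‖∑ j, (s j * (b i j - b i' j)) • S (h j)‖) →
    ENNReal.ofReal (γ / 2) ≤
      ∫⁻ u, ‖S (pt x0 h s u) - φ (fun i => Lf i (pt x0 h s u))‖ₑ ∂(mu m) := by
  obtain ⟨L, η, hL, hη, hpack⟩ := pack S0 hS
  refine ⟨L, η, hL, hη, ?_⟩
  intro X Y _ _ _ _ S m k x0 h s Lf φ b γ hγ hmeas hb1 hb2 hb3 hb4
  set G : Set (Fin m → ℝ) := Subtype.val ''
    {u : box m | ‖S (pt x0 h s u) - φ (fun i => Lf i (pt x0 h s u))‖ < γ} with hG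
  have hGm : MeasurableSet G :=
    (box_meas m).subtype_image (measurableSet_lt hmeas measurable_const)
  have hGmem : ∀ u ∈ G, ‖S (pt x0 h s u) - φ (fun i => Lf i (pt x0 h s u))‖ < γ := by
    rintro _ ⟨u, hu, rfl⟩
    exact hu
  have hdisj : ∀ i i', i ≠ i' → ∀ u ∈ G, ∀ v ∈ G,
      (fun j => u j + b i j) ≠ (fun j => v j + b i' j) := by
    intro i i' hii u hu v hv heq
    have e1 : ∀ j, u j - v j = b i' j - b i j := by
      intro j
      have : u j + b i j = v j + b i' j := congrFun heq j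
      linarith
    have e2 : pt x0 h s u - pt x0 h s v = ∑ j, ((1 / 2 : ℝ) * (s j * (b i' j - b i j))) • h j := by
      unfold pt
      rw [add_sub_add_left_eq_sub, ← Finset.sum_sub_distrib]
      refine Finset.sum_congr rfl fun j _ => ?_
      rw [← sub_smul, ← e1 j]
      congr 1
      ring
    have e3 : ∀ t, Lf t (pt x0 h s u) = Lf t (pt x0 h s v) := by
      intro t
      rw [← sub_eq_zero, ← map_sub, e2, map_sum]
      have e4 : ∀ j, Lf t (((1 / 2 : ℝ) * (s j * (b i' j - b i j))) • h j) =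
          1 / 2 * (s j * b i' j * Lf t (h j)) - 1 / 2 * (s j * b i j * Lf t (h j)) := by
        intro j
        rw [map_smul, smul_eq_mul]
        ring
      simp only [e4, Finset.sum_sub_distrib, ← Finset.mul_sum, hb3]
      ring
    have e5 : S (pt x0 h s u) - S (pt x0 h s v) =
        (1 / 2 : ℝ) • ∑ j, (s j * (b i' j - b i j)) • S (h j) := by
      rw [← map_sub, e2, map_sum, Finset.smul_sum]
      refine Finset.sum_congr rfl fun j _ => ?_
      rw [map_smul, smul_smul]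
    have e6 : 2 * γ ≤ ‖S (pt x0 h s u) - S (pt x0 h s v)‖ := by
      rw [e5, norm_smul, Real.norm_of_nonneg (by norm_num)]
      have := hb4 i' i hii.symm
      linarith
    have e7 : (fun i => Lf i (pt x0 h s u)) = fun i => Lf i (pt x0 h s v) := funext e3
    have h1 := hGmem u hu
    have h2 := hGmem v hv
    rw [e7] at h1
    have h3 : ‖S (pt x0 h s u) - S (pt x0 h s v)‖ ≤
        ‖S (pt x0 h s u) - φ (fun i => Lf i (pt x0 h s v))‖ +
          ‖S (pt x0 h s v) - φ (fun i => Lf i (pt x0 h s v))‖ := by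
      have := norm_sub_le (S (pt x0 h s u) - φ (fun i => Lf i (pt x0 h s v)))
        (S (pt x0 h s v) - φ (fun i => Lf i (pt x0 h s v)))
      rwa [sub_sub_sub_cancel_right] at this
    linarith
  have hGhalf : mu m G ≤ 1 / 2 := hpack m G b hGm hb1 hb2 hdisj
  have hrest : (1 / 2 : ℝ≥0∞) ≤ mu m (box m \ G) := by
    have h1 : (1 : ℝ≥0∞) ≤ 1 / 2 + mu m (box m \ G) := by
      calc (1 : ℝ≥0∞) = mu m Set.univ := (mu_univ m).symm
        _ ≤ mu m ((box m)ᶜ ∪ (G ∪ (box m \ G))) := by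
            apply measure_mono
            intro u _
            by_cases hu : u ∈ box m
            · by_cases hg : u ∈ G
              · exact Or.inr (Or.inl hg)
              · exact Or.inr (Or.inr ⟨hu, hg⟩)
            · exact Or.inl hu
        _ ≤ mu m (box m)ᶜ + (mu m G + mu m (box m \ G)) :=
            (measure_union_le _ _).trans (add_le_add_right (measure_union_le _ _) _)
        _ ≤ 0 + (1 / 2 + mu m (box m \ G)) := by
            rw [mu_compl_box]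
            exact add_le_add_right (add_le_add_left hGhalf _) _
        _ = _ := zero_add _
    have h2 : (1 / 2 : ℝ≥0∞) + 1 / 2 ≤ 1 / 2 + mu m (box m \ G) := by
      rw [ENNReal.add_halves]
      exact h1
    have h3 : (1 / 2 : ℝ≥0∞) ≠ ⊤ := by norm_num
    exact (ENNReal.add_le_add_iff_left h3).mp h2
  calc ENNReal.ofReal (γ / 2) = ENNReal.ofReal γ * (1 / 2) := by
        rw [div_eq_mul_one_div, ENNReal.ofReal_mul hγ]
        congr 1
        rw [ENNReal.ofReal_div_of_pos (by norm_num)]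
        simp
    _ ≤ ENNReal.ofReal γ * mu m (box m \ G) := by gcongr
    _ = ∫⁻ _ in box m \ G, ENNReal.ofReal γ ∂(mu m) := by
        rw [lintegral_const, Measure.restrict_apply MeasurableSet.univ, Set.univ_inter]
    _ ≤ ∫⁻ u in box m \ G, ‖S (pt x0 h s u) - φ (fun i => Lf i (pt x0 h s u))‖ₑ ∂(mu m) := by
        apply setLIntegral_mono' ((box_meas m).diff hGm)
        intro u hu
        have h1 : γ ≤ ‖S (pt x0 h s u) - φ (fun i => Lf i (pt x0 h s u))‖ := by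
          by_contra hc
          rw [not_le] at hc
          exact hu.2 ⟨⟨u, hu.1⟩, hc, rfl⟩
        rw [← ofReal_norm]
        exact ENNReal.ofReal_le_ofReal h1
    _ ≤ _ := setLIntegral_le_lintegral _ _

theorem rowBound : ∃ C₀ : ℝ, 0 < C₀ ∧
    ∀ {X : Type u} {Y : Type v} [NormedAddCommGroup X] [NormedSpace ℝ X]
    [NormedAddCommGroup Y] [NormedSpace ℝ Y] (S : X →L[ℝ] Y) (m k : ℕ) (x0 : X) (h : Fin m → X)
    (s : ℝ) (Lf : Fin k → X →L[ℝ] ℝ) (φ : (Fin k → ℝ) → Y) (E : ℝ), 0 < s → 0 ≤ E →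
    (Measurable (fun u : box m => ‖S (pt x0 h (fun _ => s) u) -
      φ (fun i => Lf i (pt x0 h (fun _ => s) u))‖)) →
    (∫⁻ u, ‖S (pt x0 h (fun _ => s) u) - φ (fun i => Lf i (pt x0 h (fun _ => s) u))‖ₑ ∂(mu m)
      ≤ ENNReal.ofReal E) →
    ∀ w : EuclideanSpace ℝ (Fin m), (∀ t, ∑ j, w j * Lf t (h j) = 0) →
      ∀ Λ : Y →L[ℝ] ℝ, ‖Λ‖ ≤ 1 → s * |∑ j, w j * Λ (S (h j))| ≤ C₀ * E * ‖w‖ := by
  obtain ⟨L, η, hL, hη, hcore⟩ := core.{u, v} 1 one_pos
  have hLr : (0 : ℝ) < L := by exact_mod_cast hL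
  set c0 : ℝ := min η 1 / L with hc0
  have hc0pos : 0 < c0 := div_pos (lt_min hη one_pos) hLr
  have hLc0 : L * c0 = min η 1 := by rw [hc0]; field_simp
  refine ⟨8 / c0, by positivity, ?_⟩
  intro X Y _ _ _ _ S m k x0 h s Lf φ E hs hE hmeas hint w hw Λ hΛ
  set Q := |∑ j, w j * Λ (S (h j))| with hQ
  have hQ0 : 0 ≤ Q := abs_nonneg _
  by_cases hw0 : ‖w‖ = 0
  · have hw1 : w = 0 := norm_eq_zero.mp hw0
    have : Q = 0 := by
      rw [hQ, hw1]
      simp
    rw [this, hw0]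
    simp
  have hwpos : 0 < ‖w‖ := lt_of_le_of_ne (norm_nonneg _) (Ne.symm hw0)
  have hwsq : ∑ j, (w j) ^ 2 = ‖w‖ ^ 2 := by
    rw [EuclideanSpace.norm_sq_eq]
    exact Finset.sum_congr rfl fun j _ => by rw [Real.norm_eq_abs, sq_abs]
  have hwj : ∀ j, |w j| ≤ ‖w‖ := by
    intro j
    have := PiLp.norm_apply_le w j
    rwa [Real.norm_eq_abs] at this
  set γ : ℝ := s * (c0 / ‖w‖) * Q / 4 with hγ
  have hγ0 : 0 ≤ γ := by positivity
  have hi : ∀ i : Fin L, ((i : ℕ) : ℝ) * c0 ≤ min η 1 := by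
    intro i
    rw [← hLc0]
    apply mul_le_mul_of_nonneg_right _ hc0pos.le
    exact_mod_cast i.2.le
  have key := hcore S m k x0 h (fun _ => s) Lf φ
    (fun i j => ((i : ℕ) : ℝ) * (c0 / ‖w‖) * w j) γ hγ0 hmeas ?_ ?_ ?_ ?_
  · have h1 := key.trans hint
    have h2 : γ / 2 ≤ E := (ENNReal.ofReal_le_ofReal_iff hE).mp h1
    rw [hγ] at h2
    have h3 : s * (c0 / ‖w‖) * Q ≤ 8 * E := by linarith
    have h4 : s * Q = (s * (c0 / ‖w‖) * Q) * (‖w‖ / c0) := by field_simp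
    rw [h4]
    calc s * (c0 / ‖w‖) * Q * (‖w‖ / c0) ≤ 8 * E * (‖w‖ / c0) :=
          mul_le_mul_of_nonneg_right h3 (by positivity)
      _ = 8 / c0 * E * ‖w‖ := by ring
  · intro i
    have e : ∀ j, (((i : ℕ) : ℝ) * (c0 / ‖w‖) * w j) ^ 2 =
        (((i : ℕ) : ℝ) * c0 / ‖w‖) ^ 2 * (w j) ^ 2 := by
      intro j; ring
    simp only [e]
    rw [← Finset.mul_sum, hwsq, div_pow, div_mul_cancel₀ _ (by positivity)]
    have h1 := (hi i).trans (min_le_right _ _)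
    have h2 : 0 ≤ ((i : ℕ) : ℝ) * c0 := by positivity
    nlinarith
  · intro i j
    rw [abs_mul, abs_of_nonneg (by positivity)]
    have h1 := (hi i).trans (min_le_left _ _)
    calc ((i : ℕ) : ℝ) * (c0 / ‖w‖) * |w j| ≤ ((i : ℕ) : ℝ) * (c0 / ‖w‖) * ‖w‖ :=
          mul_le_mul_of_nonneg_left (hwj j) (by positivity)
      _ = ((i : ℕ) : ℝ) * c0 := by field_simp
      _ ≤ η := h1
  · intro i t
    have e : ∀ j, s * (((i : ℕ) : ℝ) * (c0 / ‖w‖) * w j) * Lf t (h j) =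
        s * (((i : ℕ) : ℝ) * (c0 / ‖w‖)) * (w j * Lf t (h j)) := by
      intro j; ring
    simp only [e, ← Finset.mul_sum, hw, mul_zero]
  · intro i i' hii
    have h1 : |Λ (∑ j, (s * (((i : ℕ) : ℝ) * (c0 / ‖w‖) * w j -
        ((i' : ℕ) : ℝ) * (c0 / ‖w‖) * w j)) • S (h j))| ≤
        ‖∑ j, (s * (((i : ℕ) : ℝ) * (c0 / ‖w‖) * w j -
        ((i' : ℕ) : ℝ) * (c0 / ‖w‖) * w j)) • S (h j)‖ := by
      have h2 := Λ.le_opNorm (∑ j, (s * (((i : ℕ) : ℝ) * (c0 / ‖w‖) * w j -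
        ((i' : ℕ) : ℝ) * (c0 / ‖w‖) * w j)) • S (h j))
      rw [Real.norm_eq_abs] at h2
      exact h2.trans (mul_le_of_le_one_left (norm_nonneg _) hΛ)
    refine le_trans ?_ h1
    have e : Λ (∑ j, (s * (((i : ℕ) : ℝ) * (c0 / ‖w‖) * w j -
        ((i' : ℕ) : ℝ) * (c0 / ‖w‖) * w j)) • S (h j)) =
        (s * (c0 / ‖w‖)) * (((i : ℕ) : ℝ) - ((i' : ℕ) : ℝ)) * ∑ j, w j * Λ (S (h j)) := by
      rw [map_sum, Finset.mul_sum]
      refine Finset.sum_congr rfl fun j _ => ?_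
      rw [map_smul, smul_eq_mul]
      ring
    rw [e, abs_mul, abs_mul, abs_of_nonneg (show 0 ≤ s * (c0 / ‖w‖) by positivity), ← hQ, hγ]
    have h3 : (1 : ℝ) ≤ |((i : ℕ) : ℝ) - ((i' : ℕ) : ℝ)| := by
      have h4 : ((i : ℕ) : ℤ) - ((i' : ℕ) : ℤ) ≠ 0 := by
        intro hc
        apply hii
        apply Fin.ext
        omega
      have h5 := Int.one_le_abs h4
      have h6 : ((1 : ℤ) : ℝ) ≤ ((|((i : ℕ) : ℤ) - ((i' : ℕ) : ℤ)| : ℤ) : ℝ) := by exact_mod_cast h5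
      push_cast at h6
      exact h6
    have h7 : 0 ≤ s * (c0 / ‖w‖) * Q := by positivity
    nlinarith [mul_le_mul_of_nonneg_left h3 h7]

end Pool.Agent.H780R2.CX.TF
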