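import Pool.Agent.H780R2.CX.Top

open scoped ENNReal
open MeasureTheory Set

namespace Pool.Agent.H780R2.CX

universe u v w

variable {X : Type u} {Y : Type v} [NormedAddCommGroup X] [NormedSpace ℝ X]
    [NormedAddCommGroup Y] [NormedSpace ℝ Y]

/-- row bound at one level. -/
theorem rowLevel (C₀ : ℝ)
    (hrow : ∀ (S : X →L[ℝ] Y) (m k : ℕ) (x0 : X) (h : Fin m → X)
    (s : ℝ) (Lf : Fin k → X →L[ℝ] ℝ) (φ : (Fin k → ℝ) → Y) (E : ℝ), 0 < s → 0 ≤ E →
    (Measurable (fun u : box m => ‖S (pt x0 h (fun _ => s) u) -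
      φ (fun i => Lf i (pt x0 h (fun _ => s) u))‖)) →
    (∫⁻ u, ‖S (pt x0 h (fun _ => s) u) - φ (fun i => Lf i (pt x0 h (fun _ => s) u))‖ₑ ∂(mu m)
      ≤ ENNReal.ofReal E) →
    ∀ w : EuclideanSpace ℝ (Fin m), (∀ t, ∑ j, w j * Lf t (h j) = 0) →
      ∀ Λ : Y →L[ℝ] ℝ, ‖Λ‖ ≤ 1 → s * |∑ j, w j * Λ (S (h j))| ≤ C₀ * E * ‖w‖)
    (S : X →L[ℝ] Y) (F : Set X) (hconv : Convex ℝ F) {f0 : X} (hf0 : f0 ∈ F) (m k : ℕ)
    (hm : 0 < m) (E : ℝ) (hE : 0 ≤ E) (hran : ranErr.{u, v, w} S F k < ENNReal.ofReal E)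
    (f g : Fin m → X) (hf : ∀ j, f j ∈ F) (hg : ∀ j, g j ∈ F)
    (Λ : Fin m → Y →L[ℝ] ℝ) (hΛ : ∀ j, ‖Λ j‖ ≤ 1) :
    ∃ V : Submodule ℝ (EuclideanSpace ℝ (Fin m)), m ≤ Module.finrank ℝ V + k ∧
      ∀ l, ∀ w ∈ V, |∑ i, Λ l (S (f i - g i)) * w i| ≤ C₀ * (m * E) * ‖w‖ := by
  have hm' : (0 : ℝ) < m := by exact_mod_cast hm
  set s : ℝ := 1 / m with hs
  have hs0 : 0 < s := by positivity
  have hsum : ∑ _j : Fin m, s ≤ 1 := by
    rw [Finset.sum_const, Finset.card_univ, Fintype.card_fin, nsmul_eq_mul, hs]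
    field_simp
    exact le_refl _
  obtain ⟨Lf, φ, h1, h2⟩ := level.{u, v, w} S F k E hran (C := Unit) m
    (fun _ => pt (base f0 f g (fun _ => s)) (fun j => f j - g j) (fun _ => s))
    (fun _ u hu => pt_mem hconv hf0 hf hg (fun _ => hs0.le) hsum hu)
    (fun _ => continuous_pt _ _ _)
  simp only [Finset.univ_unique, Finset.sum_const, Finset.card_singleton, one_smul,
    Fintype.card_unit, Nat.cast_one, one_mul] at h2
  refine ⟨kerM Lf (fun j => f j - g j), finrank_kerM _ _, fun l w hw => ?_⟩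
  have h3 := hrow S m k _ (fun j => f j - g j) s Lf φ E hs0 hE (h1 ()) h2 w
    ((mem_kerM _ _ _).mp hw) (Λ l) (hΛ l)
  have h4 : |∑ i, Λ l (S (f i - g i)) * w i| = |∑ j, w j * Λ l (S (f j - g j))| := by
    congr 1
    exact Finset.sum_congr rfl fun j _ => mul_comm _ _
  rw [h4]
  rw [hs, div_mul_eq_mul_div, one_mul, div_le_iff₀ hm'] at h3
  calc _ ≤ _ := h3
    _ = _ := by ring

theorem main_aux (S : X →L[ℝ] Y) (F : Set X) (hne : F.Nonempty) (hconv : Convex ℝ F)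
    (hfin : ∀ n : ℕ, 1 ≤ n → 0 < detErr S F n ∧ detErr S F n < ⊤) (C : ℝ) (hC1 : 1 ≤ C) (N₀ : ℕ)
    (hC : ∀ n : ℕ, N₀ ≤ n → ranErr.{u, v, w} S F (2 * n) ≤ ENNReal.ofReal (C / n) * detErr S F n)
    (β : ℝ) (hβ : 0 ≤ β) :
    ∃ A : ℝ, ∀ n : ℕ, 1 ≤ n → detErr S F n ≤ ENNReal.ofReal (A * (n : ℝ) ^ (-β)) := by
  set d : ℕ → ℝ := fun j => (detErr S F (2 ^ j)).toReal with hd
  have hd1 : ∀ j, detErr S F (2 ^ j) = ENNReal.ofReal (d j) := fun j =>
    (ENNReal.ofReal_toReal (hfin (2 ^ j) Nat.one_le_two_pow).2.ne).symm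
  have hdpos : ∀ j, 0 < d j := fun j =>
    ENNReal.toReal_pos (hfin (2 ^ j) Nat.one_le_two_pow).1.ne'
      (hfin (2 ^ j) Nat.one_le_two_pow).2.ne
  by_cases hunb : ∃ A : ℝ, ∀ j : ℕ, d j * (2 : ℝ) ^ (β * j) ≤ A
  · obtain ⟨A, hA⟩ := hunb
    have hA0 : 0 ≤ A := by
      refine le_trans ?_ (hA 0)
      have := (hdpos 0).le
      positivity
    refine ⟨A * (2 : ℝ) ^ β, fun n hn => ?_⟩
    set j := Nat.log 2 n with hj
    have h1 : 2 ^ j ≤ n := Nat.pow_log_le_self 2 (by omega)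
    have h2 : n < 2 ^ (j + 1) := Nat.lt_pow_succ_log_self (by norm_num) n
    refine (detErr_antitone S F h1).trans ?_
    rw [hd1]
    apply ENNReal.ofReal_le_ofReal
    have h3 := hA j
    have hn0 : (0 : ℝ) < n := by exact_mod_cast hn
    have h4 : (n : ℝ) ^ β ≤ (2 : ℝ) ^ (β * j) * (2 : ℝ) ^ β := by
      calc (n : ℝ) ^ β ≤ ((2 : ℝ) ^ (j + 1)) ^ β := by
            apply Real.rpow_le_rpow hn0.le _ hβ
            exact_mod_cast h2.le
        _ = _ := by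
            rw [← Real.rpow_natCast, ← Real.rpow_mul (by norm_num), ← Real.rpow_add (by norm_num)]
            congr 1
            push_cast; ring
    rw [Real.rpow_neg hn0.le, ← div_eq_mul_inv, le_div_iff₀ (Real.rpow_pos_of_pos hn0 _)]
    calc d j * (n : ℝ) ^ β ≤ d j * ((2 : ℝ) ^ (β * j) * (2 : ℝ) ^ β) :=
          mul_le_mul_of_nonneg_left h4 (hdpos j).le
      _ = (d j * (2 : ℝ) ^ (β * j)) * (2 : ℝ) ^ β := by ring
      _ ≤ A * (2 : ℝ) ^ β := by gcongr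
  exfalso
  obtain ⟨C₀, hC₀, hrow⟩ := rowBound.{u, v}
  set C₂ : ℝ := max (max 8 (8 * C₀ * C * (2 : ℝ) ^ β)) (8 * (2 * (N₀ : ℝ)) ^ (1 + β)) with hC₂
  have hC₂8 : 8 ≤ C₂ := (le_max_left _ _).trans (le_max_left _ _)
  have hC₂1 : 1 ≤ C₂ := le_trans (by norm_num) hC₂8
  obtain ⟨c, hc, hlemD⟩ := lemD β C₂ hβ hC₂1
  set T : ℝ := 5200 * C * (2 : ℝ) ^ (4 * β) with hT
  have hT0 : 0 < T := by positivity
  obtain ⟨R, r0, htop⟩ := top.{u, v} T (1 / c) hT0 (by positivity)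
  obtain ⟨K, hK0, hK⟩ := records d hdpos β hunb (r0 + N₀ + 5)
  set m : ℕ := 2 ^ K with hm
  have hm1 : 1 ≤ m := Nat.one_le_two_pow
  have hmR : (m : ℝ) = (2 : ℝ) ^ K := by rw [hm]; push_cast; rfl
  have hm0 : (0 : ℝ) < m := by exact_mod_cast hm1
  set a : ℝ := d K / 2 with ha
  have ha0 : 0 < a := by have := hdpos K; positivity
  obtain ⟨f0, hf0⟩ := hne
  obtain ⟨f, g, Λ, hfg, hΛ, hdiag, htri, hnorm⟩ := select S F ⟨f0, hf0⟩ m hm1 (2 * d 0) a ha0
    (by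
      have := hd1 0
      rw [pow_zero] at this
      rw [this]
      exact (ENNReal.ofReal_lt_ofReal_iff (by have := hdpos 0; positivity)).mpr
        (by linarith [hdpos 0]))
    (by
      rw [hm, hd1 K]
      exact (ENNReal.ofReal_lt_ofReal_iff (hdpos K)).mpr (by linarith [hdpos K]))
  have hent : ∀ l j, |Λ l (S (f j - g j))| ≤ 8 * ((m : ℝ) ^ β * a) := by
    intro l j
    have h1 : |Λ l (S (f j - g j))| ≤ 1 * ‖S (f j - g j)‖ := by
      rw [← Real.norm_eq_abs]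
      exact (Λ l).le_of_opNorm_le (hΛ l) _
    have h2 := hnorm j
    have h3 := hK 0 (by omega)
    have h4 : (2 : ℝ) ^ (((K : ℝ) - (0 : ℕ)) * β) = (m : ℝ) ^ β := by
      rw [hmR, ← Real.rpow_natCast (2 : ℝ) K, ← Real.rpow_mul (by norm_num)]
      simp
    rw [h4] at h3
    have h5 : d K = 2 * a := by rw [ha]; ring
    rw [h5] at h3
    linarith
  have hlev : ∀ i : ℕ, N₀ ≤ 2 ^ i →
      ranErr.{u, v, w} S F (2 ^ (i + 1)) < ENNReal.ofReal (2 * C * d i / 2 ^ i) := by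
    intro i hi
    have h1 := hC (2 ^ i) hi
    rw [pow_succ', hd1] at *
    refine lt_of_le_of_lt h1 ?_
    rw [← ENNReal.ofReal_mul (by positivity)]
    have h2 : 0 < C * d i / 2 ^ i := by have := hdpos i; positivity
    refine (ENNReal.ofReal_lt_ofReal_iff (by have := hdpos i; positivity)).mpr ?_
    calc C / ((2 ^ i : ℕ) : ℝ) * d i = C * d i / 2 ^ i := by push_cast; ring
      _ < 2 * (C * d i / 2 ^ i) := by linarith
      _ = 2 * C * d i / 2 ^ i := by ring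
  have hV : ∀ j : ℕ, ∃ V : Submodule ℝ (EuclideanSpace ℝ (Fin m)), 1 ≤ j → j + 2 ≤ K →
      m ≤ Module.finrank ℝ V + 2 ^ j ∧
      ∀ l, ∀ w ∈ V, |∑ i, Λ l (S (f i - g i)) * w i| ≤
        C₂ * ((2 : ℝ) ^ (K - j)) ^ (1 + β) * a * ‖w‖ := by
    intro j
    by_cases hj : 1 ≤ j ∧ j + 2 ≤ K
    · obtain ⟨i, rfl⟩ : ∃ i, j = i + 1 := ⟨j - 1, by omega⟩
      by_cases hi : N₀ ≤ 2 ^ i
      swap
      · -- low levels: trivial bound
        refine ⟨⊤, fun _ _ => ⟨by rw [finrank_top, finrank_euclideanSpace_fin]; exact Nat.le_add_right _ _,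
          fun l w _ => ?_⟩⟩
        have hwj : ∀ i, |w i| ≤ ‖w‖ := fun i => by
          rw [← Real.norm_eq_abs]; exact PiLp.norm_apply_le w i
        have hm2 : (m : ℝ) ≤ (2 * N₀) * (2 : ℝ) ^ (K - (i + 1)) := by
          have h1 : (m : ℝ) = (2 * (2 : ℝ) ^ i) * (2 : ℝ) ^ (K - (i + 1)) := by
            rw [hmR, ← pow_succ', ← pow_add]; congr 1; omega
          rw [h1]
          have h2 : ((2 : ℝ) ^ i) ≤ N₀ := by exact_mod_cast (not_le.mp hi).le
          gcongr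
        calc |∑ i, Λ l (S (f i - g i)) * w i| ≤ ∑ i, |Λ l (S (f i - g i)) * w i| :=
              Finset.abs_sum_le_sum_abs _ _
          _ ≤ ∑ _i : Fin m, 8 * ((m : ℝ) ^ β * a) * ‖w‖ := by
              refine Finset.sum_le_sum fun i _ => ?_
              rw [abs_mul]
              exact mul_le_mul (hent l i) (hwj i) (abs_nonneg _) (by positivity)
          _ = 8 * (m : ℝ) ^ (1 + β) * a * ‖w‖ := by
              rw [Finset.sum_const, Finset.card_univ, Fintype.card_fin, nsmul_eq_mul,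
                Real.rpow_add hm0, Real.rpow_one]
              ring
          _ ≤ 8 * ((2 * N₀) * (2 : ℝ) ^ (K - (i + 1))) ^ (1 + β) * a * ‖w‖ := by
              gcongr
          _ = (8 * (2 * (N₀ : ℝ)) ^ (1 + β)) * ((2 : ℝ) ^ (K - (i + 1))) ^ (1 + β) * a * ‖w‖ := by
              rw [Real.mul_rpow (by positivity) (by positivity)]; ring
          _ ≤ C₂ * ((2 : ℝ) ^ (K - (i + 1))) ^ (1 + β) * a * ‖w‖ := by
              gcongr
              exact le_max_right _ _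
      have hE0 : 0 ≤ 2 * C * d i / 2 ^ i := by have := hdpos i; positivity
      obtain ⟨V, hV1, hV2⟩ := rowLevel.{u, v, w} C₀ (fun S m k x0 h s Lf φ E => hrow S m k x0 h s Lf φ E)
        S F hconv hf0 m (2 ^ (i + 1)) hm1 _ hE0 (hlev i hi) f g (fun j => (hfg j).1)
        (fun j => (hfg j).2) Λ hΛ
      refine ⟨V, fun _ _ => ⟨hV1, fun l w hw => (hV2 l w hw).trans ?_⟩⟩
      apply mul_le_mul_of_nonneg_right _ (norm_nonneg w)
      have h1 := hK i (by omega)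
      have h2 : (m : ℝ) * (2 * C * d i / 2 ^ i) ≤
          8 * C * (2 : ℝ) ^ β * ((2 : ℝ) ^ (K - (i + 1))) ^ (1 + β) * a := by
        have h3 : (m : ℝ) / 2 ^ i = 2 * (2 : ℝ) ^ (K - (i + 1)) := by
          rw [hmR, div_eq_iff (by positivity)]
          rw [← pow_succ', ← pow_add]
          congr 1; omega
        have h4 : (2 : ℝ) ^ (((K : ℝ) - i) * β) =
            (2 : ℝ) ^ β * ((2 : ℝ) ^ (K - (i + 1))) ^ β := by
          rw [← Real.rpow_natCast (2 : ℝ) (K - (i + 1)), ← Real.rpow_mul (by norm_num),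
            ← Real.rpow_add (by norm_num)]
          congr 1
          rw [Nat.cast_sub (by omega)]
          push_cast; ring
        have h5 : ((2 : ℝ) ^ (K - (i + 1))) ^ (1 + β) =
            (2 : ℝ) ^ (K - (i + 1)) * ((2 : ℝ) ^ (K - (i + 1))) ^ β := by
          rw [Real.rpow_add (by positivity), Real.rpow_one]
        rw [h5]
        calc (m : ℝ) * (2 * C * d i / 2 ^ i) = 2 * C * ((m : ℝ) / 2 ^ i) * d i := by ring
          _ ≤ 2 * C * ((m : ℝ) / 2 ^ i) * ((2 : ℝ) ^ (((K : ℝ) - i) * β) * d K) := by gcongr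
          _ = _ := by
            rw [h3, h4]
            have : d K = 2 * a := by rw [ha]; ring
            rw [this]; ring
      calc C₀ * ((m : ℝ) * (2 * C * d i / 2 ^ i))
          ≤ C₀ * (8 * C * (2 : ℝ) ^ β * ((2 : ℝ) ^ (K - (i + 1))) ^ (1 + β) * a) := by gcongr
        _ = (8 * C₀ * C * (2 : ℝ) ^ β) * ((2 : ℝ) ^ (K - (i + 1))) ^ (1 + β) * a := by ring
        _ ≤ C₂ * ((2 : ℝ) ^ (K - (i + 1))) ^ (1 + β) * a := by
            gcongr
            exact (le_max_right _ _).trans (le_max_left _ _)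
    · exact ⟨⊤, fun h1 h2 => absurd ⟨h1, h2⟩ hj⟩
  choose V hV using hV
  have hW := hlemD K m (by omega) hm a ha0 (fun l j => Λ l (S (f j - g j))) htri hdiag
    (by
      intro l j
      calc |Λ l (S (f j - g j))| ≤ 8 * ((m : ℝ) ^ β * a) := hent l j
        _ ≤ C₂ * ((m : ℝ) ^ β * a) := by
            gcongr
        _ = _ := by ring)
    V hV
  -- top level
  have hlevtop := hlev (K - 4) (by
    have : K - 4 < 2 ^ (K - 4) := Nat.lt_two_pow_self
    omega)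
  have hK4 : K - 4 + 1 = K - 3 := by omega
  obtain ⟨Lf, φ, h1, h2⟩ := level.{u, v, w} S F (2 ^ (K - 4 + 1)) _ hlevtop
    (C := Fin m → Fin (R + 1)) m (prior f0 f g)
    (fun c => prior_mem hconv hf0 (fun j => (hfg j).1) (fun j => (hfg j).2) c)
    (fun c => prior_continuous f0 f g c)
  have h3 := htop S m (2 ^ (K - 4 + 1)) hm1
    (by
      have h5 : m / 4 = 2 ^ (K - 2) := by
        have : m = 2 ^ (K - 2) * 4 := by
          rw [hm, show (4 : ℕ) = 2 ^ 2 by norm_num, ← pow_add]; congr 1; omega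
        omega
      rw [h5]
      have : K - 2 < 2 ^ (K - 2) := Nat.lt_two_pow_self
      omega)
    (by
      rw [hK4, hm, show (8 : ℕ) = 2 ^ 3 by norm_num, ← pow_add]
      apply le_of_eq; congr 1; omega)
    f0 f g Λ hΛ a ha0
    (by
      intro W hWf
      have h5 : a / (1 / c) = c * a := by field_simp
      rw [h5]
      have h6 : m = 2 ^ (K - 1) * 2 := by
        rw [hm, ← pow_succ]; congr 1; omega
      exact hW W (by omega))
    Lf φ h1
  have hcard : (Fintype.card (Fin m → Fin (R + 1)) : ℝ≥0∞) = ((R : ℝ≥0∞) + 1) ^ m := by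
    simp
  rw [hcard] at h2
  have h4 : ((R : ℝ≥0∞) + 1) ^ m * ENNReal.ofReal (T * a / (40 * m)) ≤
      ((R : ℝ≥0∞) + 1) ^ m * (2 * ENNReal.ofReal (2 * C * d (K - 4) / 2 ^ (K - 4))) := by
    refine h3.trans ?_
    calc _ ≤ 2 * (((R : ℝ≥0∞) + 1) ^ m * ENNReal.ofReal (2 * C * d (K - 4) / 2 ^ (K - 4))) := by
          gcongr
      _ = _ := by ring
  have hne0 : ((R : ℝ≥0∞) + 1) ^ m ≠ 0 := by positivity
  have hnet : ((R : ℝ≥0∞) + 1) ^ m ≠ ⊤ := by
    apply ENNReal.pow_ne_top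
    exact ENNReal.add_ne_top.mpr ⟨ENNReal.natCast_ne_top R, ENNReal.one_ne_top⟩
  rw [ENNReal.mul_le_mul_iff_right hne0 hnet] at h4
  have h5 : (2 : ℝ≥0∞) = ENNReal.ofReal 2 := by simp
  have hdK4 := hdpos (K - 4)
  rw [h5, ← ENNReal.ofReal_mul (by norm_num), ENNReal.ofReal_le_ofReal_iff (by positivity)] at h4
  have h6 := hK (K - 4) (by omega)
  have h7 : (K : ℝ) - ((K - 4 : ℕ) : ℝ) = 4 := by
    rw [Nat.cast_sub (by omega)]; push_cast; ring
  rw [h7] at h6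
  have h8 : (m : ℝ) = 16 * (2 : ℝ) ^ (K - 4) := by
    rw [hmR, show (16 : ℝ) = 2 ^ 4 by norm_num, ← pow_add]; congr 1; omega
  have h9 : d K = 2 * a := by rw [ha]; ring
  rw [h9] at h6
  rw [div_le_iff₀ (by positivity), h8] at h4
  have h10 : T * a ≤ 5120 * C * (2 : ℝ) ^ (4 * β) * a := by
    calc T * a ≤ 2 * (2 * C * d (K - 4) / 2 ^ (K - 4)) * (40 * (16 * 2 ^ (K - 4))) := h4
      _ = 2560 * C * d (K - 4) := by
          field_simp
          ring
      _ ≤ 2560 * C * ((2 : ℝ) ^ (4 * β) * (2 * a)) := by gcongr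
      _ = _ := by ring
  have h11 : 0 < C * (2 : ℝ) ^ (4 * β) * a := by positivity
  rw [hT] at h10
  nlinarith

/-- (B): exact gain `1` forces superpolynomial decay of the deterministic errors. -/
theorem main (S : X →L[ℝ] Y) (F : Set X) (hne : F.Nonempty) (hconv : Convex ℝ F)
    (hfin : ∀ n : ℕ, 1 ≤ n → 0 < detErr S F n ∧ detErr S F n < ⊤) (C : ℝ) (N₀ : ℕ)
    (hC : ∀ n : ℕ, N₀ ≤ n → ranErr.{u, v, w} S F (2 * n) ≤ ENNReal.ofReal (C / n) * detErr S F n)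
    (β : ℝ) :
    ∃ A : ℝ, ∀ n : ℕ, 1 ≤ n → detErr S F n ≤ ENNReal.ofReal (A * (n : ℝ) ^ (-β)) := by
  obtain ⟨A, hA⟩ := main_aux.{u, v, w} S F hne hconv hfin (max C 1) (le_max_right _ _) N₀
    (fun n hn => (hC n hn).trans (by
      gcongr
      exact le_max_left _ _)) (max β 0) (le_max_right _ _)
  refine ⟨|A|, fun n hn => (hA n hn).trans (ENNReal.ofReal_le_ofReal ?_)⟩
  have hn1 : (1 : ℝ) ≤ n := by exact_mod_cast hn
  calc A * (n : ℝ) ^ (-(max β 0)) ≤ |A| * (n : ℝ) ^ (-(max β 0)) := by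
        gcongr; exact le_abs_self A
    _ ≤ |A| * (n : ℝ) ^ (-β) := by
        gcongr
        exact le_max_left _ _

end Pool.Agent.H780R2.CX
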