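import Pool.Agent.H780R2.CX.Defs

open scoped ENNReal
open MeasureTheory Set

namespace Pool.Agent.H780R2.CX

universe u v w

/-! ### Task A (measure): basic facts on `mu` and the shift estimate, packing lemma -/

/-- A1 -/
theorem mu_univ (m : ℕ) : mu m Set.univ = 1 := by sorry

/-- A2 -/
theorem mu_compl_box (m : ℕ) : mu m (box m)ᶜ = 0 := by sorry

/-- A3: many pairwise disjoint translates of `G` by `ℓ²`-bounded, `ℓ^∞`-small vectors force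
`mu G ≤ 1/2`. -/
theorem pack (S : ℝ) (hS : 0 < S) : ∃ (L : ℕ) (η : ℝ), 0 < L ∧ 0 < η ∧
    ∀ (m : ℕ) (G : Set (Fin m → ℝ)) (b : Fin L → Fin m → ℝ), MeasurableSet G →
      (∀ i, ∑ j, (b i j) ^ 2 ≤ S) → (∀ i j, |b i j| ≤ η) →
      (∀ i i', i ≠ i' → ∀ u ∈ G, ∀ v ∈ G, (fun j => u j + b i j) ≠ (fun j => v j + b i' j)) →
      mu m G ≤ 1 / 2 := by sorry

/-! ### Task B (linear algebra): flags and Hadamard -/

/-- B1: greedy orthonormal basis adapted to subspaces `U i` of dimension `≥ m - i`. -/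
theorem adapted (m : ℕ) (U : Fin m → Submodule ℝ (EuclideanSpace ℝ (Fin m)))
    (hU : ∀ i, m ≤ Module.finrank ℝ (U i) + i) :
    ∃ b : Fin m → EuclideanSpace ℝ (Fin m), Orthonormal ℝ b ∧ ∀ i, b i ∈ U i := by sorry

/-- B2: Hadamard's inequality in an orthonormal basis. -/
theorem hadamard (m : ℕ) (M : Matrix (Fin m) (Fin m) ℝ)
    (b : Fin m → EuclideanSpace ℝ (Fin m)) (hb : Orthonormal ℝ b) :
    M.det ^ 2 ≤ ∏ i, ∑ l, (∑ j, M l j * b i j) ^ 2 := by sorry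

/-- B3 (uses B1, B2) -/
theorem lemD (β C₂ : ℝ) (hβ : 0 ≤ β) (hC : 1 ≤ C₂) : ∃ c : ℝ, 0 < c ∧ ∀ (K m : ℕ), 5 ≤ K →
    m = 2 ^ K → ∀ (a : ℝ), 0 < a → ∀ M : Matrix (Fin m) (Fin m) ℝ,
    (∀ l j, l < j → M l j = 0) → (∀ j, a ≤ M j j) →
    (∀ l j, |M l j| ≤ C₂ * (m : ℝ) ^ β * a) →
    ∀ V : ℕ → Submodule ℝ (EuclideanSpace ℝ (Fin m)),
    (∀ j, 1 ≤ j → j + 2 ≤ K → m ≤ Module.finrank ℝ (V j) + 2 ^ j ∧
      ∀ l, ∀ w ∈ V j, |∑ i, M l i * w i| ≤ C₂ * ((2 : ℝ) ^ (K - j)) ^ (1 + β) * a * ‖w‖) →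
    ∀ W : Submodule ℝ (EuclideanSpace ℝ (Fin m)), m ≤ Module.finrank ℝ W + m / 2 →
      ∃ l, ∃ w ∈ W, c * a * ‖w‖ < |∑ i, M l i * w i| := by sorry

/-- B4: pivots. -/
theorem pivots (m r q : ℕ) (M : Matrix (Fin m) (Fin m) ℝ)
    (V : Submodule ℝ (EuclideanSpace ℝ (Fin m))) (θ v : ℝ) (hθ : 0 < θ) (hv : 0 < v)
    (hr : q + r ≤ Module.finrank ℝ V)
    (hW : ∀ W : Submodule ℝ (EuclideanSpace ℝ (Fin m)), q ≤ Module.finrank ℝ W →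
      ∃ l, ∃ w ∈ W, θ * ‖w‖ < |∑ i, M l i * w i|) :
    ∃ (l : Fin r → Fin m) (w : Fin r → EuclideanSpace ℝ (Fin m)),
      (∀ i, w i ∈ V) ∧ (∀ i, ∑ j, M (l i) j * w i j = v) ∧
      (∀ i' i, i' < i → ∑ j, M (l i') j * w i j = 0) ∧ (∀ i, ‖w i‖ ≤ v / θ) ∧
      (∀ i i', i ≠ i' → ∑ j, w i j * w i' j = 0) := by sorry

/-! ### Task C (counting) -/

/-- C1: for most colourings, many of the sets are monochromatic of colour `0` and colour `0` is not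
used too often. -/
theorem colour (R m0 L : ℕ) : ∃ r0 : ℕ, ∀ m r : ℕ, r0 ≤ r → ∀ J : Fin r → Finset (Fin m),
    (∀ i, (J i).card ≤ m0) → (∀ j, (Finset.univ.filter (fun i => j ∈ J i)).card ≤ m0) →
    (R + 1) ^ m ≤ 2 * (Finset.univ.filter (fun c : Fin m → Fin (R + 1) =>
      (R + 1) * (Finset.univ.filter (fun j => c j = 0)).card ≤ 4 * m ∧
      L ≤ (Finset.univ.filter (fun i => ∀ j ∈ J i, c j = 0)).card)).card := by sorry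

/-- C2: records. -/
theorem records (d : ℕ → ℝ) (hd : ∀ j, 0 < d j) (β : ℝ)
    (hunb : ¬ ∃ A : ℝ, ∀ j, d j * (2 : ℝ) ^ (β * j) ≤ A) (K₀ : ℕ) :
    ∃ K, K₀ ≤ K ∧ ∀ j, j ≤ K → d j ≤ (2 : ℝ) ^ (((K : ℝ) - j) * β) * d K := by sorry

/-! ### Task D (selection and Tonelli) -/

/-- D1: sequential selection of pairs and norming functionals. -/
theorem select {X : Type u} {Y : Type v} [NormedAddCommGroup X] [NormedSpace ℝ X]
    [NormedAddCommGroup Y] [NormedSpace ℝ Y] (S : X →L[ℝ] Y) (F : Set X) (hF : F.Nonempty)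
    (N : ℕ) (hN : 1 ≤ N) (E a : ℝ) (ha : 0 < a) (hE : detErr S F 1 < ENNReal.ofReal E)
    (haN : ENNReal.ofReal a < detErr S F N) :
    ∃ (f g : Fin N → X) (Λ : Fin N → Y →L[ℝ] ℝ), (∀ j, f j ∈ F ∧ g j ∈ F) ∧
      (∀ j, ‖Λ j‖ ≤ 1) ∧ (∀ j, a ≤ Λ j (S (f j - g j))) ∧
      (∀ i j, i < j → Λ i (S (f j - g j)) = 0) ∧ (∀ j, ‖S (f j - g j)‖ ≤ 2 * E) := by sorry

/-- D2: derandomization (Tonelli). -/
theorem exists_omega {X : Type u} {Y : Type v} [NormedAddCommGroup X] [NormedSpace ℝ X]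
    [NormedAddCommGroup Y] [NormedSpace ℝ Y] (S : X →L[ℝ] Y) (F : Set X) (n : ℕ)
    (A : RandAlg.{u, v, w} S F n) (E : ℝ≥0∞)
    (hA : ∀ f ∈ F, @lintegral A.Ω A.mΩ A.P (fun ω => ‖S f - A.φ ω (fun i => A.L ω i f)‖ₑ) ≤ E)
    {C : Type} [Fintype C] [Nonempty C] (m : ℕ) (p : C → (Fin m → ℝ) → X)
    (hp : ∀ c, ∀ u ∈ box m, p c u ∈ F) (hc : ∀ c, Continuous (p c)) :
    ∃ ω : A.Ω, (∀ c, Measurable (fun u : box m => ‖S (p c u) - A.φ ω (fun i => A.L ω i (p c u))‖)) ∧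
      ∑ c, ∫⁻ u, ‖S (p c u) - A.φ ω (fun i => A.L ω i (p c u))‖ₑ ∂(mu m)
        ≤ (Fintype.card C : ℝ≥0∞) * E := by sorry

/-! ### Task E (the literal question has a trivial example) -/

/-- E1 -/
theorem trivial_example : ∃ (X Y : Type) (_ : NormedAddCommGroup X) (_ : NormedSpace ℝ X)
    (_ : CompleteSpace X) (_ : NormedAddCommGroup Y) (_ : NormedSpace ℝ Y) (_ : CompleteSpace Y)
    (S : X →L[ℝ] Y) (F : Set X), F.Nonempty ∧ Convex ℝ F ∧ (∀ f ∈ F, -f ∈ F) ∧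
    (∀ n : ℕ, detErr S F n = ENNReal.ofReal ((1 / 2) ^ n)) ∧
    (∀ n : ℕ, 1 ≤ n → ranErr.{0, 0, 0} S F (2 * n) ≤ ENNReal.ofReal (1 / n) * detErr S F n) := by
  sorry

/-! ### Task F (core: few good points), uses Task A and D2 -/

/-- F1: if there are `L(S0)` shifts `b i` which keep the information and move the solution by
at least `2γ` (pairwise), then the average error is at least `γ/2`. -/
theorem core (S0 : ℝ) (hS : 0 < S0) : ∃ (L : ℕ) (η : ℝ), 0 < L ∧ 0 < η ∧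
    ∀ {X : Type u} {Y : Type v} [NormedAddCommGroup X] [NormedSpace ℝ X]
    [NormedAddCommGroup Y] [NormedSpace ℝ Y] (S : X →L[ℝ] Y) (m k : ℕ) (x0 : X) (h : Fin m → X)
    (s : Fin m → ℝ) (Lf : Fin k → X →L[ℝ] ℝ) (φ : (Fin k → ℝ) → Y) (b : Fin L → Fin m → ℝ)
    (γ : ℝ), 0 ≤ γ →
    (Measurable (fun u : box m => ‖S (pt x0 h s u) - φ (fun i => Lf i (pt x0 h s u))‖)) →
    (∀ i, ∑ j, (b i j) ^ 2 ≤ S0) → (∀ i j, |b i j| ≤ η) →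
    (∀ i t, ∑ j, s j * b i j * Lf t (h j) = 0) →
    (∀ i i', i ≠ i' → 4 * γ ≤ ‖∑ j, (s j * (b i j - b i' j)) • S (h j)‖) →
    ENNReal.ofReal (γ / 2) ≤
      ∫⁻ u, ‖S (pt x0 h s u) - φ (fun i => Lf i (pt x0 h s u))‖ₑ ∂(mu m) := by sorry

/-- F2: row bound (uses F1 with `b i = i • (c w/‖w‖)`). -/
theorem rowBound : ∃ C₀ : ℝ, 0 < C₀ ∧
    ∀ {X : Type u} {Y : Type v} [NormedAddCommGroup X] [NormedSpace ℝ X]
    [NormedAddCommGroup Y] [NormedSpace ℝ Y] (S : X →L[ℝ] Y) (m k : ℕ) (x0 : X) (h : Fin m → X)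
    (s : ℝ) (Lf : Fin k → X →L[ℝ] ℝ) (φ : (Fin k → ℝ) → Y) (E : ℝ), 0 < s → 0 ≤ E →
    (Measurable (fun u : box m => ‖S (pt x0 h (fun _ => s) u) -
      φ (fun i => Lf i (pt x0 h (fun _ => s) u))‖)) →
    (∫⁻ u, ‖S (pt x0 h (fun _ => s) u) - φ (fun i => Lf i (pt x0 h (fun _ => s) u))‖ₑ ∂(mu m)
      ≤ ENNReal.ofReal E) →
    ∀ w : EuclideanSpace ℝ (Fin m), (∀ t, ∑ j, w j * Lf t (h j) = 0) →
      ∀ Λ : Y →L[ℝ] ℝ, ‖Λ‖ ≤ 1 → s * |∑ j, w j * Λ (S (h j))| ≤ C₀ * E * ‖w‖ := by sorry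

end Pool.Agent.H780R2.CX
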