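import Pool.Agent.H780R2.CX.Asm

open scoped ENNReal
open MeasureTheory Set

namespace Pool.Agent.H780R2.CX

universe u v w

/-- weights of a colouring. -/
noncomputable def wt {m R : ℕ} (c : Fin m → Fin (R + 1)) (j : Fin m) : ℝ :=
  (if c j = 0 then (R + 1 : ℝ) else 1) / (5 * m)

theorem wt_nonneg {m R : ℕ} (c : Fin m → Fin (R + 1)) (j : Fin m) : 0 ≤ wt c j := by
  unfold wt; split_ifs <;> positivity

theorem wt_sum_le {m R : ℕ} (hm : 0 < m) (c : Fin m → Fin (R + 1))
    (hc : (R + 1) * (Finset.univ.filter (fun j => c j = 0)).card ≤ 4 * m) :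
    ∑ j, wt c j ≤ 1 := by
  unfold wt
  rw [← Finset.sum_div, div_le_one (by positivity)]
  have h1 : ∀ j, (if c j = 0 then (R + 1 : ℝ) else 1) ≤ (if c j = 0 then (R + 1 : ℝ) else 0) + 1 := by
    intro j; split_ifs <;> linarith
  calc ∑ j, (if c j = 0 then (R + 1 : ℝ) else 1)
      ≤ ∑ j, ((if c j = 0 then (R + 1 : ℝ) else 0) + 1) := Finset.sum_le_sum fun j _ => h1 j
    _ = (R + 1) * (Finset.univ.filter (fun j => c j = 0)).card + m := by
        rw [Finset.sum_add_distrib, ← Finset.sum_filter, Finset.sum_const, Finset.sum_const]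
        simp only [nsmul_eq_mul, Finset.card_univ, Fintype.card_fin, mul_one]
        ring
    _ ≤ 5 * m := by
        have : ((R + 1 : ℝ)) * (Finset.univ.filter (fun j => c j = 0)).card ≤ 4 * m := by
          exact_mod_cast hc
        linarith

/-- the prior. -/
noncomputable def prior {X : Type u} [NormedAddCommGroup X] [NormedSpace ℝ X] {m R : ℕ}
    (f0 : X) (f g : Fin m → X) (c : Fin m → Fin (R + 1)) (u : Fin m → ℝ) : X :=
  open Classical in
  if ∑ j, wt c j ≤ 1 then pt (base f0 f g (wt c)) (fun j => f j - g j) (wt c) u else f0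

theorem prior_mem {X : Type u} [NormedAddCommGroup X] [NormedSpace ℝ X] {m R : ℕ} {F : Set X}
    (hF : Convex ℝ F) {f0 : X} (hf0 : f0 ∈ F) {f g : Fin m → X}
    (hf : ∀ j, f j ∈ F) (hg : ∀ j, g j ∈ F) (c : Fin m → Fin (R + 1)) :
    ∀ u ∈ box m, prior f0 f g c u ∈ F := by
  intro u hu
  unfold prior
  split_ifs with h
  · exact pt_mem hF hf0 hf hg (wt_nonneg c) h hu
  · exact hf0

theorem prior_continuous {X : Type u} [NormedAddCommGroup X] [NormedSpace ℝ X] {m R : ℕ}
    (f0 : X) (f g : Fin m → X) (c : Fin m → Fin (R + 1)) : Continuous (prior f0 f g c) := by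
  unfold prior
  split_ifs with h
  · exact continuous_pt _ _ _
  · exact continuous_const

/-- Bessel for the pivots. -/
theorem pivot_bessel {m r : ℕ} (w : Fin r → EuclideanSpace ℝ (Fin m)) (K₁ : ℝ)
    (hne : ∀ i, w i ≠ 0) (hn : ∀ i, ‖w i‖ ≤ K₁)
    (ho : ∀ i i', i ≠ i' → ∑ j, w i j * w i' j = 0) (j : Fin m) :
    ∑ i, (w i j) ^ 2 ≤ K₁ ^ 2 := by
  set v : Fin r → EuclideanSpace ℝ (Fin m) := fun i => (‖w i‖)⁻¹ • w i with hv
  have hov : Orthonormal ℝ v := by
    constructor
    · intro i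
      rw [hv]
      simp only
      rw [norm_smul, norm_inv, norm_norm, inv_mul_cancel₀ (norm_ne_zero_iff.mpr (hne i))]
    · intro i i' hii
      simp only [hv]
      rw [real_inner_smul_left, real_inner_smul_right]
      have : inner ℝ (w i) (w i') = 0 := by
        rw [PiLp.inner_apply]
        rw [← ho i i' hii]
        refine Finset.sum_congr rfl fun j _ => ?_
        simp [mul_comm]
      rw [this]; ring
  have h1 := hov.sum_inner_products_le (x := EuclideanSpace.single j (1 : ℝ))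
    (s := Finset.univ)
  have h2 : ‖(EuclideanSpace.single j (1 : ℝ) : EuclideanSpace ℝ (Fin m))‖ = 1 := by simp
  rw [h2] at h1
  have h3 : ∀ i, (w i j) ^ 2 ≤ K₁ ^ 2 * ‖inner ℝ (v i) (EuclideanSpace.single j (1 : ℝ))‖ ^ 2 := by
    intro i
    have h4 : inner ℝ (v i) (EuclideanSpace.single j (1 : ℝ)) = ‖w i‖⁻¹ * w i j := by
      simp [hv, real_inner_smul_left, EuclideanSpace.inner_single_right]
    rw [h4, Real.norm_eq_abs, sq_abs, mul_pow, ← mul_assoc]
    have hpos : 0 < ‖w i‖ := norm_pos_iff.mpr (hne i)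
    have h5 : 1 ≤ K₁ ^ 2 * ‖w i‖⁻¹ ^ 2 := by
      rw [← mul_pow]
      have : 1 ≤ K₁ * ‖w i‖⁻¹ := by
        rw [le_mul_inv_iff₀ hpos]; simpa using hn i
      nlinarith
    nlinarith [sq_nonneg (w i j)]
  calc ∑ i, (w i j) ^ 2 ≤ ∑ i, K₁ ^ 2 * ‖inner ℝ (v i) (EuclideanSpace.single j (1 : ℝ))‖ ^ 2 :=
        Finset.sum_le_sum fun i _ => h3 i
    _ = K₁ ^ 2 * ∑ i, ‖inner ℝ (v i) (EuclideanSpace.single j (1 : ℝ))‖ ^ 2 := by
        rw [Finset.mul_sum]
    _ ≤ K₁ ^ 2 * 1 := by
        apply mul_le_mul_of_nonneg_left _ (sq_nonneg _)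
        simpa using h1
    _ = K₁ ^ 2 := mul_one _

theorem card_heavy {ι : Type} [Fintype ι] (x : ι → ℝ) (A δ : ℝ) (hδ : 0 < δ)
    (hx : ∑ i, (x i) ^ 2 ≤ A) :
    (Finset.univ.filter (fun i => δ < |x i|)).card ≤ ⌈A / δ ^ 2⌉₊ := by
  have h1 : ((Finset.univ.filter (fun i => δ < |x i|)).card : ℝ) * δ ^ 2 ≤ A := by
    calc ((Finset.univ.filter (fun i => δ < |x i|)).card : ℝ) * δ ^ 2
        = ∑ i ∈ Finset.univ.filter (fun i => δ < |x i|), δ ^ 2 := by simp
      _ ≤ ∑ i ∈ Finset.univ.filter (fun i => δ < |x i|), (x i) ^ 2 := by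
          refine Finset.sum_le_sum fun i hi => ?_
          have h2 : δ < |x i| := (Finset.mem_filter.mp hi).2
          rw [← sq_abs (x i)]
          exact pow_le_pow_left₀ hδ.le h2.le 2
      _ ≤ ∑ i, (x i) ^ 2 := Finset.sum_le_sum_of_subset_of_nonneg (Finset.filter_subset _ _)
          fun i _ _ => sq_nonneg _
      _ ≤ A := hx
  have h2 : ((Finset.univ.filter (fun i => δ < |x i|)).card : ℝ) ≤ A / δ ^ 2 := by
    rw [le_div_iff₀ (by positivity)]; exact h1
  exact_mod_cast h2.trans (Nat.le_ceil _)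

/-- the gain step. -/
theorem top (T K₁ : ℝ) (hT : 0 < T) (hK : 0 < K₁) : ∃ (R r0 : ℕ),
    ∀ {X : Type u} {Y : Type v} [NormedAddCommGroup X] [NormedSpace ℝ X]
    [NormedAddCommGroup Y] [NormedSpace ℝ Y] (S : X →L[ℝ] Y) (m k : ℕ), 0 < m → r0 ≤ m / 4 →
    8 * k ≤ m → ∀ (f0 : X) (f g : Fin m → X) (Λ : Fin m → Y →L[ℝ] ℝ), (∀ j, ‖Λ j‖ ≤ 1) →
    ∀ a : ℝ, 0 < a →
    (∀ W : Submodule ℝ (EuclideanSpace ℝ (Fin m)), m / 2 ≤ Module.finrank ℝ W →
      ∃ l, ∃ w ∈ W, (a / K₁) * ‖w‖ < |∑ i, Λ l (S (f i - g i)) * w i|) →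
    ∀ (Lf : Fin k → X →L[ℝ] ℝ) (φ : (Fin k → ℝ) → Y),
    (∀ c : Fin m → Fin (R + 1),
      Measurable (fun u : box m => ‖S (prior f0 f g c u) - φ (fun i => Lf i (prior f0 f g c u))‖)) →
    ((R : ℝ≥0∞) + 1) ^ m * ENNReal.ofReal (T * a / (40 * m)) ≤
      2 * ∑ c : Fin m → Fin (R + 1),
        ∫⁻ u, ‖S (prior f0 f g c u) - φ (fun i => Lf i (prior f0 f g c u))‖ₑ ∂(mu m) := by
  obtain ⟨Ln, η, hLn, hη, hcore⟩ := core.{u, v} (T ^ 2 * K₁ ^ 2) (by positivity)
  set m0 : ℕ := ⌈K₁ ^ 2 / (η / T) ^ 2⌉₊ with hm0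
  set R : ℕ := ⌈T * K₁ / η⌉₊ with hR
  obtain ⟨r0, hr0⟩ := colour R m0 Ln
  refine ⟨R, r0, ?_⟩
  intro X Y _ _ _ _ S m k hm hrm hkm f0 f g Λ hΛ a ha hW Lf φ hmeas
  set h : Fin m → X := fun j => f j - g j with hh
  set M : Matrix (Fin m) (Fin m) ℝ := fun l j => Λ l (S (h j)) with hM
  have hfin := finrank_kerM Lf h
  obtain ⟨l, w, hwV, hwv, hwt', hwn, hwo⟩ := pivots m (m / 4) (m / 2) M (kerM Lf h) (a / K₁) a
    (by positivity) ha (by omega) hW
  have hK1 : a / (a / K₁) = K₁ := by field_simp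
  rw [hK1] at hwn
  have hwne : ∀ i, w i ≠ 0 := by
    intro i h0
    have := hwv i
    rw [h0] at this
    simp at this
    exact ha.ne this
  set J : Fin (m / 4) → Finset (Fin m) := fun i => Finset.univ.filter (fun j => η / T < |w i j|)
    with hJ
  have hJ1 : ∀ i, (J i).card ≤ m0 := by
    intro i
    refine card_heavy (fun j => w i j) (K₁ ^ 2) (η / T) (by positivity) ?_
    have h1 : ∑ j, (w i j) ^ 2 = ‖w i‖ ^ 2 := by
      rw [EuclideanSpace.norm_sq_eq]
      simp
    rw [h1]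
    exact pow_le_pow_left₀ (norm_nonneg _) (hwn i) 2
  have hJ2 : ∀ j, (Finset.univ.filter (fun i => j ∈ J i)).card ≤ m0 := by
    intro j
    have h1 := card_heavy (fun i => w i j) (K₁ ^ 2) (η / T) (by positivity)
      (pivot_bessel w K₁ hwne hwn hwo j)
    refine le_trans (le_of_eq ?_) h1
    congr 1
    ext i
    simp [hJ]
  have hcol := hr0 m (m / 4) hrm J hJ1 hJ2
  set G := Finset.univ.filter (fun c : Fin m → Fin (R + 1) =>
      (R + 1) * (Finset.univ.filter (fun j => c j = 0)).card ≤ 4 * m ∧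
      Ln ≤ (Finset.univ.filter (fun i => ∀ j ∈ J i, c j = 0)).card) with hG
  have hgood : ∀ c ∈ G, ENNReal.ofReal (T * a / (40 * m)) ≤
      ∫⁻ u, ‖S (prior f0 f g c u) - φ (fun i => Lf i (prior f0 f g c u))‖ₑ ∂(mu m) := by
    intro c hc
    obtain ⟨hc1, hc2⟩ := (Finset.mem_filter.mp hc).2
    have hsum := wt_sum_le hm c hc1
    -- an injection
    obtain ⟨t, ht1, ht2⟩ := Finset.exists_subset_card_eq hc2
    have e := (Finset.equivFinOfCardEq ht2).symm
    set ι : Fin Ln → Fin (m / 4) := fun i => (e i : Fin (m / 4)) with hι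
    have hιinj : Function.Injective ι := Subtype.val_injective.comp e.injective
    have hιc : ∀ i, ∀ j ∈ J (ι i), c j = 0 := fun i =>
      (Finset.mem_filter.mp (ht1 (e i).2)).2
    have hm' : (0 : ℝ) < m := by exact_mod_cast hm
    have hwt : ∀ j, 0 < wt c j := by
      intro j; unfold wt; split_ifs <;> positivity
    set b : Fin Ln → Fin m → ℝ := fun i j => T / (5 * m) * w (ι i) j / wt c j with hb
    have hsb : ∀ i j, wt c j * b i j = T / (5 * m) * w (ι i) j := by
      intro i j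
      simp only [hb]
      field_simp [(hwt j).ne']
    have hb0 : ∀ i j, c j = 0 → b i j = T * w (ι i) j / (R + 1) := by
      intro i j hcj
      simp only [hb, wt, hcj, if_true]
      field_simp
    have hb1 : ∀ i j, c j ≠ 0 → b i j = T * w (ι i) j := by
      intro i j hcj
      simp only [hb, wt, hcj, if_false]
      field_simp
    have hwj : ∀ i j, |w i j| ≤ K₁ := by
      intro i j
      refine le_trans ?_ (hwn i)
      have := EuclideanSpace.norm_eq (w i)
      rw [← Real.norm_eq_abs]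
      exact PiLp.norm_apply_le (w i) j
    have hbabs : ∀ i j, |b i j| ≤ T * |w (ι i) j| := by
      intro i j
      by_cases hcj : c j = 0
      · rw [hb0 i j hcj, abs_div, abs_mul, abs_of_pos hT, abs_of_pos (by positivity : (0:ℝ) < R + 1)]
        exact div_le_self (by positivity) (by linarith [(Nat.cast_nonneg R : (0:ℝ) ≤ R)])
      · rw [hb1 i j hcj, abs_mul, abs_of_pos hT]
    have hprior : ∀ u, prior f0 f g c u = pt (base f0 f g (wt c)) h (wt c) u := by
      intro u; unfold prior; rw [if_pos hsum]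
    have hres := hcore S m k (base f0 f g (wt c)) h (wt c) Lf φ b (T * a / (20 * m))
      (by positivity) (by simpa only [hprior] using hmeas c) ?_ ?_ ?_ ?_
    · simp only [hprior]
      refine le_trans (le_of_eq ?_) hres
      congr 1
      field_simp
      norm_num
    · intro i
      calc ∑ j, (b i j) ^ 2 ≤ ∑ j, T ^ 2 * (w (ι i) j) ^ 2 := by
            refine Finset.sum_le_sum fun j _ => ?_
            rw [← sq_abs (b i j), ← sq_abs (w (ι i) j), ← mul_pow]
            exact pow_le_pow_left₀ (abs_nonneg _) (hbabs i j) 2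
        _ = T ^ 2 * ‖w (ι i)‖ ^ 2 := by
            rw [← Finset.mul_sum, EuclideanSpace.norm_sq_eq]; simp
        _ ≤ T ^ 2 * K₁ ^ 2 := by
            apply mul_le_mul_of_nonneg_left _ (by positivity)
            exact pow_le_pow_left₀ (norm_nonneg _) (hwn _) 2
    · intro i j
      by_cases hj : j ∈ J (ι i)
      · have hcj := hιc i j hj
        rw [hb0 i j hcj, abs_div, abs_mul, abs_of_pos hT, abs_of_pos (by positivity : (0:ℝ) < R + 1),
          div_le_iff₀ (by positivity)]
        have h1 : T * K₁ / η ≤ R := Nat.le_ceil _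
        have h2 : T * K₁ ≤ R * η := by rwa [div_le_iff₀ hη] at h1
        have h3 : T * |w (ι i) j| ≤ T * K₁ := mul_le_mul_of_nonneg_left (hwj _ _) hT.le
        nlinarith
      · have h1 : |w (ι i) j| ≤ η / T := by
          by_contra hcon
          exact hj (Finset.mem_filter.mpr ⟨Finset.mem_univ _, not_le.mp hcon⟩)
        refine (hbabs i j).trans ?_
        rw [le_div_iff₀ hT] at h1
        linarith
    · intro i t
      have h1 := (mem_kerM Lf h (w (ι i))).mp (hwV (ι i)) t
      calc ∑ j, wt c j * b i j * Lf t (h j) = ∑ j, T / (5 * m) * (w (ι i) j * Lf t (h j)) := by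
            refine Finset.sum_congr rfl fun j _ => ?_
            rw [hsb]; ring
        _ = 0 := by rw [← Finset.mul_sum, h1, mul_zero]
    · -- separation
      have key : ∀ i i' : Fin Ln, ι i' < ι i →
          4 * (T * a / (20 * m)) ≤ ‖∑ j, (wt c j * (b i j - b i' j)) • S (h j)‖ := by
        intro i i' hii
        have h1 : (Λ (l (ι i'))) (∑ j, (wt c j * (b i j - b i' j)) • S (h j)) =
            T / (5 * m) * (∑ j, M (l (ι i')) j * w (ι i) j - ∑ j, M (l (ι i')) j * w (ι i') j) := by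
          rw [map_sum, ← Finset.sum_sub_distrib, Finset.mul_sum]
          refine Finset.sum_congr rfl fun j _ => ?_
          rw [map_smul, smul_eq_mul, mul_sub, hsb, hsb]
          simp only [hM]
          ring
        rw [hwt' (ι i') (ι i) hii, hwv] at h1
        have h2 : |(Λ (l (ι i'))) (∑ j, (wt c j * (b i j - b i' j)) • S (h j))| ≤
            1 * ‖∑ j, (wt c j * (b i j - b i' j)) • S (h j)‖ := by
          rw [← Real.norm_eq_abs]
          exact (Λ (l (ι i'))).le_of_opNorm_le (hΛ _) _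
        rw [h1, zero_sub, mul_neg, abs_neg, abs_of_pos (by positivity), one_mul] at h2
        refine le_trans (le_of_eq ?_) h2
        field_simp
        norm_num
      intro i i' hne
      rcases lt_or_gt_of_ne (fun h0 => hne (hιinj h0)) with h1 | h1
      · have := key i' i h1
        refine this.trans (le_of_eq ?_)
        rw [← norm_neg, ← Finset.sum_neg_distrib]
        congr 1
        refine Finset.sum_congr rfl fun j _ => ?_
        rw [← neg_smul]; congr 1; ring
      · exact key i i' h1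
  have hcount : ((R : ℝ≥0∞) + 1) ^ m ≤ 2 * (G.card : ℝ≥0∞) := by exact_mod_cast hcol
  calc ((R : ℝ≥0∞) + 1) ^ m * ENNReal.ofReal (T * a / (40 * m))
      ≤ 2 * (G.card : ℝ≥0∞) * ENNReal.ofReal (T * a / (40 * m)) := by gcongr
    _ = 2 * ∑ c ∈ G, ENNReal.ofReal (T * a / (40 * m)) := by
        rw [Finset.sum_const, nsmul_eq_mul, mul_assoc]
    _ ≤ 2 * ∑ c ∈ G, ∫⁻ u, ‖S (prior f0 f g c u) -
          φ (fun i => Lf i (prior f0 f g c u))‖ₑ ∂(mu m) := by
        gcongr with c hc
        exact hgood c hc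
    _ ≤ _ := by
        gcongr
        exact Finset.filter_subset _ _

end Pool.Agent.H780R2.CX
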